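import Pool.Agent.R363.LF.Stm

/-! LF-CUBE (helper886). -/

namespace Pool.Agent.R363.LF

open MeasureTheory Finset

theorem t_Cube : S_Cube := by
  intro n
  have hT : MeasurePreserving (@WithLp.toLp 2 (Fin n → ℝ)) := PiLp.volume_preserving_toLp (Fin n)
  have hO : MeasurePreserving (@WithLp.ofLp 2 (Fin n → ℝ)) := PiLp.volume_preserving_ofLp (Fin n)
  have hpre : cubeE n = (@WithLp.ofLp 2 (Fin n → ℝ)) ⁻¹' Set.Icc 0 1 := by
    ext x
    simp only [cubeE, Set.mem_setOf_eq, Set.mem_preimage, Set.mem_Icc, Pi.le_def, forall_and,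
      Pi.zero_apply, Pi.one_apply]
  have hmE : MeasurableSet (cubeE n) := by
    rw [hpre]
    exact hO.measurable measurableSet_Icc
  refine ⟨?_, ?_, ?_⟩
  · rw [hpre, hO.measure_preimage measurableSet_Icc.nullMeasurableSet, Real.volume_Icc_pi]
    simp
  · rw [ae_restrict_iff' hmE]
    have h1 : ∀ᵐ y ∂(volume : Measure (Fin n → ℝ)), y ∈ Set.Icc (0 : Fin n → ℝ) 1 →
        y ∈ Set.pi Set.univ (fun i : Fin n => Set.Ioo ((0 : Fin n → ℝ) i) ((1 : Fin n → ℝ) i)) := by
      have h2 := Measure.univ_pi_Ioo_ae_eq_Icc (μ := fun _ : Fin n => (volume : Measure ℝ))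
        (f := (0 : Fin n → ℝ)) (g := 1)
      filter_upwards [h2] with y hy h3
      exact (Eq.to_iff hy).2 h3
    have h4 := hO.quasiMeasurePreserving.ae h1
    filter_upwards [h4] with x hx hxE
    have h5 := hx (by rw [hpre] at hxE; exact hxE)
    intro l
    exact h5 l (Set.mem_univ l)
  · intro K hK
    have h1 : {x : Fin n → ℝ | WithLp.toLp 2 x ∈ K} = (@WithLp.ofLp 2 (Fin n → ℝ)) '' K := by
      ext x
      constructor
      · intro h
        exact ⟨WithLp.toLp 2 x, h, rfl⟩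
      · rintro ⟨y, hy, rfl⟩
        exact hy
    refine ⟨?_, ?_⟩
    · rw [h1]
      exact hK.image (PiLp.continuous_ofLp 2 (fun _ : Fin n => ℝ))
    · have h2 : Set.Icc (0 : Fin n → ℝ) 1 \ {x : Fin n → ℝ | WithLp.toLp 2 x ∈ K}
          = (@WithLp.toLp 2 (Fin n → ℝ)) ⁻¹' (cubeE n \ K) := by
        rw [hpre]
        rfl
      rw [h2, hT.measure_preimage (hmE.diff hK.measurableSet).nullMeasurableSet]

end Pool.Agent.R363.LF
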