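import Pool.Agent.R363.LF.Stm

/-! # Piece CUBE, third copy (helper165) -/

namespace Pool.Agent.R363.LF

open MeasureTheory Finset

namespace Cubec

theorem pre (n : ℕ) : cubeE n = (WithLp.ofLp : E n → Fin n → ℝ) ⁻¹' Set.Icc 0 1 := by
  ext x
  simp only [cubeE, Set.mem_ofPred_eq, Set.mem_preimage, Set.mem_Icc, Pi.le_def, Pi.zero_apply,
    Pi.one_apply]
  exact forall_and

theorem ic (n : ℕ) : volume (Set.Icc (0 : Fin n → ℝ) 1) = 1 := by
  rw [Real.volume_Icc_pi]
  simp

end Cubec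

theorem t_Cube : S_Cube := by
  intro n
  have hmp := PiLp.volume_preserving_ofLp (Fin n)
  have hmp2 := PiLp.volume_preserving_toLp (Fin n)
  refine ⟨?_, ?_, ?_⟩
  · rw [Cubec.pre, hmp.measure_preimage measurableSet_Icc.nullMeasurableSet, Cubec.ic]
  · have h1 : (Set.pi Set.univ fun i : Fin n => Set.Ioo ((0 : Fin n → ℝ) i) ((1 : Fin n → ℝ) i))
        =ᵐ[(volume : Measure (Fin n → ℝ))] Set.Icc 0 1 := Measure.univ_pi_Ioo_ae_eq_Icc
    have h2 := hmp.quasiMeasurePreserving.preimage_ae_eq h1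
    have h3 : MeasurableSet (cubeE n) := by
      rw [Cubec.pre]
      exact hmp.measurable measurableSet_Icc
    rw [ae_restrict_iff' h3]
    filter_upwards [h2] with x hx hxc
    have h4 : x ∈ (WithLp.ofLp : E n → Fin n → ℝ) ⁻¹' (Set.pi Set.univ fun i : Fin n =>
        Set.Ioo ((0 : Fin n → ℝ) i) ((1 : Fin n → ℝ) i)) := by
      rw [Cubec.pre] at hxc
      exact (eq_iff_iff.1 hx).2 hxc
    intro l
    exact h4 l (Set.mem_univ l)
  · intro K hK
    refine ⟨?_, ?_⟩
    · have h1 : {x : Fin n → ℝ | WithLp.toLp 2 x ∈ K} = (WithLp.ofLp : E n → Fin n → ℝ) '' K := by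
        ext x
        constructor
        · intro hx
          exact ⟨WithLp.toLp 2 x, hx, rfl⟩
        · rintro ⟨y, hy, rfl⟩
          exact hy
      rw [h1]
      exact hK.image (PiLp.continuous_ofLp 2 _)
    · have h1 : Set.Icc (0 : Fin n → ℝ) 1 \ {x : Fin n → ℝ | WithLp.toLp 2 x ∈ K} =
          (WithLp.toLp 2 : (Fin n → ℝ) → E n) ⁻¹' (cubeE n \ K) := by
        ext x
        rw [Cubec.pre]
        rfl
      have h3 : MeasurableSet (cubeE n \ K) := by
        rw [Cubec.pre]
        exact (hmp.measurable measurableSet_Icc).diff hK.measurableSet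
      rw [h1, hmp2.measure_preimage h3.nullMeasurableSet]

end Pool.Agent.R363.LF
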