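import Pool.Agent.R363.LF.Stm

namespace Pool.Agent.R363.LF

open Finset

namespace D0aux

theorem one_dim (f : ℕ → ℝ) (A : ℕ) : ∀ L : ℕ,
    ∑ i ∈ range (L * A), f i = ∑ a ∈ range L, ∑ i ∈ range A, f (a * A + i) := by
  intro L
  induction L with
  | zero => simp
  | succ L ih =>
    rw [Nat.succ_mul, Finset.sum_range_add, ih, Finset.sum_range_succ]

end D0aux

open D0aux

theorem t_D0 : S_D0 := by
  intro f A L
  rw [one_dim (fun i => ∑ j ∈ range (L * A), f i j)]
  refine Finset.sum_congr rfl fun a _ => ?_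
  have h : ∀ i, ∑ j ∈ range (L * A), f (a * A + i) j =
      ∑ b ∈ range L, ∑ j ∈ range A, f (a * A + i) (b * A + j) := fun i =>
    one_dim (fun j => f (a * A + i) j) A L
  rw [Finset.sum_congr rfl fun i _ => h i, Finset.sum_comm]

end Pool.Agent.R363.LF
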