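import Pool.Agent.R363.LF.Stm

/-! # Piece D0, second copy (helper165) -/

namespace Pool.Agent.R363.LF

open Finset

namespace D0b

theorem blk (g : ℕ → ℝ) (A L : ℕ) :
    ∑ i ∈ range (L * A), g i = ∑ a ∈ range L, ∑ i ∈ range A, g (a * A + i) := by
  induction L with
  | zero => simp
  | succ L ih => rw [Nat.succ_mul, sum_range_add, ih, sum_range_succ]

end D0b

theorem t_D0 : S_D0 := by
  intro f A L
  rw [D0b.blk (fun i => ∑ j ∈ range (L * A), f i j) A L]
  refine sum_congr rfl fun a _ => ?_
  refine Eq.trans ?_ sum_comm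
  refine sum_congr rfl fun i _ => ?_
  exact D0b.blk (fun j => f (a * A + i) j) A L

end Pool.Agent.R363.LF
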