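import Pool.Agent.R363.LF.Stm

/-! Piece D1: the lower bound (helper668) -/

set_option autoImplicit false

namespace Pool.Agent.R363.LF

open MeasureTheory Finset

theorem D1_sum (x y : ℝ) : ∀ M : ℕ,
    ∑ a ∈ range (2 * M), (if a % 2 = 0 then x else y) = M * (x + y) := by
  intro M
  induction M with
  | zero => simp
  | succ M ih =>
    have e : 2 * (M + 1) = 2 * M + 1 + 1 := by ring
    rw [e, sum_range_succ, sum_range_succ, ih]
    have h1 : (2 * M) % 2 = 0 := by omega
    have h2 : ¬ (2 * M + 1) % 2 = 0 := by omega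
    rw [if_pos h1, if_neg h2]
    push_cast
    ring

theorem t_D1 (h0 : S_D0) : S_D1 := by
  intro L N hL hLe
  have hLpos : 0 < L := by omega
  induction N with
  | zero =>
    intro α _ _
    simp only [Nat.cast_zero, zero_div, zero_mul]
    exact sum_nonneg fun i _ => sum_nonneg fun j _ => abs_nonneg _
  | succ N ih =>
    intro α hα1 hα0
    set A := L ^ N with hA
    have hApos : 0 < A := Nat.pow_pos hLpos
    have hrange : L ^ (N + 1) = L * A := by rw [pow_succ']
    rw [hrange, h0]
    have hdiv : ∀ a i : ℕ, i < A → (a * A + i) / A = a := fun a i hi => by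
      rw [Nat.mul_comm, Nat.mul_add_div hApos, Nat.div_eq_of_lt hi, Nat.add_zero]
    have hmod : ∀ a i : ℕ, i < A → (a * A + i) % A = i := fun a i hi => by
      rw [Nat.mul_comm, Nat.mul_add_mod, Nat.mod_eq_of_lt hi]
    have hU : ∀ a b i j : ℕ, i < A → j < A → U L (N + 1) (a * A + i) (b * A + j) =
        if a % 2 = 0 then 1 - 2 * U L N j i else -1 := by
      intro a b i j hi hj
      simp only [U]
      rw [← hA, hdiv a i hi, hmod a i hi, hmod b j hj]
    have hblock : ∀ a b : ℕ, (if a % 2 = 0 then (N : ℝ) * (L : ℝ) ^ (2 * N) else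
        (L : ℝ) ^ (2 * N)) ≤
        ∑ i ∈ range A, ∑ j ∈ range A, |α + U L (N + 1) (a * A + i) (b * A + j)| := by
      intro a b
      by_cases ha : a % 2 = 0
      · rw [if_pos ha]
        have e : ∑ i ∈ range A, ∑ j ∈ range A, |α + U L (N + 1) (a * A + i) (b * A + j)| =
            2 * ∑ i ∈ range A, ∑ j ∈ range A, |(-(α + 1) / 2) + U L N i j| := by
          rw [sum_comm, mul_sum]
          refine sum_congr rfl fun j hj => ?_
          rw [mul_sum]
          refine sum_congr rfl fun i hi => ?_
          rw [hU a b i j (mem_range.1 hi) (mem_range.1 hj), if_pos ha]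
          have h2 : α + (1 - 2 * U L N j i) = -2 * ((-(α + 1) / 2) + U L N j i) := by ring
          rw [h2, abs_mul]
          norm_num
        rw [e]
        have := ih (-(α + 1) / 2) (by linarith) (by linarith)
        linarith
      · rw [if_neg ha]
        have e : ∀ i ∈ range A, ∀ j ∈ range A,
            (1 : ℝ) ≤ |α + U L (N + 1) (a * A + i) (b * A + j)| := by
          intro i hi j hj
          rw [hU a b i j (mem_range.1 hi) (mem_range.1 hj), if_neg ha,
            abs_of_nonpos (by linarith)]
          linarith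
        have h2 : ∑ i ∈ range A, ∑ j ∈ range A, (1 : ℝ) ≤
            ∑ i ∈ range A, ∑ j ∈ range A, |α + U L (N + 1) (a * A + i) (b * A + j)| :=
          sum_le_sum fun i hi => sum_le_sum fun j hj => e i hi j hj
        refine le_trans (le_of_eq ?_) h2
        simp only [sum_const, card_range, nsmul_eq_mul, mul_one]
        rw [hA]
        push_cast
        ring
    have hsum : ∑ a ∈ range L, ∑ _b ∈ range L, (if a % 2 = 0 then (N : ℝ) * (L : ℝ) ^ (2 * N) else
        (L : ℝ) ^ (2 * N)) ≤ ∑ a ∈ range L, ∑ b ∈ range L,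
        ∑ i ∈ range A, ∑ j ∈ range A, |α + U L (N + 1) (a * A + i) (b * A + j)| :=
      sum_le_sum fun a _ => sum_le_sum fun b _ => hblock a b
    refine le_trans (le_of_eq ?_) hsum
    simp only [sum_const, card_range, nsmul_eq_mul]
    rw [← mul_sum]
    obtain ⟨M, hM⟩ : ∃ M, L = 2 * M := ⟨L / 2, by omega⟩
    have h3 : ∑ a ∈ range L, (if a % 2 = 0 then (N : ℝ) * (L : ℝ) ^ (2 * N) else
        (L : ℝ) ^ (2 * N)) = M * ((N : ℝ) * (L : ℝ) ^ (2 * N) + (L : ℝ) ^ (2 * N)) := by
      have := D1_sum ((N : ℝ) * (L : ℝ) ^ (2 * N)) ((L : ℝ) ^ (2 * N)) M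
      rw [← hM] at this
      exact this
    rw [h3]
    have h4 : (L : ℝ) = 2 * M := by
      rw [hM]
      push_cast
      ring
    have h5 : (M : ℝ) = L / 2 := by rw [h4]; ring
    rw [h5]
    push_cast
    ring

end Pool.Agent.R363.LF
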