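import Pool.Agent.R363.LF.Stm

set_option autoImplicit false

namespace Pool.Agent.R363.LF

open MeasureTheory Finset

namespace D1b

theorem sum_par (X Y : ℝ) (c : ℕ) :
    ∑ a ∈ range (2 * c), (if a % 2 = 0 then X else Y) = c * (X + Y) := by
  induction c with
  | zero => simp
  | succ c ih =>
    have e : 2 * (c + 1) = 2 * c + 1 + 1 := by ring
    rw [e, sum_range_succ, sum_range_succ, ih]
    have h1 : (2 * c) % 2 = 0 := by omega
    have h2 : ¬ ((2 * c + 1) % 2 = 0) := by omega
    rw [if_pos h1, if_neg h2]
    push_cast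
    ring

end D1b

theorem t_D1 (h0 : S_D0) : S_D1 := by
  intro L N hL hev
  obtain ⟨c, hc⟩ : ∃ c, L = 2 * c := ⟨L / 2, by omega⟩
  induction N with
  | zero =>
    intro α _ _
    simp only [Nat.cast_zero, zero_div, zero_mul]
    exact sum_nonneg fun _ _ => sum_nonneg fun _ _ => abs_nonneg _
  | succ N ih =>
    intro α h1 h2
    have hA : 0 < L ^ N := pow_pos (by omega) N
    rw [pow_succ' L N, h0 (fun i j => |α + U L (N + 1) i j|) (L ^ N) L]
    have hLc : (L : ℝ) = 2 * c := by rw [hc]; push_cast; ring
    -- the inner sums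
    have key : ∀ a ∈ range L, ∀ b ∈ range L,
        (if a % 2 = 0 then (N : ℝ) * (L : ℝ) ^ (2 * N) else (L : ℝ) ^ (2 * N)) ≤
          ∑ i ∈ range (L ^ N), ∑ j ∈ range (L ^ N),
            |α + U L (N + 1) (a * L ^ N + i) (b * L ^ N + j)| := by
      intro a _ b _
      have hU : ∀ i ∈ range (L ^ N), ∀ j ∈ range (L ^ N),
          U L (N + 1) (a * L ^ N + i) (b * L ^ N + j) =
            if a % 2 = 0 then 1 - 2 * U L N j i else -1 := by
        intro i hi j hj
        rw [mem_range] at hi hj
        have e1 : (a * L ^ N + i) / L ^ N = a := by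
          rw [mul_comm, Nat.mul_add_div hA, Nat.div_eq_of_lt hi, add_zero]
        have e2 : (a * L ^ N + i) % L ^ N = i := by
          rw [mul_comm, Nat.mul_add_mod, Nat.mod_eq_of_lt hi]
        have e3 : (b * L ^ N + j) % L ^ N = j := by
          rw [mul_comm, Nat.mul_add_mod, Nat.mod_eq_of_lt hj]
        rw [U, e1, e2, e3]
      have hsum : ∑ i ∈ range (L ^ N), ∑ j ∈ range (L ^ N),
            |α + U L (N + 1) (a * L ^ N + i) (b * L ^ N + j)| =
          ∑ i ∈ range (L ^ N), ∑ j ∈ range (L ^ N),
            |α + if a % 2 = 0 then 1 - 2 * U L N j i else -1| := by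
        refine sum_congr rfl fun i hi => sum_congr rfl fun j hj => ?_
        rw [hU i hi j hj]
      rw [hsum]
      by_cases ha : a % 2 = 0
      · simp only [ha, if_true]
        have ih' := ih (-(α + 1) / 2) (by linarith) (by linarith)
        rw [sum_comm]
        have e4 : ∀ x y : ℕ, |α + (1 - 2 * U L N x y)| = 2 * |-(α + 1) / 2 + U L N x y| := by
          intro x y
          have : α + (1 - 2 * U L N x y) = -(2 * (-(α + 1) / 2 + U L N x y)) := by ring
          rw [this, abs_neg, abs_mul, abs_of_pos (by norm_num : (0 : ℝ) < 2)]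
        simp only [e4]
        simp only [← mul_sum]
        linarith
      · simp only [ha, if_false]
        have e5 : (1 : ℝ) ≤ |α + -1| := by
          rw [abs_of_neg (by linarith)]
          linarith
        calc (L : ℝ) ^ (2 * N) = ∑ _i ∈ range (L ^ N), ∑ _j ∈ range (L ^ N), (1 : ℝ) := by
              simp only [sum_const, card_range, nsmul_eq_mul, mul_one]
              push_cast
              ring
          _ ≤ _ := sum_le_sum fun _ _ => sum_le_sum fun _ _ => e5
    calc (((N + 1 : ℕ) : ℝ) / 2) * (L : ℝ) ^ (2 * (N + 1))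
        = ∑ a ∈ range L, ∑ _b ∈ range L,
          (if a % 2 = 0 then (N : ℝ) * (L : ℝ) ^ (2 * N) else (L : ℝ) ^ (2 * N)) := by
          simp only [sum_const, card_range, nsmul_eq_mul]
          rw [← mul_sum]
          have := D1b.sum_par ((N : ℝ) * (L : ℝ) ^ (2 * N)) ((L : ℝ) ^ (2 * N)) c
          rw [← hc] at this
          rw [this, show 2 * (N + 1) = 2 * N + 2 by ring, pow_add]
          have hc' : (c : ℝ) = L / 2 := by rw [hLc]; ring
          rw [hc']
          push_cast
          ring
      _ ≤ _ := sum_le_sum fun a ha => sum_le_sum fun b hb => key a ha b hb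

end Pool.Agent.R363.LF
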