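import Pool.Agent.R363.LF.Stm

/-! # Piece D1, third copy (helper165) -/

namespace Pool.Agent.R363.LF

open Finset

namespace D1c

theorem half (c d : ℝ) (k : ℕ) :
    ∑ a ∈ range (2 * k), (if a % 2 = 0 then c else d) = k * (c + d) := by
  induction k with
  | zero => simp
  | succ k ih =>
    rw [show 2 * (k + 1) = 2 * k + 1 + 1 by ring, sum_range_succ, sum_range_succ, ih,
      if_pos (by omega), if_neg (by omega)]
    push_cast
    ring

end D1c

theorem t_D1 (h0 : S_D0) : S_D1 := by
  intro L N hL hL2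
  induction N with
  | zero =>
    intro α _ _
    simp
  | succ N ih =>
    intro α hα1 hα2
    have hA : 0 < L ^ N := pow_pos (by omega) N
    obtain ⟨k, hk⟩ : ∃ k, L = 2 * k := ⟨L / 2, by omega⟩
    rw [pow_succ' L N, h0]
    have h1 : ∀ a b : ℕ, (if a % 2 = 0 then (N : ℝ) * (L : ℝ) ^ (2 * N) else (L : ℝ) ^ (2 * N)) ≤
        ∑ i ∈ range (L ^ N), ∑ j ∈ range (L ^ N),
          |α + U L (N + 1) (a * L ^ N + i) (b * L ^ N + j)| := by
      intro a b
      have h2 : ∀ i ∈ range (L ^ N), ∀ j ∈ range (L ^ N),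
          (if a % 2 = 0 then 2 * |-(α + 1) / 2 + U L N j i| else 1) ≤
            |α + U L (N + 1) (a * L ^ N + i) (b * L ^ N + j)| := by
        intro i hi j hj
        have hi' := mem_range.1 hi
        have hj' := mem_range.1 hj
        have e1 : (a * L ^ N + i) / L ^ N = a := by
          rw [mul_comm, Nat.mul_add_div hA, Nat.div_eq_of_lt hi', add_zero]
        have e2 : (a * L ^ N + i) % L ^ N = i := by
          rw [mul_comm, Nat.mul_add_mod, Nat.mod_eq_of_lt hi']
        have e3 : (b * L ^ N + j) % L ^ N = j := by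
          rw [mul_comm, Nat.mul_add_mod, Nat.mod_eq_of_lt hj']
        rw [U, e1, e2, e3]
        split_ifs
        · have e4 : α + (1 - 2 * U L N j i) = -(2 * (-(α + 1) / 2 + U L N j i)) := by ring
          rw [e4, abs_neg, abs_mul, abs_of_pos (by norm_num : (0 : ℝ) < 2)]
        · rw [abs_of_nonpos (by linarith)]
          linarith
      refine le_trans ?_ (sum_le_sum fun i hi => sum_le_sum fun j hj => h2 i hi j hj)
      by_cases ha : a % 2 = 0
      · simp only [if_pos ha]
        rw [sum_comm]
        simp only [← mul_sum]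
        have h3 := ih (-(α + 1) / 2) (by linarith) (by linarith)
        linarith
      · simp only [if_neg ha]
        simp only [sum_const, card_range, nsmul_eq_mul, mul_one]
        push_cast
        have : (L : ℝ) ^ (2 * N) = (L : ℝ) ^ N * (L : ℝ) ^ N := by rw [← pow_add]; ring
        linarith
    refine le_trans ?_ (sum_le_sum fun a _ => sum_le_sum fun b _ => h1 a b)
    rw [sum_comm, sum_const, card_range]
    have h3 : ∑ a ∈ range L, (if a % 2 = 0 then (N : ℝ) * (L : ℝ) ^ (2 * N) else (L : ℝ) ^ (2 * N))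
        = k * ((N : ℝ) * (L : ℝ) ^ (2 * N) + (L : ℝ) ^ (2 * N)) := by
      have h4 := D1c.half ((N : ℝ) * (L : ℝ) ^ (2 * N)) ((L : ℝ) ^ (2 * N)) k
      rw [← hk] at h4
      exact h4
    rw [h3, nsmul_eq_mul]
    have hkL : (L : ℝ) = 2 * k := by
      rw [hk]
      push_cast
      ring
    rw [show 2 * (N + 1) = 2 * N + 2 by ring, pow_add]
    have : (L : ℝ) ^ 2 = L * (2 * k) := by rw [← hkL]; ring
    rw [this]
    push_cast
    apply le_of_eq
    ring

end Pool.Agent.R363.LF
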