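import Pool.Agent.R363.LF.Stm

set_option linter.all false

namespace Pool.Agent.R363.LF

open MeasureTheory Finset

namespace D2

/-- the sum -/
noncomputable def Phi (L N : ℕ) (p q : ℕ → ℕ → ℝ) : ℝ :=
  ∑ i ∈ range (L ^ N), ∑ j ∈ range (L ^ N),
    (U L N i j * ((p (i + 1) j - p i j) + (q i (j + 1) - q i j))
      - V L N i j * ((p (i + 1) j - p i j) - (q i (j + 1) - q i j)))

theorem sum_pairs (g : ℕ → ℝ) (M : ℕ) :
    ∑ a ∈ range (2 * M), g a = ∑ c ∈ range M, (g (2 * c) + g (2 * c + 1)) := by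
  induction M with
  | zero => simp
  | succ M ih =>
    rw [show 2 * (M + 1) = 2 * M + 1 + 1 by ring, sum_range_succ, sum_range_succ,
      sum_range_succ (n := M), ih]
    ring

theorem tele (g : ℕ → ℝ) (A L : ℕ) :
    ∑ b ∈ range L, ∑ j ∈ range A, (g (b * A + j + 1) - g (b * A + j)) = g (L * A) - g 0 := by
  have h : ∀ b, ∑ j ∈ range A, (g (b * A + j + 1) - g (b * A + j)) =
      g ((b + 1) * A) - g (b * A) := fun b => by
    have h1 := Finset.sum_range_sub (fun j => g (b * A + j)) A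
    have h2 : (b + 1) * A = b * A + A := by ring
    rw [h2]
    exact h1
  rw [Finset.sum_congr rfl (fun b _ => h b), Finset.sum_range_sub (fun b => g (b * A))]
  simp

theorem lipA {C : ℝ} {q : ℕ → ℕ → ℝ} (h : Lip C q) (i j A : ℕ) :
    |q (i + A) j - q i j| ≤ C * A := by
  induction A with
  | zero => simp
  | succ A ih =>
    have h1 := (h (i + A) j).1
    have h2 : q (i + (A + 1)) j - q i j = (q (i + A + 1) j - q (i + A) j) + (q (i + A) j - q i j) := by
      rw [← add_assoc]
      ring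
    rw [h2]
    refine (abs_add_le _ _).trans ?_
    push_cast
    linarith

theorem block (L N : ℕ) (hL : 0 < L) (p q : ℕ → ℕ → ℝ) (a b : ℕ) :
    ∑ i ∈ range (L ^ N), ∑ j ∈ range (L ^ N),
      (U L (N + 1) (a * L ^ N + i) (b * L ^ N + j) *
        ((p (a * L ^ N + i + 1) (b * L ^ N + j) - p (a * L ^ N + i) (b * L ^ N + j)) +
          (q (a * L ^ N + i) (b * L ^ N + j + 1) - q (a * L ^ N + i) (b * L ^ N + j)))
      - V L (N + 1) (a * L ^ N + i) (b * L ^ N + j) *
        ((p (a * L ^ N + i + 1) (b * L ^ N + j) - p (a * L ^ N + i) (b * L ^ N + j)) -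
          (q (a * L ^ N + i) (b * L ^ N + j + 1) - q (a * L ^ N + i) (b * L ^ N + j))))
    = if a % 2 = 0 then
        2 * (∑ i ∈ range (L ^ N), ∑ j ∈ range (L ^ N),
          (q (a * L ^ N + i) (b * L ^ N + j + 1) - q (a * L ^ N + i) (b * L ^ N + j)))
        - 2 * Phi L N (fun j i => q (a * L ^ N + i) (b * L ^ N + j))
          (fun j i => p (a * L ^ N + i) (b * L ^ N + j))
      else -(2 * (∑ i ∈ range (L ^ N), ∑ j ∈ range (L ^ N),
          (q (a * L ^ N + i) (b * L ^ N + j + 1) - q (a * L ^ N + i) (b * L ^ N + j)))) := by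
  have hA : 0 < L ^ N := pow_pos hL N
  have hdiv : ∀ i < L ^ N, (a * L ^ N + i) / L ^ N = a := fun i hi => by
    rw [mul_comm, Nat.mul_add_div hA, Nat.div_eq_of_lt hi, add_zero]
  have hmod : ∀ c i, i < L ^ N → (c * L ^ N + i) % L ^ N = i := fun c i hi => by
    rw [mul_comm, Nat.mul_add_mod, Nat.mod_eq_of_lt hi]
  by_cases ha : a % 2 = 0
  · rw [if_pos ha]
    have e : Phi L N (fun j i => q (a * L ^ N + i) (b * L ^ N + j))
          (fun j i => p (a * L ^ N + i) (b * L ^ N + j)) =
        ∑ i ∈ range (L ^ N), ∑ j ∈ range (L ^ N),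
          (U L N j i * ((q (a * L ^ N + i) (b * L ^ N + j + 1) - q (a * L ^ N + i) (b * L ^ N + j)) +
            (p (a * L ^ N + i + 1) (b * L ^ N + j) - p (a * L ^ N + i) (b * L ^ N + j)))
          - V L N j i * ((q (a * L ^ N + i) (b * L ^ N + j + 1) - q (a * L ^ N + i) (b * L ^ N + j)) -
            (p (a * L ^ N + i + 1) (b * L ^ N + j) - p (a * L ^ N + i) (b * L ^ N + j)))) := by
      unfold Phi
      rw [Finset.sum_comm]
      rfl
    rw [e, Finset.mul_sum, Finset.mul_sum, ← Finset.sum_sub_distrib]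
    refine Finset.sum_congr rfl fun i hi => ?_
    rw [Finset.mul_sum, Finset.mul_sum, ← Finset.sum_sub_distrib]
    refine Finset.sum_congr rfl fun j hj => ?_
    have hi := Finset.mem_range.1 hi
    have hj := Finset.mem_range.1 hj
    have hU : U L (N + 1) (a * L ^ N + i) (b * L ^ N + j) = 1 - 2 * U L N j i := by
      simp only [U]
      rw [hdiv i hi, if_pos ha, hmod b j hj, hmod a i hi]
    have hV : V L (N + 1) (a * L ^ N + i) (b * L ^ N + j) = 1 + 2 * V L N j i := by
      simp only [V]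
      rw [hdiv i hi, if_pos ha, hmod b j hj, hmod a i hi]
    rw [hU, hV]
    ring
  · rw [if_neg ha, Finset.mul_sum, ← Finset.sum_neg_distrib]
    refine Finset.sum_congr rfl fun i hi => ?_
    rw [Finset.mul_sum, ← Finset.sum_neg_distrib]
    refine Finset.sum_congr rfl fun j hj => ?_
    have hi := Finset.mem_range.1 hi
    have hU : U L (N + 1) (a * L ^ N + i) (b * L ^ N + j) = -1 := by
      simp only [U]
      rw [hdiv i hi, if_neg ha]
    have hV : V L (N + 1) (a * L ^ N + i) (b * L ^ N + j) = -1 := by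
      simp only [V]
      rw [hdiv i hi, if_neg ha]
    rw [hU, hV]
    ring

/-- the sum over a row of blocks -/
noncomputable def row (L N : ℕ) (q : ℕ → ℕ → ℝ) (a : ℕ) : ℝ :=
  ∑ i ∈ range (L ^ N), (q (a * L ^ N + i) (L * L ^ N) - q (a * L ^ N + i) 0)

theorem row_eq (L N : ℕ) (q : ℕ → ℕ → ℝ) (a : ℕ) :
    ∑ b ∈ range L, ∑ i ∈ range (L ^ N), ∑ j ∈ range (L ^ N),
      (q (a * L ^ N + i) (b * L ^ N + j + 1) - q (a * L ^ N + i) (b * L ^ N + j)) =
    row L N q a := by
  rw [Finset.sum_comm]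
  exact Finset.sum_congr rfl fun i _ => tele (fun x => q (a * L ^ N + i) x) _ _

theorem row_le {C : ℝ} {q : ℕ → ℕ → ℝ} (h : Lip C q) (L N c : ℕ) :
    |row L N q (2 * c) - row L N q (2 * c + 1)| ≤ 2 * C * ((L : ℝ) ^ N) ^ 2 := by
  unfold row
  rw [← Finset.sum_sub_distrib]
  refine (Finset.abs_sum_le_sum_abs _ _).trans ?_
  refine (Finset.sum_le_card_nsmul _ _ (2 * C * (L : ℝ) ^ N) fun i _ => ?_).trans (le_of_eq ?_)
  · have e : (2 * c + 1) * L ^ N + i = 2 * c * L ^ N + i + L ^ N := by ring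
    rw [e]
    have h1 := lipA h (2 * c * L ^ N + i) (L * L ^ N) (L ^ N)
    have h2 := lipA h (2 * c * L ^ N + i) 0 (L ^ N)
    push_cast at h1 h2
    rw [abs_le] at h1 h2 ⊢
    constructor <;> linarith [h1.1, h1.2, h2.1, h2.2]
  · rw [Finset.card_range, nsmul_eq_mul]
    push_cast
    ring

theorem arith (X Y L C A N : ℝ) (f6 : X * L ≤ 2 * C * A ^ 2 * L)
    (f3 : Y * L ≤ L * (2 * C * N * A ^ 2)) :
    (2 * X + 2 * Y) * L ≤ 4 * C * A ^ 2 * L * (1 + N) := by
  have e : (2 * X + 2 * Y) * L = 2 * (X * L) + 2 * (Y * L) := by ring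
  have e' : 4 * C * A ^ 2 * L * (1 + N) =
    2 * (2 * C * A ^ 2 * L) + 2 * (L * (2 * C * N * A ^ 2)) := by ring
  rw [e, e']
  linarith

theorem lip_sw {C : ℝ} {q : ℕ → ℕ → ℝ} (h : Lip C q) (u v : ℕ) :
    Lip C (fun j i => q (u + i) (v + j)) := fun j i =>
  ⟨(h (u + i) (v + j)).2, (h (u + i) (v + j)).1⟩

end D2

open D2

theorem t_D2 (h0 : S_D0) : S_D2 := by
  intro L N hL hL2
  obtain ⟨M, hM⟩ : ∃ M, L = 2 * M := ⟨L / 2, by omega⟩
  have hLpos : 0 < L := by omega
  induction N with
  | zero =>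
    intro C p q hC hp hq
    simp [U, V]
  | succ N ih =>
    intro C p q hC hp hq
    have ih' : ∀ p q, Lip C p → Lip C q →
        |Phi L N p q| * (L : ℝ) ≤ 2 * C * (N : ℝ) * (L : ℝ) ^ (2 * N) := fun p q hp hq =>
      ih C p q hC hp hq
    clear ih
    have hdec : ∑ i ∈ range (L ^ (N + 1)), ∑ j ∈ range (L ^ (N + 1)),
        (U L (N + 1) i j * ((p (i + 1) j - p i j) + (q i (j + 1) - q i j))
          - V L (N + 1) i j * ((p (i + 1) j - p i j) - (q i (j + 1) - q i j))) =
        ∑ c ∈ range M, (2 * (row L N q (2 * c) - row L N q (2 * c + 1))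
          - 2 * ∑ b ∈ range L, Phi L N (fun j i => q (2 * c * L ^ N + i) (b * L ^ N + j))
            (fun j i => p (2 * c * L ^ N + i) (b * L ^ N + j))) := by
      rw [pow_succ', h0]
      have e1 : ∀ a, ∑ b ∈ range L, ∑ i ∈ range (L ^ N), ∑ j ∈ range (L ^ N),
          (U L (N + 1) (a * L ^ N + i) (b * L ^ N + j) *
            ((p (a * L ^ N + i + 1) (b * L ^ N + j) - p (a * L ^ N + i) (b * L ^ N + j)) +
              (q (a * L ^ N + i) (b * L ^ N + j + 1) - q (a * L ^ N + i) (b * L ^ N + j)))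
          - V L (N + 1) (a * L ^ N + i) (b * L ^ N + j) *
            ((p (a * L ^ N + i + 1) (b * L ^ N + j) - p (a * L ^ N + i) (b * L ^ N + j)) -
              (q (a * L ^ N + i) (b * L ^ N + j + 1) - q (a * L ^ N + i) (b * L ^ N + j)))) =
          if a % 2 = 0 then 2 * row L N q a - 2 * ∑ b ∈ range L,
            Phi L N (fun j i => q (a * L ^ N + i) (b * L ^ N + j))
              (fun j i => p (a * L ^ N + i) (b * L ^ N + j))
          else -(2 * row L N q a) := by
        intro a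
        rw [Finset.sum_congr rfl fun b _ => block L N hLpos p q a b]
        by_cases ha : a % 2 = 0
        · simp only [if_pos ha]
          rw [Finset.sum_sub_distrib, ← Finset.mul_sum, ← Finset.mul_sum, row_eq]
        · simp only [if_neg ha]
          rw [Finset.sum_neg_distrib, ← Finset.mul_sum, row_eq]
      rw [Finset.sum_congr rfl fun a _ => e1 a]
      have e3 := sum_pairs (fun a => if a % 2 = 0 then 2 * row L N q a - 2 * ∑ b ∈ range L,
            Phi L N (fun j i => q (a * L ^ N + i) (b * L ^ N + j))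
              (fun j i => p (a * L ^ N + i) (b * L ^ N + j))
          else -(2 * row L N q a)) M
      rw [← hM] at e3
      refine e3.trans ?_
      refine Finset.sum_congr rfl fun c _ => ?_
      rw [if_pos (by omega), if_neg (by omega)]
      ring
    rw [hdec]
    have hterm : ∀ c ∈ range M, |2 * (row L N q (2 * c) - row L N q (2 * c + 1))
          - 2 * ∑ b ∈ range L, Phi L N (fun j i => q (2 * c * L ^ N + i) (b * L ^ N + j))
            (fun j i => p (2 * c * L ^ N + i) (b * L ^ N + j))| * (L : ℝ) ≤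
        4 * C * ((L : ℝ) ^ N) ^ 2 * L * (1 + N) := by
      intro c _
      have f1 := row_le hq L N c
      have f2 : ∀ b ∈ range L, |Phi L N (fun j i => q (2 * c * L ^ N + i) (b * L ^ N + j))
            (fun j i => p (2 * c * L ^ N + i) (b * L ^ N + j))| * (L : ℝ) ≤
          2 * C * (N : ℝ) * (L : ℝ) ^ (2 * N) := by
        intro b _
        exact ih' _ _ (lip_sw hq _ _) (lip_sw hp _ _)
      have f3 : |∑ b ∈ range L, Phi L N (fun j i => q (2 * c * L ^ N + i) (b * L ^ N + j))
            (fun j i => p (2 * c * L ^ N + i) (b * L ^ N + j))| * (L : ℝ) ≤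
          L * (2 * C * (N : ℝ) * (L : ℝ) ^ (2 * N)) := by
        refine (mul_le_mul_of_nonneg_right (Finset.abs_sum_le_sum_abs _ _)
          (Nat.cast_nonneg L)).trans ?_
        rw [Finset.sum_mul]
        refine (Finset.sum_le_card_nsmul _ _ _ f2).trans (le_of_eq ?_)
        rw [Finset.card_range, nsmul_eq_mul]
      have f4 : |2 * (row L N q (2 * c) - row L N q (2 * c + 1))
          - 2 * ∑ b ∈ range L, Phi L N (fun j i => q (2 * c * L ^ N + i) (b * L ^ N + j))
            (fun j i => p (2 * c * L ^ N + i) (b * L ^ N + j))| ≤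
          2 * |row L N q (2 * c) - row L N q (2 * c + 1)| + 2 * |∑ b ∈ range L,
            Phi L N (fun j i => q (2 * c * L ^ N + i) (b * L ^ N + j))
            (fun j i => p (2 * c * L ^ N + i) (b * L ^ N + j))| := by
        refine (abs_sub _ _).trans (le_of_eq ?_)
        rw [abs_mul, abs_mul, abs_of_pos (by norm_num : (0 : ℝ) < 2)]
      have hL0 : (0 : ℝ) ≤ L := Nat.cast_nonneg L
      have f5 := mul_le_mul_of_nonneg_right f4 hL0
      have f6 := mul_le_mul_of_nonneg_right f1 hL0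
      have f7 : (L : ℝ) ^ (2 * N) = ((L : ℝ) ^ N) ^ 2 := by rw [mul_comm, pow_mul]
      rw [f7] at f3
      exact f5.trans (arith _ _ _ _ _ _ f6 f3)
    have hL0 : (0 : ℝ) ≤ L := Nat.cast_nonneg L
    refine (mul_le_mul_of_nonneg_right (Finset.abs_sum_le_sum_abs _ _) hL0).trans ?_
    rw [Finset.sum_mul]
    refine (Finset.sum_le_card_nsmul _ _ _ hterm).trans (le_of_eq ?_)
    rw [Finset.card_range, nsmul_eq_mul]
    have hLM : (L : ℝ) = 2 * M := by exact_mod_cast hM
    have hMr : (M : ℝ) = L / 2 := by linarith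
    rw [hMr]
    push_cast
    rw [show 2 * (N + 1) = 2 * N + 2 by ring, pow_add, mul_comm 2 N, pow_mul]
    ring

end Pool.Agent.R363.LF
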