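import Pool.Agent.R363.LF.Stm

/-! Piece D2: the main identity. -/

set_option autoImplicit false

namespace Pool.Agent.R363.LF

open Finset

theorem D2c_pair (F : ℕ → ℝ) (M : ℕ) :
    ∑ a ∈ range (2 * M), F a = ∑ a ∈ range M, (F (2 * a) + F (2 * a + 1)) := by
  induction M with
  | zero => simp
  | succ M ih =>
    rw [show 2 * (M + 1) = 2 * M + 1 + 1 by ring, sum_range_succ, sum_range_succ, ih,
      sum_range_succ]
    ring

theorem D2c_lip {κ : ℝ} {g : ℕ → ℕ → ℝ} (hg : Lip κ g) (i j n : ℕ) :
    |g (i + n) j - g i j| ≤ n * κ := by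
  induction n with
  | zero => simp
  | succ n ih =>
    have h1 := (hg (i + n) j).1
    have h2 : g (i + (n + 1)) j - g i j =
        (g (i + n + 1) j - g (i + n) j) + (g (i + n) j - g i j) := by
      rw [← add_assoc]
      ring
    rw [h2]
    refine (abs_add_le _ _).trans ?_
    push_cast
    linarith

theorem D2c_tele (f : ℕ → ℝ) (A B : ℕ) :
    ∑ b ∈ range B, ∑ j ∈ range A, (f (b * A + (j + 1)) - f (b * A + j)) = f (B * A) - f 0 := by
  induction B with
  | zero => simp
  | succ B ih =>
    rw [sum_range_succ, ih]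
    have h : ∑ j ∈ range A, (f (B * A + (j + 1)) - f (B * A + j)) = f (B * A + A) - f (B * A) := by
      have := Finset.sum_range_sub (fun j => f (B * A + j)) A
      simpa using this
    rw [h, show (B + 1) * A = B * A + A by ring]
    ring

theorem t_D2 (h0 : S_D0) : S_D2 := by
  intro L N hL hLe
  induction N with
  | zero =>
    intro C p q hC hp hq
    simp [U, V]
  | succ N ih =>
    intro C p q hC hp hq
    obtain ⟨M, hM⟩ : ∃ M, L = 2 * M := ⟨L / 2, by omega⟩
    have hLpos : 0 < L := by omega
    obtain ⟨A, hA⟩ : ∃ A, A = L ^ N := ⟨_, rfl⟩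
    have hApos : 0 < A := by rw [hA]; positivity
    have hpow : L ^ (N + 1) = L * A := by rw [hA, pow_succ, mul_comm]
    rw [hpow, h0]
    have hUV : ∀ a b i j, i < A → j < A → (U L (N + 1) (a * A + i) (b * A + j) =
        if a % 2 = 0 then 1 - 2 * U L N j i else -1) ∧ (V L (N + 1) (a * A + i) (b * A + j) =
        if a % 2 = 0 then 1 + 2 * V L N j i else -1) := by
      intro a b i j hi hj
      have e1 : (a * A + i) / A = a := by
        rw [mul_comm, Nat.mul_add_div hApos, Nat.div_eq_of_lt hi, add_zero]
      have e2 : (a * A + i) % A = i := by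
        rw [mul_comm, Nat.mul_add_mod, Nat.mod_eq_of_lt hi]
      have e3 : (b * A + j) % A = j := by
        rw [mul_comm, Nat.mul_add_mod, Nat.mod_eq_of_lt hj]
      simp only [U, V]
      rw [← hA, e1, e2, e3]
      exact ⟨rfl, rfl⟩
    obtain ⟨Bk, hBk⟩ : ∃ Bk : ℕ → ℕ → ℝ, Bk = fun a b => ∑ i ∈ range A, ∑ j ∈ range A,
        (U L N j i * ((q (a * A + i) (b * A + (j + 1)) - q (a * A + i) (b * A + j))
            + (p (a * A + (i + 1)) (b * A + j) - p (a * A + i) (b * A + j)))
          - V L N j i * ((q (a * A + i) (b * A + (j + 1)) - q (a * A + i) (b * A + j))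
            - (p (a * A + (i + 1)) (b * A + j) - p (a * A + i) (b * A + j)))) := ⟨_, rfl⟩
    have hblock : ∀ a b : ℕ, |Bk a b| ≤ 2 * C * (N : ℝ) * (L : ℝ) ^ (2 * N) / L := by
      intro a b
      have h1 := ih C (fun j i => q (a * A + i) (b * A + j)) (fun j i => p (a * A + i) (b * A + j))
        hC (by
        intro i j
        refine ⟨?_, ?_⟩
        · have := (hq (a * A + j) (b * A + i)).2
          rwa [add_assoc] at this
        · have := (hq (a * A + j) (b * A + i)).1
          rwa [add_assoc] at this) (by
        intro i j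
        refine ⟨?_, ?_⟩
        · have := (hp (a * A + j) (b * A + i)).2
          rwa [add_assoc] at this
        · have := (hp (a * A + j) (b * A + i)).1
          rwa [add_assoc] at this)
      rw [← hA, Finset.sum_comm] at h1
      have hL0 : (0 : ℝ) < L := by exact_mod_cast hLpos
      rw [le_div_iff₀ hL0, hBk]
      exact h1
    set X : ℝ := 2 * C * (N : ℝ) * (L : ℝ) ^ (2 * N) / L with hX
    set F : ℕ → ℝ := fun a => ∑ b ∈ range L, ∑ i ∈ range A, ∑ j ∈ range A,
      (U L (N + 1) (a * A + i) (b * A + j) *
          ((p (a * A + i + 1) (b * A + j) - p (a * A + i) (b * A + j))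
            + (q (a * A + i) (b * A + j + 1) - q (a * A + i) (b * A + j)))
        - V L (N + 1) (a * A + i) (b * A + j) *
          ((p (a * A + i + 1) (b * A + j) - p (a * A + i) (b * A + j))
            - (q (a * A + i) (b * A + j + 1) - q (a * A + i) (b * A + j)))) with hF
    have hFb : ∀ a, |F (2 * a) + F (2 * a + 1)| ≤ 2 * (A * (2 * (A * C))) + 2 * (L * X) := by
      intro a
      have e : F (2 * a) + F (2 * a + 1) =
          2 * (∑ i ∈ range A, ((q (2 * a * A + i) (L * A) - q ((2 * a + 1) * A + i) (L * A))
            - (q (2 * a * A + i) 0 - q ((2 * a + 1) * A + i) 0)))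
          - 2 * ∑ b ∈ range L, Bk (2 * a) b := by
        have e1 : ∀ i, (q (2 * a * A + i) (L * A) - q ((2 * a + 1) * A + i) (L * A))
            - (q (2 * a * A + i) 0 - q ((2 * a + 1) * A + i) 0) =
            ∑ b ∈ range L, ∑ j ∈ range A,
              ((q (2 * a * A + i) (b * A + (j + 1)) - q (2 * a * A + i) (b * A + j))
                - (q ((2 * a + 1) * A + i) (b * A + (j + 1)) - q ((2 * a + 1) * A + i) (b * A + j))) := by
          intro i
          simp only [sum_sub_distrib]
          have t1 := D2c_tele (fun x => q (2 * a * A + i) x) A L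
          have t2 := D2c_tele (fun x => q ((2 * a + 1) * A + i) x) A L
          simp only [sum_sub_distrib] at t1 t2
          linarith
        rw [sum_congr rfl (fun i _ => e1 i), sum_comm, mul_sum, mul_sum]
        simp only [hF, hBk]
        rw [← sum_add_distrib, ← sum_sub_distrib]
        refine sum_congr rfl fun b _ => ?_
        rw [mul_sum, mul_sum, ← sum_add_distrib, ← sum_sub_distrib]
        refine sum_congr rfl fun i hi => ?_
        rw [mul_sum, mul_sum, ← sum_add_distrib, ← sum_sub_distrib]
        refine sum_congr rfl fun j hj => ?_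
        rw [mem_range] at hi hj
        have u1 := (hUV (2 * a) b i j hi hj).1
        have u2 := (hUV (2 * a + 1) b i j hi hj).1
        have v1 := (hUV (2 * a) b i j hi hj).2
        have v2 := (hUV (2 * a + 1) b i j hi hj).2
        rw [if_pos (by omega)] at u1 v1
        rw [if_neg (by omega)] at u2 v2
        rw [u1, u2, v1, v2]
        simp only [← add_assoc]
        ring
      rw [e]
      refine (abs_sub _ _).trans ?_
      rw [abs_mul, abs_mul, abs_of_pos (by norm_num : (0 : ℝ) < 2)]
      have hA1 : |∑ i ∈ range A, ((q (2 * a * A + i) (L * A) - q ((2 * a + 1) * A + i) (L * A))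
            - (q (2 * a * A + i) 0 - q ((2 * a + 1) * A + i) 0))| ≤ A * (2 * (A * C)) := by
        refine (abs_sum_le_sum_abs _ _).trans ?_
        have h4 : ∀ i ∈ range A,
            |(q (2 * a * A + i) (L * A) - q ((2 * a + 1) * A + i) (L * A))
            - (q (2 * a * A + i) 0 - q ((2 * a + 1) * A + i) 0)| ≤ 2 * (A * C) := by
          intro i _
          have h6 : (2 * a + 1) * A + i = 2 * a * A + i + A := by ring
          rw [h6]
          have h5 := D2c_lip hq (2 * a * A + i) (L * A) A
          have h7 := D2c_lip hq (2 * a * A + i) 0 A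
          rw [abs_sub_comm] at h5 h7
          refine (abs_sub _ _).trans ?_
          linarith
        have := sum_le_card_nsmul _ _ _ h4
        rwa [card_range, nsmul_eq_mul] at this
      have hB1 : |∑ b ∈ range L, Bk (2 * a) b| ≤ L * X := by
        refine (abs_sum_le_sum_abs _ _).trans ?_
        have := sum_le_card_nsmul (range L) (fun b => |Bk (2 * a) b|) X (fun b _ => hblock (2 * a) b)
        rwa [card_range, nsmul_eq_mul] at this
      linarith
    have htot : |∑ a ∈ range L, F a| ≤ M * (2 * (A * (2 * (A * C))) + 2 * (L * X)) := by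
      have h7 : ∑ a ∈ range L, F a = ∑ a ∈ range M, (F (2 * a) + F (2 * a + 1)) := by
        rw [hM]
        exact D2c_pair F M
      rw [h7]
      refine (abs_sum_le_sum_abs _ _).trans ?_
      have := sum_le_card_nsmul _ _ _ (fun a (_ : a ∈ range M) => hFb a)
      rwa [card_range, nsmul_eq_mul] at this
    have hLr : (L : ℝ) = 2 * M := by rw [hM]; push_cast; ring
    have hL0 : (0 : ℝ) < L := by exact_mod_cast hLpos
    have hAr : (A : ℝ) = (L : ℝ) ^ N := by rw [hA]; push_cast; ring
    have hMr : (M : ℝ) = L / 2 := by rw [hLr]; ring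
    calc |∑ a ∈ range L, F a| * (L : ℝ)
        ≤ (M * (2 * (A * (2 * (A * C))) + 2 * (L * X))) * L :=
          mul_le_mul_of_nonneg_right htot hL0.le
      _ = 2 * C * ((N + 1 : ℕ) : ℝ) * (L : ℝ) ^ (2 * (N + 1)) := by
          rw [hMr, hAr, hX, show 2 * (N + 1) = N + N + 2 by ring, show 2 * N = N + N by ring]
          simp only [pow_add]
          push_cast
          field_simp
          ring

end Pool.Agent.R363.LF
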