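import Pool.Agent.R363.LF.Stm

namespace Pool.Agent.R363.LF

open MeasureTheory Finset

theorem d3_ge (L : ℕ) : ∀ N i j : ℕ, -1 ≤ V L N i j := by
  intro N
  induction N with
  | zero => intro i j; simp [V]
  | succ N ih =>
    intro i j
    rw [V]
    split_ifs
    · have := ih (j % L ^ N) (i % L ^ N)
      linarith
    · exact le_refl _

theorem d3_half (c : ℝ) : ∀ M : ℕ,
    ∑ a ∈ range (2 * M), (if a % 2 = 0 then c else 0) = (M : ℝ) * c := by
  intro M
  induction M with
  | zero => simp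
  | succ M ih =>
    have e : 2 * (M + 1) = 2 * M + 1 + 1 := by ring
    have h1 : (2 * M) % 2 = 0 := by omega
    have h2 : ¬ (2 * M + 1) % 2 = 0 := by omega
    rw [e, sum_range_succ, sum_range_succ, ih, if_pos h1, if_neg h2]
    push_cast
    ring

theorem d3_sum (h0 : S_D0) (L : ℕ) (hL : 2 ≤ L) (hL2 : L % 2 = 0) : ∀ N : ℕ,
    ∑ i ∈ range (L ^ N), ∑ j ∈ range (L ^ N), (V L N i j + 1) = (L : ℝ) ^ (2 * N) := by
  intro N
  induction N with
  | zero => simp [V]
  | succ N ih =>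
    have hA : 0 < L ^ N := pow_pos (by omega) N
    have e : L ^ (N + 1) = L * L ^ N := by rw [pow_succ, mul_comm]
    rw [e, h0 (fun i j => V L (N + 1) i j + 1) (L ^ N) L]
    have hterm : ∀ a ∈ range L, ∀ b ∈ range L, ∑ i ∈ range (L ^ N), ∑ j ∈ range (L ^ N),
        (V L (N + 1) (a * L ^ N + i) (b * L ^ N + j) + 1) =
        if a % 2 = 0 then 2 * (L : ℝ) ^ (2 * N) else 0 := by
      intro a _ b _
      have hin : ∀ i ∈ range (L ^ N), ∀ j ∈ range (L ^ N),
          V L (N + 1) (a * L ^ N + i) (b * L ^ N + j) + 1 =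
          if a % 2 = 0 then 2 * (V L N j i + 1) else 0 := by
        intro i hi j hj
        have hi' := mem_range.1 hi
        have hj' := mem_range.1 hj
        have q1 : (a * L ^ N + i) / L ^ N = a := by
          rw [Nat.add_comm, Nat.add_mul_div_right _ _ hA, Nat.div_eq_of_lt hi', Nat.zero_add]
        have q2 : (a * L ^ N + i) % L ^ N = i := by
          rw [Nat.add_comm, Nat.add_mul_mod_self_right, Nat.mod_eq_of_lt hi']
        have q3 : (b * L ^ N + j) % L ^ N = j := by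
          rw [Nat.add_comm, Nat.add_mul_mod_self_right, Nat.mod_eq_of_lt hj']
        rw [V, q1, q2, q3]
        split_ifs
        · ring
        · ring
      rw [sum_congr rfl fun i hi => sum_congr rfl fun j hj => hin i hi j hj]
      split_ifs
      · rw [sum_comm]
        simp_rw [← mul_sum]
        rw [ih]
      · simp
    rw [sum_congr rfl fun a ha => sum_congr rfl fun b hb => hterm a ha b hb]
    obtain ⟨M, hM⟩ : ∃ M, L = 2 * M := ⟨L / 2, by omega⟩
    have h2 : ∀ a : ℕ, ∑ _b ∈ range L, (if a % 2 = 0 then 2 * (L : ℝ) ^ (2 * N) else 0) =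
        if a % 2 = 0 then (L : ℝ) * (2 * (L : ℝ) ^ (2 * N)) else 0 := by
      intro a
      rw [sum_const, card_range, nsmul_eq_mul]
      split_ifs
      · rfl
      · simp
    simp_rw [h2]
    have h3 := d3_half ((L : ℝ) * (2 * (L : ℝ) ^ (2 * N))) M
    have h4 : ∑ a ∈ range L, (if a % 2 = 0 then (L : ℝ) * (2 * (L : ℝ) ^ (2 * N)) else 0) =
        (M : ℝ) * ((L : ℝ) * (2 * (L : ℝ) ^ (2 * N))) := by
      rw [← h3, ← hM]
    rw [h4]
    have hLM : (L : ℝ) = 2 * M := by exact_mod_cast hM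
    have h5 : (L : ℝ) ^ (2 * (N + 1)) = (L : ℝ) * ((L : ℝ) * (L : ℝ) ^ (2 * N)) := by ring
    rw [h5]
    calc (M : ℝ) * ((L : ℝ) * (2 * (L : ℝ) ^ (2 * N)))
        = (2 * (M : ℝ)) * ((L : ℝ) * (L : ℝ) ^ (2 * N)) := by ring
      _ = (L : ℝ) * ((L : ℝ) * (L : ℝ) ^ (2 * N)) := by rw [← hLM]

theorem t_D3 (h0 : S_D0) : S_D3 := by
  intro L N hL hL2
  have h1 := d3_sum h0 L hL hL2 N
  have h2 : ∀ i j, |V L N i j| ≤ (V L N i j + 1) + 1 := by
    intro i j
    have := d3_ge L N i j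
    rw [abs_le]
    constructor <;> linarith
  calc ∑ i ∈ range (L ^ N), ∑ j ∈ range (L ^ N), |V L N i j|
      ≤ ∑ i ∈ range (L ^ N), ∑ j ∈ range (L ^ N), ((V L N i j + 1) + 1) :=
        sum_le_sum fun i _ => sum_le_sum fun j _ => h2 i j
    _ = ∑ i ∈ range (L ^ N), ∑ j ∈ range (L ^ N), (V L N i j + 1) +
        ∑ i ∈ range (L ^ N), ∑ j ∈ range (L ^ N), (1 : ℝ) := by
        simp_rw [sum_add_distrib]
    _ = 2 * (L : ℝ) ^ (2 * N) := by
        rw [h1]
        simp only [sum_const, card_range, nsmul_eq_mul, mul_one]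
        push_cast
        ring

end Pool.Agent.R363.LF
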