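import Pool.Agent.R363.LF.Stm

/-! # Piece D3, second copy (helper165) -/

namespace Pool.Agent.R363.LF

open Finset

namespace D3b

theorem V_nonneg (L N : ℕ) : ∀ i j, 0 ≤ V L N i j + 1 := by
  induction N with
  | zero =>
    intro i j
    simp [V]
  | succ N ih =>
    intro i j
    rw [V]
    split_ifs
    · have := ih (j % L ^ N) (i % L ^ N)
      linarith
    · norm_num

theorem half (c : ℝ) (k : ℕ) :
    ∑ a ∈ range (2 * k), (if a % 2 = 0 then c else 0) = k * c := by
  induction k with
  | zero => simp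
  | succ k ih =>
    rw [show 2 * (k + 1) = 2 * k + 1 + 1 by ring, sum_range_succ, sum_range_succ, ih,
      if_pos (by omega), if_neg (by omega)]
    push_cast
    ring

theorem V_sum (h0 : S_D0) (L : ℕ) (hL : 2 ≤ L) (hL2 : L % 2 = 0) (N : ℕ) :
    ∑ i ∈ range (L ^ N), ∑ j ∈ range (L ^ N), (V L N i j + 1) = (L : ℝ) ^ (2 * N) := by
  induction N with
  | zero => simp [V]
  | succ N ih =>
    have hA : 0 < L ^ N := pow_pos (by omega) N
    obtain ⟨k, hk⟩ : ∃ k, L = 2 * k := ⟨L / 2, by omega⟩
    rw [pow_succ' L N, h0]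
    have h1 : ∀ a b : ℕ, ∑ i ∈ range (L ^ N), ∑ j ∈ range (L ^ N),
        (V L (N + 1) (a * L ^ N + i) (b * L ^ N + j) + 1) =
        if a % 2 = 0 then 2 * (L : ℝ) ^ (2 * N) else 0 := by
      intro a b
      have h2 : ∀ i ∈ range (L ^ N), ∀ j ∈ range (L ^ N),
          V L (N + 1) (a * L ^ N + i) (b * L ^ N + j) + 1 =
          if a % 2 = 0 then 2 * (V L N j i + 1) else 0 := by
        intro i hi j hj
        have hi' := mem_range.1 hi
        have hj' := mem_range.1 hj
        have e1 : (a * L ^ N + i) / L ^ N = a := by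
          rw [mul_comm, Nat.mul_add_div hA, Nat.div_eq_of_lt hi', add_zero]
        have e2 : (a * L ^ N + i) % L ^ N = i := by
          rw [mul_comm, Nat.mul_add_mod, Nat.mod_eq_of_lt hi']
        have e3 : (b * L ^ N + j) % L ^ N = j := by
          rw [mul_comm, Nat.mul_add_mod, Nat.mod_eq_of_lt hj']
        rw [V, e1, e2, e3]
        split_ifs <;> ring
      rw [sum_congr rfl fun i hi => sum_congr rfl fun j hj => h2 i hi j hj]
      by_cases ha : a % 2 = 0
      · simp only [if_pos ha]
        rw [sum_comm]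
        simp only [← mul_sum]
        rw [ih]
      · simp only [if_neg ha]
        simp
    rw [sum_congr rfl fun a _ => sum_congr rfl fun b _ => h1 a b]
    rw [sum_comm, sum_const, card_range]
    have h3 : ∑ a ∈ range L, (if a % 2 = 0 then 2 * (L : ℝ) ^ (2 * N) else 0) =
        k * (2 * (L : ℝ) ^ (2 * N)) := by
      have h4 := half (2 * (L : ℝ) ^ (2 * N)) k
      rw [← hk] at h4
      exact h4
    rw [h3, nsmul_eq_mul]
    have hkL : (L : ℝ) = 2 * k := by
      rw [hk]
      push_cast
      ring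
    rw [show 2 * (N + 1) = 2 * N + 2 by ring, pow_add]
    have : (L : ℝ) ^ 2 = L * (2 * k) := by rw [← hkL]; ring
    rw [this]
    ring

end D3b

theorem t_D3 (h0 : S_D0) : S_D3 := by
  intro L N hL hL2
  have h1 := D3b.V_sum h0 L hL hL2 N
  have h2 : ∑ i ∈ range (L ^ N), ∑ j ∈ range (L ^ N), |V L N i j| ≤
      ∑ i ∈ range (L ^ N), ∑ j ∈ range (L ^ N), ((V L N i j + 1) + 1) := by
    refine sum_le_sum fun i _ => sum_le_sum fun j _ => ?_
    have h3 := D3b.V_nonneg L N i j
    rw [abs_le]
    constructor <;> linarith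
  refine h2.trans ?_
  simp only [sum_add_distrib] at h1 ⊢
  rw [h1]
  simp only [sum_const, card_range, nsmul_eq_mul, mul_one]
  push_cast
  have : (L : ℝ) ^ (2 * N) = (L : ℝ) ^ N * (L : ℝ) ^ N := by rw [← pow_add]; ring
  linarith

end Pool.Agent.R363.LF
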