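import Pool.Agent.R363.LF.Stm

/-! Piece D4: the oscillation estimate. -/

set_option autoImplicit false

namespace Pool.Agent.R363.LF

open Finset

theorem D4_pair (F : ℕ → ℝ) (M : ℕ) :
    ∑ a ∈ range (2 * M), F a = ∑ a ∈ range M, (F (2 * a) + F (2 * a + 1)) := by
  induction M with
  | zero => simp
  | succ M ih =>
    rw [show 2 * (M + 1) = 2 * M + 1 + 1 by ring, sum_range_succ, sum_range_succ, ih,
      sum_range_succ]
    ring

theorem D4_lip {κ : ℝ} {g : ℕ → ℕ → ℝ} (hg : Lip κ g) (i j n : ℕ) :
    |g (i + n) j - g i j| ≤ n * κ := by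
  induction n with
  | zero => simp
  | succ n ih =>
    have h1 := (hg (i + n) j).1
    have h2 : g (i + (n + 1)) j - g i j =
        (g (i + n + 1) j - g (i + n) j) + (g (i + n) j - g i j) := by
      rw [← add_assoc]
      ring
    rw [h2]
    refine (abs_add_le _ _).trans ?_
    push_cast
    linarith

theorem t_D4 (h0 : S_D0) : S_D4 := by
  intro L N hL hLe
  induction N with
  | zero =>
    intro κ g hκ hg
    simp [U]
  | succ N ih =>
    intro κ g hκ hg
    obtain ⟨M, hM⟩ : ∃ M, L = 2 * M := ⟨L / 2, by omega⟩
    have hLpos : 0 < L := by omega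
    obtain ⟨A, hA⟩ : ∃ A, A = L ^ N := ⟨_, rfl⟩
    have hApos : 0 < A := by rw [hA]; positivity
    have hpow : L ^ (N + 1) = L * A := by rw [hA, pow_succ, mul_comm]
    rw [hpow, h0]
    have hU : ∀ a b i j, i < A → j < A → U L (N + 1) (a * A + i) (b * A + j) =
        if a % 2 = 0 then 1 - 2 * U L N j i else -1 := by
      intro a b i j hi hj
      have e1 : (a * A + i) / A = a := by
        rw [mul_comm, Nat.mul_add_div hApos, Nat.div_eq_of_lt hi, add_zero]
      have e2 : (a * A + i) % A = i := by
        rw [mul_comm, Nat.mul_add_mod, Nat.mod_eq_of_lt hi]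
      have e3 : (b * A + j) % A = j := by
        rw [mul_comm, Nat.mul_add_mod, Nat.mod_eq_of_lt hj]
      simp only [U]
      rw [← hA, e1, e2, e3]
    have hblock : ∀ a b : ℕ, |∑ i ∈ range A, ∑ j ∈ range A,
        U L N j i * g (a * A + i) (b * A + j)| ≤ (N : ℝ) * κ * (L : ℝ) ^ (3 * N) / (2 * L) := by
      intro a b
      have h1 := ih κ (fun j i => g (a * A + i) (b * A + j)) hκ (by
        intro i j
        refine ⟨?_, ?_⟩
        · have := (hg (a * A + j) (b * A + i)).2
          rwa [add_assoc] at this
        · have := (hg (a * A + j) (b * A + i)).1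
          rwa [add_assoc] at this)
      rw [← hA, Finset.sum_comm] at h1
      have hL0 : (0 : ℝ) < 2 * L := by positivity
      rw [le_div_iff₀ hL0]
      exact h1
    set X : ℝ := (N : ℝ) * κ * (L : ℝ) ^ (3 * N) / (2 * L) with hX
    set F : ℕ → ℝ := fun a => ∑ b ∈ range L, ∑ i ∈ range A, ∑ j ∈ range A,
      U L (N + 1) (a * A + i) (b * A + j) * g (a * A + i) (b * A + j) with hF
    have hFb : ∀ a, |F (2 * a) + F (2 * a + 1)| ≤ L * (A * (A * (A * κ)) + 2 * X) := by
      intro a
      have e : F (2 * a) + F (2 * a + 1) = ∑ b ∈ range L,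
          ((∑ i ∈ range A, ∑ j ∈ range A,
            (g (2 * a * A + i) (b * A + j) - g ((2 * a + 1) * A + i) (b * A + j))) -
          2 * ∑ i ∈ range A, ∑ j ∈ range A, U L N j i * g (2 * a * A + i) (b * A + j)) := by
        simp only [hF]
        rw [← sum_add_distrib]
        refine sum_congr rfl fun b _ => ?_
        rw [mul_sum, ← sum_add_distrib, ← sum_sub_distrib]
        refine sum_congr rfl fun i hi => ?_
        rw [mul_sum, ← sum_add_distrib, ← sum_sub_distrib]
        refine sum_congr rfl fun j hj => ?_
        rw [mem_range] at hi hj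
        rw [hU _ _ _ _ hi hj, hU _ _ _ _ hi hj, if_pos (by omega), if_neg (by omega)]
        ring
      rw [e]
      refine (abs_sum_le_sum_abs _ _).trans ?_
      have h2 : ∀ b ∈ range L, |(∑ i ∈ range A, ∑ j ∈ range A,
            (g (2 * a * A + i) (b * A + j) - g ((2 * a + 1) * A + i) (b * A + j))) -
          2 * ∑ i ∈ range A, ∑ j ∈ range A, U L N j i * g (2 * a * A + i) (b * A + j)| ≤
          A * (A * (A * κ)) + 2 * X := by
        intro b _
        refine (abs_sub _ _).trans ?_
        refine add_le_add ?_ ?_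
        · refine (abs_sum_le_sum_abs _ _).trans ?_
          have h3 : ∀ i ∈ range A, |∑ j ∈ range A,
              (g (2 * a * A + i) (b * A + j) - g ((2 * a + 1) * A + i) (b * A + j))| ≤
              A * (A * κ) := by
            intro i _
            refine (abs_sum_le_sum_abs _ _).trans ?_
            have h4 : ∀ j ∈ range A,
                |g (2 * a * A + i) (b * A + j) - g ((2 * a + 1) * A + i) (b * A + j)| ≤
                A * κ := by
              intro j _
              have h5 := D4_lip hg (2 * a * A + i) (b * A + j) A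
              rw [abs_sub_comm] at h5
              have h6 : (2 * a + 1) * A + i = 2 * a * A + i + A := by ring
              rw [h6]
              exact h5
            have := sum_le_card_nsmul _ _ _ h4
            rwa [card_range, nsmul_eq_mul] at this
          have := sum_le_card_nsmul _ _ _ h3
          rwa [card_range, nsmul_eq_mul] at this
        · rw [abs_mul, abs_of_pos (by norm_num : (0 : ℝ) < 2)]
          have := hblock (2 * a) b
          linarith
      have := sum_le_card_nsmul _ _ _ h2
      rwa [card_range, nsmul_eq_mul] at this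
    have htot : |∑ a ∈ range L, F a| ≤ M * (L * (A * (A * (A * κ)) + 2 * X)) := by
      have h7 : ∑ a ∈ range L, F a = ∑ a ∈ range M, (F (2 * a) + F (2 * a + 1)) := by
        rw [hM]
        exact D4_pair F M
      rw [h7]
      refine (abs_sum_le_sum_abs _ _).trans ?_
      have := sum_le_card_nsmul _ _ _ (fun a (_ : a ∈ range M) => hFb a)
      rwa [card_range, nsmul_eq_mul] at this
    have hLr : (L : ℝ) = 2 * M := by rw [hM]; push_cast; ring
    have hL1 : (1 : ℝ) ≤ L := by exact_mod_cast hLpos
    have hL0 : (0 : ℝ) < L := by linarith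
    have hAr : (A : ℝ) = (L : ℝ) ^ N := by rw [hA]; push_cast; ring
    have hMr : (M : ℝ) = L / 2 := by rw [hLr]; ring
    calc |∑ a ∈ range L, F a| * (2 * (L : ℝ))
        ≤ (M * (L * (A * (A * (A * κ)) + 2 * X))) * (2 * L) :=
          mul_le_mul_of_nonneg_right htot (by positivity)
      _ = κ * (L : ℝ) ^ (3 * (N + 1)) + N * κ * (L : ℝ) ^ (3 * N) * L ^ 2 := by
          rw [hMr, hAr, hX, show 3 * (N + 1) = N + N + N + 3 by ring,
            show 3 * N = N + N + N by ring]
          simp only [pow_add]
          field_simp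
      _ ≤ κ * (L : ℝ) ^ (3 * (N + 1)) + N * κ * (L : ℝ) ^ (3 * N) * L ^ 3 := by
          have : (L : ℝ) ^ 2 ≤ (L : ℝ) ^ 3 := pow_le_pow_right₀ hL1 (by norm_num)
          have h8 : 0 ≤ N * κ * (L : ℝ) ^ (3 * N) := by positivity
          nlinarith
      _ = ((N + 1 : ℕ) : ℝ) * κ * (L : ℝ) ^ (3 * (N + 1)) := by
          push_cast
          ring

end Pool.Agent.R363.LF
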