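import Pool.Agent.R363.LF.Stm

/-!
# Piece D5: the discrete theorem from the estimates
-/

set_option autoImplicit false

namespace Pool.Agent.R363.LF

open Finset

theorem D5.abs_U (L : ℕ) : ∀ N i j, |U L N i j| ≤ 2 ^ N - 1 := by
  intro N
  induction N with
  | zero =>
    intro i j
    simp [U]
  | succ N ih =>
    intro i j
    have h1 : (1 : ℝ) ≤ 2 ^ N := one_le_pow₀ (by norm_num)
    have h2 := ih (j % L ^ N) (i % L ^ N)
    rw [abs_le] at h2
    unfold U
    split_ifs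
    · rw [abs_le, pow_succ]
      constructor <;> linarith [h2.1, h2.2]
    · rw [abs_neg, abs_one, pow_succ]
      linarith

theorem t_D5 (h1 : S_D1) (h2 : S_D2) (h3 : S_D3) (h4 : S_D4) : S_Disc := by
  intro C hC
  obtain ⟨N, hN⟩ := exists_nat_ge (8 * C + 8)
  obtain ⟨L', hL'⟩ := exists_nat_ge (8 * C * N + 8)
  obtain ⟨L, hL⟩ : ∃ L : ℕ, L = 2 * (L' + 1) := ⟨_, rfl⟩
  have hL2 : 2 ≤ L := by omega
  have hLe : L % 2 = 0 := by omega
  have hLr : 8 * C * N + 8 ≤ (L : ℝ) := by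
    have h0 : (0 : ℝ) ≤ L' := Nat.cast_nonneg _
    rw [hL]
    push_cast
    linarith
  have hL0 : (0 : ℝ) < L := by
    have h0 : (2 : ℝ) ≤ L := by exact_mod_cast hL2
    linarith
  have hLn : 0 < L := by omega
  have hN0 : (0 : ℝ) ≤ N := Nat.cast_nonneg _
  obtain ⟨M, hM⟩ : ∃ M : ℝ, M = (L : ℝ) ^ (2 * N) := ⟨_, rfl⟩
  have hM0 : 0 < M := by
    rw [hM]
    positivity
  have hCN : 0 ≤ C * N := mul_nonneg hC hN0
  refine ⟨L ^ N, fun i j => if 0 ≤ U L N i j then 1 else -1, 1 / (4 * 2 ^ N), by positivity, ?_,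
    by positivity, ?_⟩
  · intro i j
    dsimp only
    split_ifs <;> simp
  intro p q g hp hq hg
  by_contra hcon
  push Not at hcon
  have key : ∑ i ∈ range (L ^ N), ∑ j ∈ range (L ^ N), |U L N i j|
      ≤ ∑ i ∈ range (L ^ N), ∑ j ∈ range (L ^ N), (1 / 4
        + (U L N i j * ((p (i + 1) j - p i j) + (q i (j + 1) - q i j))
          - V L N i j * ((p (i + 1) j - p i j) - (q i (j + 1) - q i j)))
        + 2 * C * |V L N i j| + U L N i j * g i j) := by
    refine sum_le_sum fun i hi => sum_le_sum fun j hj => ?_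
    have hc := hcon i j (mem_range.1 hi) (mem_range.1 hj)
    have hU := D5.abs_U L N i j
    obtain ⟨X, hX⟩ : ∃ X, X = (p (i + 1) j - p i j) + (q i (j + 1) - q i j) + g i j := ⟨_, rfl⟩
    obtain ⟨u, hu⟩ : ∃ u, u = U L N i j := ⟨_, rfl⟩
    obtain ⟨w, hw⟩ : ∃ w, w = V L N i j := ⟨_, rfl⟩
    obtain ⟨a, ha⟩ : ∃ a, a = p (i + 1) j - p i j := ⟨_, rfl⟩
    obtain ⟨b, hb⟩ : ∃ b, b = q i (j + 1) - q i j := ⟨_, rfl⟩
    have ha' : |a| ≤ C := by rw [ha]; exact (hp i j).1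
    have hb' : |b| ≤ C := by rw [hb]; exact (hq i j).2
    obtain ⟨s, hs⟩ : ∃ s : ℝ, s = if 0 ≤ u then 1 else -1 := ⟨_, rfl⟩
    have hsu : |u| = u * s := by
      rw [hs]
      split_ifs with h
      · rw [abs_of_nonneg h, mul_one]
      · rw [abs_of_neg (not_le.1 h)]
        ring
    rw [← hX, ← hu, ← hs] at hc
    rw [← hu] at hU
    rw [← hu, ← hw, ← ha, ← hb, hsu]
    rw [← ha, ← hb] at hX
    have e1 : u * (s - X) ≤ 1 / 4 := by
      have e2 : |u * (s - X)| ≤ 2 ^ N * (1 / (4 * 2 ^ N)) := by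
        rw [abs_mul, abs_sub_comm]
        exact mul_le_mul (by linarith) hc.le (abs_nonneg _) (by positivity)
      have e3 : (2 : ℝ) ^ N * (1 / (4 * 2 ^ N)) = 1 / 4 := by
        field_simp
      rw [e3] at e2
      exact (le_abs_self _).trans e2
    have e4 : w * (a - b) ≤ 2 * C * |w| := by
      have e5 : |w * (a - b)| ≤ |w| * (2 * C) := by
        rw [abs_mul]
        refine mul_le_mul_of_nonneg_left ?_ (abs_nonneg _)
        have := abs_sub a b
        linarith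
      have := le_abs_self (w * (a - b))
      linarith
    have e6 : u * s = u * (s - X) + u * X := by ring
    rw [e6, hX]
    have e7 : u * (a + b + g i j) = (u * (a + b) - w * (a - b)) + w * (a - b) + u * g i j := by ring
    rw [hX] at e1
    rw [e7]
    linarith
  simp only [sum_add_distrib, sum_const, card_range, nsmul_eq_mul, ← mul_sum] at key
  have d1 := h1 L N hL2 hLe 0 (by norm_num) le_rfl
  simp only [zero_add] at d1
  have d2 := h2 L N hL2 hLe C p q hC hp hq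
  have d3 := h3 L N hL2 hLe
  have d4 := h4 L N hL2 hLe _ g (by positivity) hg
  rw [← hM] at d1 d2 d3
  have hpow : (C / ((L ^ N : ℕ) : ℝ)) * (L : ℝ) ^ (3 * N) = C * M := by
    rw [hM, show 3 * N = N + 2 * N by ring, pow_add]
    push_cast
    field_simp
  rw [mul_assoc (N : ℝ), hpow] at d4
  have hcard : ((L ^ N : ℕ) : ℝ) * (((L ^ N : ℕ) : ℝ) * (1 / 4)) = M / 4 := by
    rw [hM, two_mul, pow_add]
    push_cast
    ring
  rw [hcard] at key
  obtain ⟨Φ, hΦ⟩ : ∃ Φ, Φ = ∑ i ∈ range (L ^ N), ∑ j ∈ range (L ^ N),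
    (U L N i j * ((p (i + 1) j - p i j) + (q i (j + 1) - q i j))
      - V L N i j * ((p (i + 1) j - p i j) - (q i (j + 1) - q i j))) := ⟨_, rfl⟩
  obtain ⟨Ψ, hΨ⟩ : ∃ Ψ, Ψ = ∑ i ∈ range (L ^ N), ∑ j ∈ range (L ^ N), U L N i j * g i j :=
    ⟨_, rfl⟩
  rw [← hΦ] at d2 key
  rw [← hΨ] at d4 key
  have f1 : Φ * L ≤ M / 4 * L := by
    have g1 : Φ * L ≤ |Φ| * L := mul_le_mul_of_nonneg_right (le_abs_self _) hL0.le
    have g2 : (8 * C * N + 8) * M ≤ L * M := mul_le_mul_of_nonneg_right hLr hM0.le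
    nlinarith
  have f2 : Ψ * (2 * L) ≤ M / 8 * (2 * L) := by
    have g1 : Ψ * (2 * L) ≤ |Ψ| * (2 * L) :=
      mul_le_mul_of_nonneg_right (le_abs_self _) (by linarith)
    have g2 : (8 * C * N + 8) * M ≤ L * M := mul_le_mul_of_nonneg_right hLr hM0.le
    have g3 : 0 ≤ C * N * M := mul_nonneg hCN hM0.le
    nlinarith
  have f1' : Φ ≤ M / 4 := le_of_mul_le_mul_right f1 hL0
  have f2' : Ψ ≤ M / 8 := le_of_mul_le_mul_right f2 (by linarith)
  have f3 : 2 * C * ∑ i ∈ range (L ^ N), ∑ j ∈ range (L ^ N), |V L N i j| ≤ 2 * C * (2 * M) :=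
    mul_le_mul_of_nonneg_left d3 (by linarith)
  have f4 : (8 * C + 8) * M ≤ N * M := mul_le_mul_of_nonneg_right hN hM0.le
  nlinarith

end Pool.Agent.R363.LF
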