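import Pool.Agent.R363.LF.Stm

/-!
# Lusin approximation: the discrete theorem (assembly)
-/

namespace Pool.Agent.R363.LF

open MeasureTheory Finset

namespace D5

theorem U_le (L : ℕ) : ∀ N i j : ℕ, |U L N i j| ≤ 2 ^ N - 1
  | 0, i, j => by simp [U]
  | N + 1, i, j => by
      have h1 := U_le L N (j % L ^ N) (i % L ^ N)
      have h2 : (1 : ℝ) ≤ 2 ^ N := one_le_pow₀ (by norm_num)
      rw [abs_le] at h1
      rw [U, pow_succ]
      split_ifs
      · rw [abs_le]
        constructor <;> linarith [h1.1, h1.2]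
      · rw [abs_le]
        constructor <;> linarith

/-- the sign of the test function -/
noncomputable def sg (L N i j : ℕ) : ℝ := if 0 ≤ U L N i j then 1 else -1

theorem sg_le (L N i j : ℕ) : |sg L N i j| ≤ 1 := by
  unfold sg
  split_ifs <;> simp

theorem U_sg (L N i j : ℕ) : U L N i j * sg L N i j = |U L N i j| := by
  unfold sg
  split_ifs with h
  · rw [abs_of_nonneg h, mul_one]
  · rw [abs_of_neg (not_le.1 h), mul_neg, mul_one]

end D5

open D5 in
/-- the discrete theorem -/
theorem t_D5 (h1 : S_D1) (h2 : S_D2) (h3 : S_D3) (h4 : S_D4) : S_Disc := by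
  intro C hC
  obtain ⟨N, hN⟩ := exists_nat_ge (8 * C + 8)
  obtain ⟨l, hl⟩ := exists_nat_ge (8 * C * N + 8)
  have hN0 : (0 : ℝ) ≤ N := Nat.cast_nonneg _
  have hl8 : (8 : ℝ) ≤ l := by
    have : 0 ≤ 8 * C * N := by positivity
    linarith
  have hl8' : 8 ≤ l := by exact_mod_cast hl8
  set L : ℕ := 2 * l with hL
  have hL2 : 2 ≤ L := by omega
  have hLe : L % 2 = 0 := by omega
  have hLr : (L : ℝ) = 2 * l := by rw [hL]; push_cast; ring
  have hLpos : (0 : ℝ) < L := by rw [hLr]; linarith
  set m : ℕ := L ^ N with hm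
  have hm0 : 0 < m := Nat.pow_pos (by omega)
  have hmr : (m : ℝ) = (L : ℝ) ^ N := by rw [hm]; push_cast; ring
  have hmpos : (0 : ℝ) < m := by exact_mod_cast hm0
  set Q : ℝ := (L : ℝ) ^ (2 * N) with hQ
  have hQ0 : 0 < Q := by positivity
  have hQm : Q = (m : ℝ) * m := by
    rw [hQ, hmr, two_mul, pow_add]
  refine ⟨m, sg L N, 1 / (4 * 2 ^ N), hm0, sg_le L N, by positivity, ?_⟩
  intro p q g hp hq hg
  by_contra hcon
  push Not at hcon
  set X : ℕ → ℕ → ℝ := fun i j => (p (i + 1) j - p i j) + (q i (j + 1) - q i j) + g i j with hX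
  have hXs : ∀ i j, i < m → j < m → |X i j - sg L N i j| < 1 / (4 * 2 ^ N) := hcon
  -- the sums
  have e0 : ∑ i ∈ range m, ∑ j ∈ range m, |U L N i j| =
      (∑ i ∈ range m, ∑ j ∈ range m, U L N i j * (sg L N i j - X i j)) +
      ((∑ i ∈ range m, ∑ j ∈ range m,
        (U L N i j * ((p (i + 1) j - p i j) + (q i (j + 1) - q i j))
          - V L N i j * ((p (i + 1) j - p i j) - (q i (j + 1) - q i j)))) +
      ((∑ i ∈ range m, ∑ j ∈ range m,
          V L N i j * ((p (i + 1) j - p i j) - (q i (j + 1) - q i j))) +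
      (∑ i ∈ range m, ∑ j ∈ range m, U L N i j * g i j))) := by
    simp only [← Finset.sum_add_distrib]
    refine Finset.sum_congr rfl fun i _ => Finset.sum_congr rfl fun j _ => ?_
    rw [← U_sg, hX]
    ring
  have b1 : |∑ i ∈ range m, ∑ j ∈ range m, U L N i j * (sg L N i j - X i j)| ≤ Q / 4 := by
    calc |∑ i ∈ range m, ∑ j ∈ range m, U L N i j * (sg L N i j - X i j)|
        ≤ ∑ i ∈ range m, ∑ j ∈ range m, (1 / 4 : ℝ) := by
          refine (Finset.abs_sum_le_sum_abs _ _).trans (Finset.sum_le_sum fun i hi => ?_)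
          refine (Finset.abs_sum_le_sum_abs _ _).trans (Finset.sum_le_sum fun j hj => ?_)
          rw [abs_mul]
          have e1 := U_le L N i j
          have e2 := (hXs i j (mem_range.1 hi) (mem_range.1 hj)).le
          have e3 : |sg L N i j - X i j| ≤ 1 / (4 * 2 ^ N) := by
            rw [abs_sub_comm]
            exact e2
          have e4 : |U L N i j| ≤ 2 ^ N := by linarith
          calc |U L N i j| * |sg L N i j - X i j| ≤ 2 ^ N * (1 / (4 * 2 ^ N)) :=
                mul_le_mul e4 e3 (abs_nonneg _) (by positivity)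
            _ = 1 / 4 := by field_simp
      _ = Q / 4 := by
          simp only [Finset.sum_const, card_range, nsmul_eq_mul]
          rw [hQm]
          ring
  have b2 : |∑ i ∈ range m, ∑ j ∈ range m,
        (U L N i j * ((p (i + 1) j - p i j) + (q i (j + 1) - q i j))
          - V L N i j * ((p (i + 1) j - p i j) - (q i (j + 1) - q i j)))| ≤ Q / 4 := by
    have h := h2 L N hL2 hLe C p q hC hp hq
    have e1 : 2 * C * (N : ℝ) * Q ≤ Q / 4 * L := by
      rw [hLr]
      nlinarith [hl, hQ0, mul_le_mul_of_nonneg_left hl hQ0.le]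
    exact le_of_mul_le_mul_right (h.trans e1) hLpos
  have b3 : |∑ i ∈ range m, ∑ j ∈ range m,
          V L N i j * ((p (i + 1) j - p i j) - (q i (j + 1) - q i j))| ≤ 4 * C * Q := by
    calc |∑ i ∈ range m, ∑ j ∈ range m,
          V L N i j * ((p (i + 1) j - p i j) - (q i (j + 1) - q i j))|
        ≤ ∑ i ∈ range m, ∑ j ∈ range m, |V L N i j| * (2 * C) := by
          refine (Finset.abs_sum_le_sum_abs _ _).trans (Finset.sum_le_sum fun i hi => ?_)
          refine (Finset.abs_sum_le_sum_abs _ _).trans (Finset.sum_le_sum fun j hj => ?_)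
          rw [abs_mul]
          refine mul_le_mul_of_nonneg_left ?_ (abs_nonneg _)
          have e1 := abs_le.1 (hp i j).1
          have e2 := abs_le.1 (hq i j).2
          rw [abs_le]
          constructor <;> linarith [e1.1, e1.2, e2.1, e2.2]
      _ = (∑ i ∈ range m, ∑ j ∈ range m, |V L N i j|) * (2 * C) := by
          rw [Finset.sum_mul]
          refine Finset.sum_congr rfl fun i _ => ?_
          rw [Finset.sum_mul]
      _ ≤ (2 * Q) * (2 * C) := mul_le_mul_of_nonneg_right (h3 L N hL2 hLe) (by positivity)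
      _ = 4 * C * Q := by ring
  have b4 : |∑ i ∈ range m, ∑ j ∈ range m, U L N i j * g i j| ≤ Q / 4 := by
    have h := h4 L N hL2 hLe (C / m) g (by positivity) hg
    have e1 : (N : ℝ) * (C / m) * (L : ℝ) ^ (3 * N) = N * C * Q := by
      have : (L : ℝ) ^ (3 * N) = Q * m := by
        rw [hQ, hmr, ← pow_add]
        congr 1
        ring
      rw [this]
      field_simp
    rw [e1] at h
    have e2 : (N : ℝ) * C * Q ≤ Q / 4 * (2 * L) := by
      have e3 : 0 ≤ C * N * Q := by positivity
      rw [hLr]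
      nlinarith [hl, hQ0, mul_le_mul_of_nonneg_left hl hQ0.le]
    exact le_of_mul_le_mul_right (h.trans e2) (by positivity)
  have b5 := h1 L N hL2 hLe 0 (by norm_num) le_rfl
  simp only [zero_add] at b5
  rw [← hm, ← hQ] at b5
  rw [e0] at b5
  have c1 := (abs_le.1 b1).2
  have c2 := (abs_le.1 b2).2
  have c3 := (abs_le.1 b3).2
  have c4 := (abs_le.1 b4).2
  have c5 : (4 * C + 4) * Q ≤ (N : ℝ) / 2 * Q :=
    mul_le_mul_of_nonneg_right (by linarith) hQ0.le
  linarith

end Pool.Agent.R363.LF
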