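import Pool.Agent.R363.LF.Stm

/-!
Lusin forms, piece E1 (helper250): the divergence theorem on the cells.
-/

set_option autoImplicit false

namespace Pool.Agent.R363.LF

open MeasureTheory Finset

namespace E1

/-- The weights of the components. -/
noncomputable def cc (k m : ℕ) (l : Fin (k + 2)) : ℝ := if l = 0 then m else if l = 1 then m else 1

/-- The factors of the affine map. -/
noncomputable def dd (k m : ℕ) (l : Fin (k + 2)) : ℝ :=
  if l = 0 then 1 / m else if l = 1 then 1 / m else 1

lemma cc_mul_dd {k m : ℕ} (hm : 0 < m) (l : Fin (k + 2)) : cc k m l * dd k m l = 1 := by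
  have hm' : (m : ℝ) ≠ 0 := by positivity
  unfold cc dd
  split_ifs
  · field_simp
  · field_simp
  · norm_num

/-- The linear part. -/
noncomputable def DD (k m : ℕ) : (Fin (k + 2) → ℝ) →L[ℝ] (Fin (k + 2) → ℝ) :=
  ContinuousLinearMap.pi fun l => dd k m l • ContinuousLinearMap.proj (R := ℝ) (φ := fun _ => ℝ) l

lemma DD_apply (k m : ℕ) (z : Fin (k + 2) → ℝ) (l : Fin (k + 2)) :
    DD k m z l = dd k m l * z l := by
  simp [DD]

lemma DD_single (k m : ℕ) (l : Fin (k + 2)) :
    DD k m (Pi.single l 1) = dd k m l • (Pi.single l 1 : Fin (k + 2) → ℝ) := by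
  ext r
  rw [DD_apply, Pi.smul_apply, smul_eq_mul]
  by_cases h : r = l
  · subst h; simp
  · simp [h]

lemma T_eq (k m i j : ℕ) (z : Fin (k + 2) → ℝ) : T k m i j z = T k m i j 0 + DD k m z := by
  ext l
  rw [Pi.add_apply, DD_apply]
  unfold T dd
  split_ifs with h0 h1
  · subst h0; simp only [Pi.zero_apply, add_zero]; ring
  · subst h1; simp only [Pi.zero_apply, add_zero]; ring
  · simp

lemma hasFDerivAt_T (k m i j : ℕ) (z : Fin (k + 2) → ℝ) :
    HasFDerivAt (T k m i j) (DD k m) z := by
  have h : T k m i j = fun z => T k m i j 0 + DD k m z := funext (T_eq k m i j)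
  rw [h]
  exact (DD k m).hasFDerivAt.const_add _

lemma continuous_T (k m i j : ℕ) : Continuous (T k m i j) :=
  continuous_iff_continuousAt.2 fun z => (hasFDerivAt_T k m i j z).continuousAt

lemma zero_ne_one' (k : ℕ) : (0 : Fin (k + 2)) ≠ 1 := by
  intro h
  have := congrArg Fin.val h
  simp at this

lemma T_succ_left (k m i j : ℕ) (z : Fin (k + 2) → ℝ) :
    T k m (i + 1) j z = T k m i j z + Pi.single 0 (1 / (m : ℝ)) := by
  ext l
  rw [Pi.add_apply]
  unfold T
  by_cases h0 : l = 0
  · subst h0
    simp only [if_true, Pi.single_eq_same]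
    push_cast
    ring
  · rw [Pi.single_eq_of_ne h0, if_neg h0, if_neg h0, add_zero]

lemma T_succ_right (k m i j : ℕ) (z : Fin (k + 2) → ℝ) :
    T k m i (j + 1) z = T k m i j z + Pi.single 1 (1 / (m : ℝ)) := by
  ext l
  rw [Pi.add_apply]
  unfold T
  by_cases h0 : l = 0
  · subst h0
    rw [if_pos rfl, if_pos rfl, Pi.single_eq_of_ne (zero_ne_one' k), add_zero]
  · by_cases h1 : l = 1
    · subst h1
      rw [if_neg h0, if_neg h0, if_pos rfl, if_pos rfl, Pi.single_eq_same]
      push_cast
      ring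
    · rw [Pi.single_eq_of_ne h1, if_neg h0, if_neg h0, if_neg h1, if_neg h1, add_zero]

/-- The face integrals. -/
noncomputable def PP (k m : ℕ) (F : (Fin (k + 2) → ℝ) → (Fin (k + 2) → ℝ)) (l : Fin (k + 2))
    (e : ℝ) (i j : ℕ) : ℝ :=
  ∫ x in Set.Icc (0 : Fin (k + 1) → ℝ) 1, cc k m l * F (T k m i j (l.insertNth e x)) l

lemma vol_one (n : ℕ) : (volume (Set.Icc (0 : Fin n → ℝ) 1)) = 1 := by
  rw [Real.volume_Icc_pi]
  simp

lemma cc_nonneg (k m : ℕ) (l : Fin (k + 2)) : 0 ≤ cc k m l := by
  unfold cc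
  split_ifs <;> positivity

lemma intOn {k m : ℕ} {F : (Fin (k + 2) → ℝ) → (Fin (k + 2) → ℝ)} (hF : Continuous F)
    (l : Fin (k + 2)) (e : ℝ) (i j : ℕ) :
    IntegrableOn (fun x : Fin (k + 1) → ℝ => cc k m l * F (T k m i j (l.insertNth e x)) l)
      (Set.Icc (0 : Fin (k + 1) → ℝ) 1) volume := by
  have h1 : Continuous fun x : Fin (k + 1) → ℝ => (l.insertNth e x : Fin (k + 2) → ℝ) :=
    Continuous.finInsertNth l (A := fun _ => ℝ) continuous_const continuous_id
  have h2 : Continuous fun x : Fin (k + 1) → ℝ =>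
      cc k m l * F (T k m i j (l.insertNth e x)) l :=
    continuous_const.mul
      ((continuous_apply l).comp (hF.comp ((continuous_T k m i j).comp h1)))
  exact h2.continuousOn.integrableOn_compact isCompact_Icc

lemma PP_sub_le {k m : ℕ} {C : ℝ} {F : (Fin (k + 2) → ℝ) → (Fin (k + 2) → ℝ)}
    (hF : Continuous F) (hL : LipF C F) (l : Fin (k + 2)) (e : ℝ) (i j i' j' : ℕ)
    (a : Fin (k + 2)) (h : ∀ z, T k m i' j' z = T k m i j z + Pi.single a (1 / (m : ℝ))) :
    |PP k m F l e i' j' - PP k m F l e i j| ≤ cc k m l * (C / m) := by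
  unfold PP
  rw [← integral_sub (intOn hF l e i' j') (intOn hF l e i j)]
  have h1 : ‖∫ x in Set.Icc (0 : Fin (k + 1) → ℝ) 1,
      (cc k m l * F (T k m i' j' (l.insertNth e x)) l
        - cc k m l * F (T k m i j (l.insertNth e x)) l)‖
      ≤ (cc k m l * (C / m)) * (volume : Measure (Fin (k + 1) → ℝ)).real
        (Set.Icc (0 : Fin (k + 1) → ℝ) 1) := by
    refine norm_setIntegral_le_of_norm_le_const ?_ fun x _ => ?_
    · rw [vol_one]
      exact ENNReal.one_lt_top
    · rw [← mul_sub, norm_mul, Real.norm_eq_abs, Real.norm_eq_abs, abs_of_nonneg (cc_nonneg k m l),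
        h]
      refine mul_le_mul_of_nonneg_left ?_ (cc_nonneg k m l)
      refine (hL l a _ _).trans (le_of_eq ?_)
      rw [abs_of_nonneg (by positivity)]
      ring
  rw [measureReal_def, vol_one, ENNReal.toReal_one, mul_one, Real.norm_eq_abs] at h1
  exact h1

lemma div_thm {k m : ℕ} (hm : 0 < m) {F : (Fin (k + 2) → ℝ) → (Fin (k + 2) → ℝ)}
    (hF : ContDiff ℝ 1 F) (i j : ℕ) :
    ∫ z in Set.Icc (0 : Fin (k + 2) → ℝ) 1, divF F (T k m i j z)
      = ∑ l, (PP k m F l 1 i j - PP k m F l 0 i j) := by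
  set f' : Fin (k + 2) → (Fin (k + 2) → ℝ) → (Fin (k + 2) → ℝ) →L[ℝ] ℝ := fun l z =>
    cc k m l • ((ContinuousLinearMap.proj (R := ℝ) (φ := fun _ => ℝ) l).comp
      ((fderiv ℝ F (T k m i j z)).comp (DD k m))) with hf'
  have hval : ∀ z, ∑ l, f' l z (Pi.single l 1) = divF F (T k m i j z) := by
    intro z
    unfold divF
    refine Finset.sum_congr rfl fun l _ => ?_
    have e1 : f' l z (Pi.single l 1)
        = cc k m l * (fderiv ℝ F (T k m i j z) (DD k m (Pi.single l 1))) l := rfl
    rw [e1, DD_single, map_smul, Pi.smul_apply, smul_eq_mul, ← mul_assoc, cc_mul_dd hm, one_mul]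
  have hcont : Continuous fun z => divF F (T k m i j z) := by
    unfold divF
    refine continuous_finsetSum _ fun l _ => ?_
    have h1 : Continuous fun z => fderiv ℝ F (T k m i j z) :=
      (hF.continuous_fderiv (by norm_num)).comp (continuous_T k m i j)
    exact (continuous_apply l).comp (h1.clm_apply continuous_const)
  have key := integral_divergence_of_hasFDerivAt_off_countable' (E := ℝ) (n := k + 1)
    (0 : Fin (k + 2) → ℝ) 1 (by intro l; simp)
    (fun l z => cc k m l * F (T k m i j z) l) f' ∅ Set.countable_empty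
    (fun l => (continuous_const.mul ((continuous_apply l).comp
      (hF.continuous.comp (continuous_T k m i j)))).continuousOn)
    (fun z _ l => by
      have h1 : HasFDerivAt F (fderiv ℝ F (T k m i j z)) (T k m i j z) :=
        (hF.differentiable (by norm_num) _).hasFDerivAt
      have h2 := h1.comp z (hasFDerivAt_T k m i j z)
      have h3 := (ContinuousLinearMap.proj (R := ℝ) (φ := fun _ : Fin (k + 2) => ℝ) l
        ).hasFDerivAt.comp z h2
      exact h3.const_mul (cc k m l))
    (by
      simp only [hval]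
      exact hcont.continuousOn.integrableOn_compact isCompact_Icc)
  simp only [hval] at key
  rw [key]
  rfl

end E1

open E1 in
theorem t_E1 : S_E1 := by
  intro k m hm C F hF hL
  have hm' : (0 : ℝ) < m := by exact_mod_cast hm
  have hC : 0 ≤ C := by
    have := hL 0 0 0 1
    rw [abs_one, mul_one] at this
    exact (abs_nonneg _).trans this
  have hl := fun l e i j => PP_sub_le (m := m) hF.continuous hL l e i j (i + 1) j 0
    (T_succ_left k m i j)
  have hr := fun l e i j => PP_sub_le (m := m) hF.continuous hL l e i j i (j + 1) 1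
    (T_succ_right k m i j)
  have hc0 : cc k m 0 = m := by simp [cc]
  have hc1 : cc k m 1 = m := by simp [cc]
  have hc2 : ∀ l : Fin k, cc k m l.succ.succ = 1 := by
    intro l
    unfold cc
    rw [if_neg (Fin.succ_ne_zero _), if_neg]
    intro h
    have h2 : l.succ.succ = Fin.succ 0 := by rw [h]; rfl
    exact Fin.succ_ne_zero _ (Fin.succ_injective _ h2)
  refine ⟨PP k m F 0 0, PP k m F 1 0,
    fun i j => ∑ l : Fin k, (PP k m F l.succ.succ 1 i j - PP k m F l.succ.succ 0 i j),
    fun i j => ?_, fun i j => ?_, fun i j => ?_, fun i j => ?_⟩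
  · have e : cc k m 0 * (C / m) = C := by rw [hc0]; field_simp
    exact ⟨(hl 0 0 i j).trans e.le, (hr 0 0 i j).trans e.le⟩
  · have e : cc k m 1 * (C / m) = C := by rw [hc1]; field_simp
    exact ⟨(hl 1 0 i j).trans e.le, (hr 1 0 i j).trans e.le⟩
  · have hsum : ∀ i' j' : ℕ, (∀ l e, |PP k m F l e i' j' - PP k m F l e i j|
        ≤ cc k m l * (C / m)) →
        |(∑ l : Fin k, (PP k m F l.succ.succ 1 i' j' - PP k m F l.succ.succ 0 i' j'))
          - ∑ l : Fin k, (PP k m F l.succ.succ 1 i j - PP k m F l.succ.succ 0 i j)|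
          ≤ 2 * k * C / m := by
      intro i' j' h
      rw [← Finset.sum_sub_distrib]
      refine (Finset.abs_sum_le_sum_abs _ _).trans ?_
      have hterm : ∀ l : Fin k, |(PP k m F l.succ.succ 1 i' j' - PP k m F l.succ.succ 0 i' j')
          - (PP k m F l.succ.succ 1 i j - PP k m F l.succ.succ 0 i j)| ≤ 2 * (C / m) := by
        intro l
        have a1 := h l.succ.succ 1
        have a2 := h l.succ.succ 0
        rw [hc2, one_mul, abs_le] at a1 a2
        rw [abs_le]
        constructor <;> linarith [a1.1, a1.2, a2.1, a2.2]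
      calc _ ≤ ∑ _l : Fin k, 2 * (C / m) := Finset.sum_le_sum fun l _ => hterm l
        _ = 2 * k * C / m := by
          rw [Finset.sum_const, Finset.card_univ, Fintype.card_fin, nsmul_eq_mul]
          ring
    exact ⟨hsum (i + 1) j fun l e => hl l e i j, hsum i (j + 1) fun l e => hr l e i j⟩
  · rw [div_thm hm hF, Fin.sum_univ_succ, Fin.sum_univ_succ]
    have t0 : ∀ x : Fin (k + 1) → ℝ, T k m i j (Fin.insertNth 0 1 x)
        = T k m (i + 1) j (Fin.insertNth 0 0 x) := by
      intro x
      funext l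
      refine Fin.cases ?_ (fun l' => ?_) l
      · unfold T
        simp
      · unfold T
        have h3 : ∀ (e : ℝ) (r : Fin (k + 1)),
            (Fin.insertNth 0 e x : Fin (k + 2) → ℝ) r.succ = x r := by
          intro e r
          have h4 : r.succ = Fin.succAbove 0 r := by simp
          rw [h4, Fin.insertNth_apply_succAbove]
        have h5 : (1 : Fin (k + 2)) = Fin.succ 0 := rfl
        rw [if_neg (Fin.succ_ne_zero l'), if_neg (Fin.succ_ne_zero l'), h5, h3, h3, h3, h3]
    have e0 : PP k m F 0 1 i j = PP k m F 0 0 (i + 1) j := by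
      unfold PP
      simp only [t0]
    have t1 : ∀ x : Fin (k + 1) → ℝ, T k m i j (Fin.insertNth 1 1 x)
        = T k m i (j + 1) (Fin.insertNth 1 0 x) := by
      intro x
      funext l
      by_cases h1 : l = 1
      · subst h1
        unfold T
        simp
      · obtain ⟨l', rfl⟩ := Fin.exists_succAbove_eq h1
        unfold T
        simp only [Fin.insertNth_apply_succAbove, if_neg h1]
        split_ifs with h0
        · have h3 : ∀ e : ℝ, (Fin.insertNth 1 e x : Fin (k + 2) → ℝ) 0 = x 0 := by
            intro e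
            have h4 : (0 : Fin (k + 2)) = Fin.succAbove 1 0 := by simp
            rw [h4, Fin.insertNth_apply_succAbove]
          rw [h3, h3]
        · rfl
    have e1 : PP k m F 1 1 i j = PP k m F 1 0 i (j + 1) := by
      unfold PP
      simp only [t1]
    have e2 : (Fin.succ 0 : Fin (k + 2)) = 1 := rfl
    rw [e2, e0, e1]
    ring

end Pool.Agent.R363.LF
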