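import Pool.Agent.R363.LF.Stm

namespace Pool.Agent.R363.LF

open MeasureTheory Finset

namespace E1b

theorem ins_ne {n : ℕ} (i : Fin (n + 1)) (a b : ℝ) (z : Fin n → ℝ) {l : Fin (n + 1)} (h : l ≠ i) :
    (i.insertNth a z : Fin (n + 1) → ℝ) l = (i.insertNth b z : Fin (n + 1) → ℝ) l := by
  obtain ⟨l', rfl⟩ := Fin.exists_succAbove_eq h
  rw [Fin.insertNth_apply_succAbove, Fin.insertNth_apply_succAbove]

variable {k m : ℕ}

theorem T_i (i j : ℕ) (z : Fin (k + 2) → ℝ) :
    T k m (i + 1) j z = T k m i j z + Pi.single 0 (1 / (m : ℝ)) := by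
  funext l
  rw [Pi.add_apply]
  by_cases h0 : l = 0
  · subst h0
    simp only [T, if_true, Pi.single_eq_same]
    push_cast
    ring
  · rw [Pi.single_eq_of_ne h0]
    simp only [T, if_neg h0, add_zero]

theorem T_j (i j : ℕ) (z : Fin (k + 2) → ℝ) :
    T k m i (j + 1) z = T k m i j z + Pi.single 1 (1 / (m : ℝ)) := by
  funext l
  rw [Pi.add_apply]
  by_cases h1 : l = 1
  · subst h1
    have h10 : (1 : Fin (k + 2)) ≠ 0 := by simp
    simp only [T, if_neg h10, if_true, Pi.single_eq_same]
    push_cast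
    ring
  · rw [Pi.single_eq_of_ne h1]
    simp only [T, if_neg h1, add_zero]

theorem T_face0 (i j : ℕ) (z : Fin (k + 1) → ℝ) :
    T k m i j ((0 : Fin (k + 2)).insertNth (1 : ℝ) z : Fin (k + 2) → ℝ) =
      T k m (i + 1) j ((0 : Fin (k + 2)).insertNth (0 : ℝ) z : Fin (k + 2) → ℝ) := by
  funext l
  have h10 : (1 : Fin (k + 2)) ≠ 0 := by simp
  by_cases h0 : l = 0
  · subst h0
    simp only [T, if_true, Fin.insertNth_apply_same]
    push_cast
    ring
  · simp only [T, if_neg h0]
    rw [ins_ne 0 1 0 z h10, ins_ne 0 1 0 z h0]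

theorem T_face1 (i j : ℕ) (z : Fin (k + 1) → ℝ) :
    T k m i j ((1 : Fin (k + 2)).insertNth (1 : ℝ) z : Fin (k + 2) → ℝ) =
      T k m i (j + 1) ((1 : Fin (k + 2)).insertNth (0 : ℝ) z : Fin (k + 2) → ℝ) := by
  funext l
  have h10 : (1 : Fin (k + 2)) ≠ 0 := by simp
  by_cases h1 : l = 1
  · subst h1
    simp only [T, if_neg h10, if_true, Fin.insertNth_apply_same]
    push_cast
    ring
  · simp only [T, if_neg h1]
    rw [ins_ne 1 1 0 z h10.symm, ins_ne 1 1 0 z h1]

/-- weights -/
noncomputable def wt (m : ℕ) (l : Fin (k + 2)) : ℝ := if l = 0 then m else if l = 1 then m else 1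

theorem wt_ne (hm : 0 < m) (l : Fin (k + 2)) : wt m l ≠ 0 := by
  have : (m : ℝ) ≠ 0 := by positivity
  unfold wt
  split_ifs
  · exact this
  · exact this
  · exact one_ne_zero

/-- the linear part of `T` -/
noncomputable def LT (k m : ℕ) : (Fin (k + 2) → ℝ) →L[ℝ] (Fin (k + 2) → ℝ) :=
  ContinuousLinearMap.pi (fun l => (wt m l)⁻¹ • ContinuousLinearMap.proj (R := ℝ) (φ := fun _ : Fin (k + 2) => ℝ) l)

theorem T_eq (i j : ℕ) (z : Fin (k + 2) → ℝ) : T k m i j z = LT k m z + T k m i j 0 := by
  funext l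
  have h : LT k m z l = (wt m l)⁻¹ * z l := rfl
  rw [Pi.add_apply, h]
  unfold wt
  by_cases h0 : l = 0
  · subst h0
    simp only [T, if_true, Pi.zero_apply]
    ring
  · by_cases h1 : l = 1
    · subst h1
      simp only [T, if_neg h0, if_true, Pi.zero_apply]
      ring
    · simp only [T, if_neg h0, if_neg h1, Pi.zero_apply]
      ring

theorem LT_single (l : Fin (k + 2)) :
    LT k m (Pi.single l 1) = (wt m l)⁻¹ • (Pi.single l (1 : ℝ) : Fin (k + 2) → ℝ) := by
  funext l'
  have h : LT k m (Pi.single l 1) l' = (wt m l')⁻¹ * (Pi.single l (1 : ℝ) : Fin (k + 2) → ℝ) l' := rfl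
  rw [h, Pi.smul_apply, smul_eq_mul]
  by_cases hl : l' = l
  · rw [hl]
  · rw [Pi.single_eq_of_ne hl, mul_zero, mul_zero]

theorem hasT (i j : ℕ) (z : Fin (k + 2) → ℝ) : HasFDerivAt (T k m i j) (LT k m) z := by
  have h : T k m i j = fun z => LT k m z + T k m i j 0 := funext (T_eq i j)
  rw [h]
  exact (LT k m).hasFDerivAt.add_const _

theorem contT (i j : ℕ) : Continuous (T k m i j) := by
  have h : T k m i j = fun z => LT k m z + T k m i j 0 := funext (T_eq i j)
  rw [h]
  exact (LT k m).continuous.add continuous_const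

end E1b

open E1b

theorem t_E1 : S_E1 := by
  intro k m hm C F hF hLip
  have hm' : (0 : ℝ) < m := by exact_mod_cast hm
  have hFc : Continuous F := hF.continuous
  set A : Fin (k + 2) → ℝ → ℕ → ℕ → ℝ := fun l b i j =>
    ∫ z in Set.Icc (0 : Fin (k + 1) → ℝ) 1,
      F (T k m i j (l.insertNth b z : Fin (k + 2) → ℝ)) l with hA
  have hcont : ∀ (l : Fin (k + 2)) (b : ℝ) (i j : ℕ), Continuous (fun z : Fin (k + 1) → ℝ =>
      F (T k m i j (l.insertNth b z : Fin (k + 2) → ℝ)) l) := by
    intro l b i j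
    have h1 : Continuous (fun z : Fin (k + 1) → ℝ => (l.insertNth b z : Fin (k + 2) → ℝ)) := by
      refine continuous_pi fun l' => ?_
      by_cases h : l' = l
      · subst h
        simp only [Fin.insertNth_apply_same]
        exact continuous_const
      · obtain ⟨l'', rfl⟩ := Fin.exists_succAbove_eq h
        simp only [Fin.insertNth_apply_succAbove]
        exact continuous_apply _
    exact (continuous_apply l).comp (hFc.comp ((contT i j).comp h1))
  have hint : ∀ (l : Fin (k + 2)) (b : ℝ) (i j : ℕ), IntegrableOn (fun z : Fin (k + 1) → ℝ =>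
      F (T k m i j (l.insertNth b z : Fin (k + 2) → ℝ)) l) (Set.Icc (0 : Fin (k + 1) → ℝ) 1) :=
    fun l b i j => (hcont l b i j).integrableOn_Icc
  have hvol : (volume : Measure (Fin (k + 1) → ℝ)).real (Set.Icc 0 1) = 1 := by
    rw [Measure.real, Real.volume_Icc_pi]
    simp
  have hA1 : ∀ l b i j, |A l b (i + 1) j - A l b i j| ≤ C * (1 / m) := by
    intro l b i j
    rw [hA]
    simp only
    rw [← integral_sub (hint l b (i + 1) j) (hint l b i j)]
    have := norm_setIntegral_le_of_norm_le_const (μ := volume)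
      (s := Set.Icc (0 : Fin (k + 1) → ℝ) 1) (C := C * (1 / m))
      (f := fun z : Fin (k + 1) → ℝ => F (T k m (i + 1) j (l.insertNth b z : Fin (k + 2) → ℝ)) l -
        F (T k m i j (l.insertNth b z : Fin (k + 2) → ℝ)) l)
      (by rw [Real.volume_Icc_pi]; simp) (fun z _ => by
        rw [Real.norm_eq_abs, T_i]
        have := hLip l 0 (T k m i j (l.insertNth b z : Fin (k + 2) → ℝ)) (1 / m)
        rwa [abs_of_pos (by positivity : (0 : ℝ) < 1 / m)] at this)
    rwa [hvol, mul_one, Real.norm_eq_abs] at this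
  have hA2 : ∀ l b i j, |A l b i (j + 1) - A l b i j| ≤ C * (1 / m) := by
    intro l b i j
    rw [hA]
    simp only
    rw [← integral_sub (hint l b i (j + 1)) (hint l b i j)]
    have := norm_setIntegral_le_of_norm_le_const (μ := volume)
      (s := Set.Icc (0 : Fin (k + 1) → ℝ) 1) (C := C * (1 / m))
      (f := fun z : Fin (k + 1) → ℝ => F (T k m i (j + 1) (l.insertNth b z : Fin (k + 2) → ℝ)) l -
        F (T k m i j (l.insertNth b z : Fin (k + 2) → ℝ)) l)
      (by rw [Real.volume_Icc_pi]; simp) (fun z _ => by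
        rw [Real.norm_eq_abs, T_j]
        have := hLip l 1 (T k m i j (l.insertNth b z : Fin (k + 2) → ℝ)) (1 / m)
        rwa [abs_of_pos (by positivity : (0 : ℝ) < 1 / m)] at this)
    rwa [hvol, mul_one, Real.norm_eq_abs] at this
  have hmul : ∀ x y : ℝ, |x - y| ≤ C * (1 / m) → |m * x - m * y| ≤ C := by
    intro x y h
    rw [← mul_sub, abs_mul, abs_of_pos hm']
    calc (m : ℝ) * |x - y| ≤ m * (C * (1 / m)) := mul_le_mul_of_nonneg_left h hm'.le
      _ = C := by field_simp
  have hg : ∀ (f f' : Fin k → ℝ → ℝ), (∀ l b, |f' l b - f l b| ≤ C * (1 / m)) →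
      |∑ l, (f' l 1 - f' l 0) - ∑ l, (f l 1 - f l 0)| ≤ 2 * k * C / m := by
    intro f f' h
    rw [← Finset.sum_sub_distrib]
    refine (Finset.abs_sum_le_sum_abs _ _).trans ?_
    have h1 : ∀ l ∈ (Finset.univ : Finset (Fin k)),
        |f' l 1 - f' l 0 - (f l 1 - f l 0)| ≤ 2 * (C * (1 / m)) := by
      intro l _
      have e : f' l 1 - f' l 0 - (f l 1 - f l 0) = (f' l 1 - f l 1) - (f' l 0 - f l 0) := by ring
      rw [e]
      have := abs_sub (f' l 1 - f l 1) (f' l 0 - f l 0)
      linarith [h l 1, h l 0]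
    refine (Finset.sum_le_card_nsmul _ _ _ h1).trans (le_of_eq ?_)
    rw [Finset.card_univ, Fintype.card_fin, nsmul_eq_mul]
    ring
  refine ⟨fun i j => m * A 0 0 i j, fun i j => m * A 1 0 i j,
    fun i j => ∑ l : Fin k, (A l.succ.succ 1 i j - A l.succ.succ 0 i j), ?_, ?_, ?_, ?_⟩
  · exact fun i j => ⟨hmul _ _ (hA1 0 0 i j), hmul _ _ (hA2 0 0 i j)⟩
  · exact fun i j => ⟨hmul _ _ (hA1 1 0 i j), hmul _ _ (hA2 1 0 i j)⟩
  · exact fun i j => ⟨hg (fun l b => A l.succ.succ b i j) (fun l b => A l.succ.succ b (i + 1) j)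
      (fun l b => hA1 _ b i j), hg (fun l b => A l.succ.succ b i j)
      (fun l b => A l.succ.succ b i (j + 1)) (fun l b => hA2 _ b i j)⟩
  · intro i j
    set G : (Fin (k + 2) → ℝ) → (Fin (k + 2) → ℝ) := fun z l => wt m l * F (T k m i j z) l with hG
    set G' : (Fin (k + 2) → ℝ) → (Fin (k + 2) → ℝ) →L[ℝ] (Fin (k + 2) → ℝ) := fun z =>
      ContinuousLinearMap.pi (fun l => wt m l •
        ((ContinuousLinearMap.proj (R := ℝ) (φ := fun _ : Fin (k + 2) => ℝ) l).comp
          ((fderiv ℝ F (T k m i j z)).comp (LT k m)))) with hG'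
    have hGc : Continuous G := by
      refine continuous_pi fun l => ?_
      exact continuous_const.mul ((continuous_apply l).comp (hFc.comp (contT i j)))
    have hGd : ∀ z, HasFDerivAt G (G' z) z := by
      intro z
      rw [hasFDerivAt_pi']
      intro l
      have h1 : HasFDerivAt F (fderiv ℝ F (T k m i j z)) (T k m i j z) :=
        (hF.differentiable one_ne_zero _).hasFDerivAt
      have h2 := h1.comp z (hasT i j z)
      have h3 := (hasFDerivAt_pi'.1 h2) l
      exact h3.const_mul (wt m l)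
    have hdiv : ∀ z, ∑ l, G' z (Pi.single l 1) l = divF F (T k m i j z) := by
      intro z
      unfold divF
      refine Finset.sum_congr rfl fun l _ => ?_
      show wt m l * (fderiv ℝ F (T k m i j z) (LT k m (Pi.single l 1))) l = _
      rw [LT_single, map_smul, Pi.smul_apply, smul_eq_mul, ← mul_assoc,
        mul_inv_cancel₀ (wt_ne hm l), one_mul]
    have hdc : Continuous (fun z => divF F (T k m i j z)) := by
      unfold divF
      refine continuous_finset_sum _ fun l _ => ?_
      have h1 : Continuous (fderiv ℝ F) := hF.continuous_fderiv one_ne_zero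
      exact (continuous_apply l).comp ((h1.comp (contT i j)).clm_apply continuous_const)
    have key := integral_divergence_of_hasFDerivAt_off_countable (E := ℝ)
      (a := (0 : Fin (k + 2) → ℝ)) (b := 1) (by intro l; exact zero_le_one) G G' ∅
      Set.countable_empty hGc.continuousOn (fun z _ => hGd z) (by
        simp only [hdiv]
        exact hdc.integrableOn_Icc)
    simp only [hdiv] at key
    rw [key, Fin.sum_univ_succ, Fin.sum_univ_succ]
    have e0 : ∀ (l : Fin (k + 2)) (b : ℝ), (∫ z in Set.Icc ((0 : Fin (k + 2) → ℝ) ∘ l.succAbove)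
        ((1 : Fin (k + 2) → ℝ) ∘ l.succAbove), G (l.insertNth b z) l) = wt m l * A l b i j := by
      intro l b
      rw [hA]
      simp only
      rw [← integral_const_mul]
      rfl
    have e1 : A 0 1 i j = A 0 0 (i + 1) j := by
      rw [hA]
      simp only [T_face0]
    have e2 : A 1 1 i j = A 1 0 i (j + 1) := by
      rw [hA]
      simp only [T_face1]
    simp only [Pi.zero_apply, Pi.one_apply, e0]
    have w0 : wt m (0 : Fin (k + 2)) = m := by simp [wt]
    have w1 : wt m ((0 : Fin (k + 1)).succ : Fin (k + 2)) = m := by simp [wt]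
    have w2 : ∀ l : Fin k, wt m (l.succ.succ : Fin (k + 2)) = 1 := by
      intro l
      have h0 : (l.succ.succ : Fin (k + 2)) ≠ 0 := Fin.succ_ne_zero _
      have h1 : (l.succ.succ : Fin (k + 2)) ≠ 1 := by
        intro h
        have := congrArg Fin.val h
        simp at this
      simp [wt, h0, h1]
    have s1 : ((0 : Fin (k + 1)).succ : Fin (k + 2)) = 1 := rfl
    rw [w0, w1]
    simp only [w2, one_mul]
    rw [s1, e1, e2]
    ring

end Pool.Agent.R363.LF
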