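import Pool.Agent.R363.LF.Stm

namespace Pool.Agent.R363.LF

open MeasureTheory Finset

namespace E1Aux

lemma vol_face (k : ℕ) : volume (Set.Icc (0 : Fin (k + 1) → ℝ) 1) = 1 := by
  rw [Real.volume_Icc_pi]; simp

lemma int_diff {k : ℕ} {f g : (Fin (k + 1) → ℝ) → ℝ} (hf : Continuous f) (hg : Continuous g) {δ : ℝ}
    (h : ∀ z, |f z - g z| ≤ δ) :
    |(∫ z in Set.Icc (0 : Fin (k + 1) → ℝ) 1, f z) - ∫ z in Set.Icc (0 : Fin (k + 1) → ℝ) 1, g z| ≤ δ := by
  have hK : IsCompact (Set.Icc (0 : Fin (k + 1) → ℝ) 1) := isCompact_Icc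
  rw [← integral_sub (hf.continuousOn.integrableOn_compact hK) (hg.continuousOn.integrableOn_compact hK)]
  have h1 := norm_setIntegral_le_of_norm_le_const (μ := volume) (s := Set.Icc (0 : Fin (k + 1) → ℝ) 1)
    (f := fun z => f z - g z) (C := δ) (by rw [vol_face]; exact ENNReal.one_lt_top) (fun z _ => h z)
  rw [Real.norm_eq_abs, measureReal_def, vol_face] at h1
  simpa using h1

/-- the scaling factors -/
noncomputable def co (k m : ℕ) (l : Fin (k + 2)) : ℝ := if l = 0 then m else if l = 1 then m else 1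

lemma co_pos {k m : ℕ} (hm : 0 < m) (l : Fin (k + 2)) : 0 < co k m l := by
  unfold co
  have : (0:ℝ) < m := by exact_mod_cast hm
  split_ifs <;> positivity

noncomputable def DD (k m : ℕ) : (Fin (k + 2) → ℝ) →L[ℝ] (Fin (k + 2) → ℝ) :=
  ContinuousLinearMap.pi fun l => (co k m l)⁻¹ • ContinuousLinearMap.proj l

noncomputable def MM (k m : ℕ) : (Fin (k + 2) → ℝ) →L[ℝ] (Fin (k + 2) → ℝ) :=
  ContinuousLinearMap.pi fun l => co k m l • ContinuousLinearMap.proj l

lemma T_eq (k m i j : ℕ) : T k m i j = fun z => DD k m z + T k m i j 0 := by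
  funext z l
  simp only [T, DD, co, Pi.add_apply, ContinuousLinearMap.coe_pi', ContinuousLinearMap.smul_apply,
    ContinuousLinearMap.proj_apply, smul_eq_mul, Pi.zero_apply]
  by_cases h0 : l = 0
  · subst h0
    simp only [if_true]
    ring
  · by_cases h1 : l = 1
    · subst h1
      simp only [h0, if_true, if_false]
      ring
    · simp only [h0, h1, if_false]
      ring

lemma T_fd (k m i j : ℕ) (z : Fin (k + 2) → ℝ) : HasFDerivAt (T k m i j) (DD k m) z := by
  rw [T_eq]
  exact (DD k m).hasFDerivAt.add_const _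

lemma T_cont (k m i j : ℕ) : Continuous (T k m i j) := by
  rw [T_eq]
  exact (DD k m).continuous.add continuous_const

lemma DD_single {k m : ℕ} (l : Fin (k + 2)) :
    DD k m (Pi.single l 1) = (co k m l)⁻¹ • (Pi.single l 1 : Fin (k + 2) → ℝ) := by
  funext r
  simp only [DD, ContinuousLinearMap.coe_pi', ContinuousLinearMap.smul_apply,
    ContinuousLinearMap.proj_apply, smul_eq_mul, Pi.smul_apply]
  by_cases h : r = l
  · subst h; simp
  · simp [Pi.single_eq_of_ne h]

lemma divF_cont {k : ℕ} {F : (Fin (k + 2) → ℝ) → (Fin (k + 2) → ℝ)} (hF : ContDiff ℝ 1 F) :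
    Continuous (divF F) := by
  unfold divF
  have hc : Continuous (fderiv ℝ F) := hF.continuous_fderiv (by norm_num)
  exact continuous_finsetSum _ fun l _ => (continuous_apply l).comp (hc.clm_apply continuous_const)

lemma T_i (k m i j : ℕ) (z : Fin (k + 2) → ℝ) :
    T k m (i + 1) j z = T k m i j z + Pi.single 0 (1 / (m:ℝ)) := by
  funext l
  simp only [T, Pi.add_apply]
  by_cases h0 : l = 0
  · subst h0; simp; ring
  · simp [h0, Pi.single_eq_of_ne h0]

lemma T_j (k m i j : ℕ) (z : Fin (k + 2) → ℝ) :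
    T k m i (j + 1) z = T k m i j z + Pi.single 1 (1 / (m:ℝ)) := by
  funext l
  simp only [T, Pi.add_apply]
  by_cases h0 : l = 0
  · subst h0
    rw [Pi.single_eq_of_ne (by simp)]; simp
  · by_cases h1 : l = 1
    · subst h1; simp; ring
    · simp [h0, h1, Pi.single_eq_of_ne h1]

/-- the face averages -/
noncomputable def AA {k : ℕ} (m : ℕ) (F : (Fin (k + 2) → ℝ) → (Fin (k + 2) → ℝ)) (l : Fin (k + 2)) (c : ℝ)
    (i j : ℕ) : ℝ :=
  ∫ z in Set.Icc (0 : Fin (k + 1) → ℝ) 1, F (T k m i j (l.insertNth c z)) l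

lemma AA_cont {k m : ℕ} {F : (Fin (k + 2) → ℝ) → (Fin (k + 2) → ℝ)} (hF : Continuous F) (l : Fin (k + 2)) (c : ℝ)
    (i j : ℕ) : Continuous fun z : Fin (k + 1) → ℝ => F (T k m i j (l.insertNth c z)) l := by
  have h1 : Continuous fun z : Fin (k + 1) → ℝ => (l.insertNth c z : Fin (k + 2) → ℝ) :=
    continuous_const.finInsertNth l continuous_id
  exact (continuous_apply l).comp (hF.comp ((T_cont k m i j).comp h1))

lemma AA_i {k m : ℕ} {F : (Fin (k + 2) → ℝ) → (Fin (k + 2) → ℝ)} {C : ℝ} (hF : Continuous F) (hL : LipF C F)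
    (l : Fin (k + 2)) (c : ℝ) (i j : ℕ) : |AA m F l c (i + 1) j - AA m F l c i j| ≤ C / m := by
  unfold AA
  refine int_diff (AA_cont hF l c (i + 1) j) (AA_cont hF l c i j) fun z => ?_
  rw [T_i]
  refine (hL l 0 _ _).trans (le_of_eq ?_)
  rw [abs_of_nonneg (by positivity)]; ring

lemma AA_j {k m : ℕ} {F : (Fin (k + 2) → ℝ) → (Fin (k + 2) → ℝ)} {C : ℝ} (hF : Continuous F) (hL : LipF C F)
    (l : Fin (k + 2)) (c : ℝ) (i j : ℕ) : |AA m F l c i (j + 1) - AA m F l c i j| ≤ C / m := by
  unfold AA
  refine int_diff (AA_cont hF l c i (j + 1)) (AA_cont hF l c i j) fun z => ?_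
  rw [T_j]
  refine (hL l 1 _ _).trans (le_of_eq ?_)
  rw [abs_of_nonneg (by positivity)]; ring

lemma div_thm {k m : ℕ} (hm : 0 < m) {F : (Fin (k + 2) → ℝ) → (Fin (k + 2) → ℝ)} (hF : ContDiff ℝ 1 F)
    (i j : ℕ) : ∫ z in Set.Icc (0 : Fin (k + 2) → ℝ) 1, divF F (T k m i j z) =
      ∑ l : Fin (k + 2), (co k m l * AA m F l 1 i j - co k m l * AA m F l 0 i j) := by
  have hFd : Differentiable ℝ F := hF.differentiable (by norm_num)
  have hG : ∀ z, HasFDerivAt (fun z => MM k m (F (T k m i j z)))
      ((MM k m).comp ((fderiv ℝ F (T k m i j z)).comp (DD k m))) z := fun z =>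
    (MM k m).hasFDerivAt.comp z ((hFd (T k m i j z)).hasFDerivAt.comp z (T_fd k m i j z))
  have hdiv : ∀ z, ∑ l : Fin (k + 2), ((MM k m).comp ((fderiv ℝ F (T k m i j z)).comp (DD k m)))
      (Pi.single l 1) l = divF F (T k m i j z) := by
    intro z
    unfold divF
    refine sum_congr rfl fun l _ => ?_
    rw [ContinuousLinearMap.comp_apply, ContinuousLinearMap.comp_apply, DD_single, map_smul]
    have hc := (co_pos (k := k) hm l).ne'
    simp only [MM, ContinuousLinearMap.coe_pi', ContinuousLinearMap.smul_apply,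
      ContinuousLinearMap.proj_apply, smul_eq_mul, Pi.smul_apply]
    field_simp
  have hcont : Continuous fun z => divF F (T k m i j z) := (divF_cont hF).comp (T_cont k m i j)
  have hmain := integral_divergence_of_hasFDerivAt_off_countable (0 : Fin (k + 2) → ℝ) 1 zero_le_one
    (fun z => MM k m (F (T k m i j z))) (fun z => (MM k m).comp ((fderiv ℝ F (T k m i j z)).comp (DD k m)))
    ∅ Set.countable_empty
    ((MM k m).continuous.comp (hF.continuous.comp (T_cont k m i j))).continuousOn
    (fun z _ => hG z)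
    (by
      have e : (fun z => ∑ l : Fin (k + 2), ((MM k m).comp ((fderiv ℝ F (T k m i j z)).comp (DD k m)))
        (Pi.single l 1) l) = fun z => divF F (T k m i j z) := funext hdiv
      rw [e]
      exact hcont.continuousOn.integrableOn_compact isCompact_Icc)
  simp only [hdiv] at hmain
  rw [hmain]
  refine sum_congr rfl fun l _ => ?_
  have e1 : ∀ c : ℝ, (∫ x in Set.Icc ((0 : Fin (k + 2) → ℝ) ∘ l.succAbove) ((1 : Fin (k + 2) → ℝ) ∘ l.succAbove),
      MM k m (F (T k m i j (l.insertNth c x))) l) = co k m l * AA m F l c i j := by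
    intro c
    have e2 : (0 : Fin (k + 2) → ℝ) ∘ l.succAbove = (0 : Fin (k + 1) → ℝ) := rfl
    have e3 : (1 : Fin (k + 2) → ℝ) ∘ l.succAbove = (1 : Fin (k + 1) → ℝ) := rfl
    rw [e2, e3]
    unfold AA
    rw [← integral_const_mul]
    rfl
  rw [← e1 1, ← e1 0]
  rfl

end E1Aux

open E1Aux

theorem t_E1 : S_E1 := by
  intro k m hm C F hF hL
  have hFc : Continuous F := hF.continuous
  have hm0 : (0:ℝ) < m := by exact_mod_cast hm
  refine ⟨fun i j => m * AA m F 0 0 i j, fun i j => m * AA m F 1 0 i j,
    fun i j => ∑ r : Fin k, (AA m F r.succ.succ 1 i j - AA m F r.succ.succ 0 i j), ?_, ?_, ?_, ?_⟩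
  · intro i j
    have h1 := AA_i (m := m) hFc hL 0 0 i j
    have h2 := AA_j (m := m) hFc hL 0 0 i j
    constructor
    · simp only
      rw [← mul_sub, abs_mul, abs_of_pos hm0]
      calc (m:ℝ) * _ ≤ m * (C / m) := by gcongr
        _ = C := by field_simp
    · simp only
      rw [← mul_sub, abs_mul, abs_of_pos hm0]
      calc (m:ℝ) * _ ≤ m * (C / m) := by gcongr
        _ = C := by field_simp
  · intro i j
    have h1 := AA_i (m := m) hFc hL 1 0 i j
    have h2 := AA_j (m := m) hFc hL 1 0 i j
    constructor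
    · simp only
      rw [← mul_sub, abs_mul, abs_of_pos hm0]
      calc (m:ℝ) * _ ≤ m * (C / m) := by gcongr
        _ = C := by field_simp
    · simp only
      rw [← mul_sub, abs_mul, abs_of_pos hm0]
      calc (m:ℝ) * _ ≤ m * (C / m) := by gcongr
        _ = C := by field_simp
  · intro i j
    constructor
    · simp only
      rw [← sum_sub_distrib]
      refine (abs_sum_le_sum_abs _ _).trans ?_
      calc _ ≤ ∑ _r : Fin k, (2 * C / m) := by
            refine sum_le_sum fun r _ => ?_
            have h1 := abs_le.mp (AA_i (m := m) hFc hL r.succ.succ 1 i j)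
            have h2 := abs_le.mp (AA_i (m := m) hFc hL r.succ.succ 0 i j)
            have e : 2 * C / m = C / m + C / m := by ring
            rw [e, abs_le]
            constructor <;> linarith
        _ = 2 * k * C / m := by rw [sum_const, card_univ, Fintype.card_fin, nsmul_eq_mul]; ring
    · simp only
      rw [← sum_sub_distrib]
      refine (abs_sum_le_sum_abs _ _).trans ?_
      calc _ ≤ ∑ _r : Fin k, (2 * C / m) := by
            refine sum_le_sum fun r _ => ?_
            have h1 := abs_le.mp (AA_j (m := m) hFc hL r.succ.succ 1 i j)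
            have h2 := abs_le.mp (AA_j (m := m) hFc hL r.succ.succ 0 i j)
            have e : 2 * C / m = C / m + C / m := by ring
            rw [e, abs_le]
            constructor <;> linarith
        _ = 2 * k * C / m := by rw [sum_const, card_univ, Fintype.card_fin, nsmul_eq_mul]; ring
  · intro i j
    rw [div_thm hm hF, Fin.sum_univ_succ, Fin.sum_univ_succ]
    have hA : AA m F 0 1 i j = AA m F 0 0 (i + 1) j := by
      unfold AA
      congr 1
      funext z
      have : T k m i j ((0 : Fin (k + 2)).insertNth 1 z) = T k m (i + 1) j ((0 : Fin (k + 2)).insertNth 0 z) := by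
        funext l
        refine Fin.cases ?_ (fun l => ?_) l
        · simp [T]
        · simp [T, Fin.insertNth_zero']
      rw [this]
    have hB : AA m F 1 1 i j = AA m F 1 0 i (j + 1) := by
      unfold AA
      congr 1
      funext z
      have : T k m i j ((1 : Fin (k + 2)).insertNth 1 z) = T k m i (j + 1) ((1 : Fin (k + 2)).insertNth 0 z) := by
        funext l
        by_cases h1 : l = 1
        · subst h1; simp [T]
        · obtain ⟨l', rfl⟩ := Fin.exists_succAbove_eq h1
          by_cases h0 : (1 : Fin (k + 2)).succAbove l' = 0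
          · simp only [T, h0, if_true]
            rw [← h0, Fin.insertNth_apply_succAbove, Fin.insertNth_apply_succAbove]
          · simp only [T, h0, h1, if_false]
            rw [Fin.insertNth_apply_succAbove, Fin.insertNth_apply_succAbove]
      rw [this]
    have c0 : co k m 0 = m := by simp [co]
    have c1 : co k m (Fin.succ 0) = m := by simp [co]
    have c2 : ∀ r : Fin k, co k m r.succ.succ = 1 := by
      intro r
      have h1 : r.succ.succ ≠ (1 : Fin (k + 2)) := by
        intro h
        have := congrArg Fin.val h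
        simp at this
      simp [co, h1]
    have hs1 : (Fin.succ 0 : Fin (k + 2)) = 1 := rfl
    simp only [c0, c1, c2, one_mul]
    rw [hs1, hA, hB]
    ring

end Pool.Agent.R363.LF
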