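import Pool.Agent.R363.LF.Stm

namespace Pool.Agent.R363.LF

open MeasureTheory Finset

namespace E2aux

variable {k : ℕ}

lemma C_nonneg {C : ℝ} {F : (Fin (k + 2) → ℝ) → (Fin (k + 2) → ℝ)} (hL : LipF C F) : 0 ≤ C := by
  have := hL 0 0 0 1
  rw [abs_one, mul_one] at this
  exact (abs_nonneg _).trans this

lemma fd_bound {C : ℝ} {F : (Fin (k + 2) → ℝ) → (Fin (k + 2) → ℝ)} (hF : ContDiff ℝ 1 F)
    (hL : LipF C F) (x : Fin (k + 2) → ℝ) (l : Fin (k + 2)) :
    |fderiv ℝ F x (Pi.single l 1) l| ≤ C := by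
  have h1 : HasFDerivAt F (fderiv ℝ F x) (x + (0 : ℝ) • (Pi.single l 1 : Fin (k + 2) → ℝ)) := by
    rw [zero_smul, add_zero]
    exact (hF.differentiable (by norm_num) x).hasFDerivAt
  have h2 : HasDerivAt (fun t : ℝ => x + t • (Pi.single l 1 : Fin (k + 2) → ℝ))
      (Pi.single l 1 : Fin (k + 2) → ℝ) 0 := by
    have := ((hasDerivAt_id (0 : ℝ)).smul_const (Pi.single l 1 : Fin (k + 2) → ℝ)).const_add x
    simpa using this
  have h3 := h1.comp_hasDerivAt (0 : ℝ) h2
  have h4 := (hasDerivAt_pi.mp h3) l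
  have h5 := h4.le_of_lip' (C := C) (C_nonneg hL) (Filter.Eventually.of_forall fun t => by
    have := hL l l x t
    have e : x + t • (Pi.single l 1 : Fin (k + 2) → ℝ) = x + Pi.single l t := by
      congr 1
      ext a
      by_cases ha : a = l
      · subst ha; simp
      · simp [ha]
    simp only [Function.comp_apply, zero_smul, add_zero, sub_zero, Real.norm_eq_abs]
    rw [e]
    exact this)
  simpa using h5

lemma div_bound {C : ℝ} {F : (Fin (k + 2) → ℝ) → (Fin (k + 2) → ℝ)} (hF : ContDiff ℝ 1 F)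
    (hL : LipF C F) (x : Fin (k + 2) → ℝ) : |divF F x| ≤ (k + 2) * C := by
  unfold divF
  refine (abs_sum_le_sum_abs _ _).trans ?_
  refine (sum_le_sum fun l _ => fd_bound hF hL x l).trans ?_
  simp

lemma div_cont {F : (Fin (k + 2) → ℝ) → (Fin (k + 2) → ℝ)} (hF : ContDiff ℝ 1 F) :
    Continuous (divF F) := by
  unfold divF
  apply continuous_finsetSum
  intro l _
  have h1 : Continuous (fderiv ℝ F) := hF.continuous_fderiv (by norm_num)
  exact (continuous_apply l).comp (h1.clm_apply continuous_const)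

lemma T_cont (m i j : ℕ) : Continuous (T k m i j) := by
  unfold T
  apply continuous_pi
  intro l
  by_cases h0 : l = 0
  · simp only [h0, if_true]
    fun_prop
  · by_cases h1 : l = 1
    · simp only [h1, if_true]
      split_ifs
      · fun_prop
      · fun_prop
    · simp only [h0, h1, if_false]
      fun_prop

/-- the diagonal entries -/
noncomputable def d (k m : ℕ) (l : Fin (k + 2)) : ℝ := if l = 0 then 1 / m else if l = 1 then 1 / m else 1

noncomputable def v (k m i j : ℕ) (l : Fin (k + 2)) : ℝ :=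
  if l = 0 then (i : ℝ) / m else if l = 1 then (j : ℝ) / m else 0

lemma T_eq (m i j : ℕ) (z : Fin (k + 2) → ℝ) :
    T k m i j z = Matrix.toLin' (Matrix.diagonal (d k m)) z + v k m i j := by
  ext l
  rw [Pi.add_apply, Matrix.toLin'_apply, Matrix.mulVec_diagonal]
  unfold T d v
  by_cases h0 : l = 0
  · subst h0; simp; ring
  · by_cases h1 : l = 1
    · subst h1; simp; ring
    · simp [h0, h1]

lemma det_eq (m : ℕ) : LinearMap.det (Matrix.toLin' (Matrix.diagonal (d k m))) =
    1 / (m : ℝ) ^ 2 := by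
  rw [LinearMap.det_toLin', Matrix.det_diagonal, Fin.prod_univ_succ, Fin.prod_univ_succ]
  have h1 : ∀ l : Fin k, d k m (Fin.succ (Fin.succ l)) = 1 := by
    intro l
    unfold d
    rw [if_neg (Fin.succ_ne_zero _), if_neg]
    intro h
    have := Fin.ext_iff.mp h
    simp at this
  simp only [h1, prod_const_one, mul_one]
  unfold d
  have h2 : (Fin.succ (0 : Fin (k + 1)) : Fin (k + 2)) = 1 := rfl
  rw [h2]
  by_cases h : (1 : Fin (k + 2)) = 0
  · simp
    ring
  · simp
    ring

lemma vol_preimage {m : ℕ} (hm : 0 < m) (i j : ℕ) (S : Set (Fin (k + 2) → ℝ)) :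
    volume (T k m i j ⁻¹' S) = ENNReal.ofReal ((m : ℝ) ^ 2) * volume S := by
  have hm' : (0 : ℝ) < m := by exact_mod_cast hm
  have h1 : T k m i j ⁻¹' S = (Matrix.toLin' (Matrix.diagonal (d k m))) ⁻¹'
      ((fun x => x + v k m i j) ⁻¹' S) := by
    ext z
    simp only [Set.mem_preimage]
    rw [T_eq]
  rw [h1, Measure.addHaar_preimage_linearMap volume (by rw [det_eq]; positivity),
    measure_preimage_add_right, det_eq]
  congr 2
  rw [abs_of_pos (by positivity)]
  field_simp

lemma T_mem {m i j : ℕ} (hm : 0 < m) (hi : i < m) (hj : j < m) {z : Fin (k + 2) → ℝ}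
    (hz : z ∈ Set.Icc (0 : Fin (k + 2) → ℝ) 1) :
    T k m i j z ∈ Set.Icc (0 : Fin (k + 2) → ℝ) 1 := by
  have hm' : (0 : ℝ) < m := by exact_mod_cast hm
  have hi' : (i : ℝ) + 1 ≤ m := by exact_mod_cast hi
  have hj' : (j : ℝ) + 1 ≤ m := by exact_mod_cast hj
  have h0 : ∀ l, 0 ≤ z l := fun l => hz.1 l
  have h1 : ∀ l, z l ≤ 1 := fun l => hz.2 l
  constructor
  · intro l
    unfold T
    simp only [Pi.zero_apply]
    split_ifs
    · have := h0 0; positivity
    · have := h0 1; positivity
    · exact h0 l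
  · intro l
    unfold T
    simp only [Pi.one_apply]
    split_ifs
    · rw [div_le_one hm']; have := h1 0; linarith
    · rw [div_le_one hm']; have := h1 1; linarith
    · exact h1 l

lemma floor_T0 {m i j : ℕ} (hm : 0 < m) {z : Fin (k + 2) → ℝ} (h0 : 0 ≤ z 0) (h1 : z 0 < 1) :
    ⌊(m : ℝ) * T k m i j z 0⌋₊ = i := by
  have hm' : (0 : ℝ) < m := by exact_mod_cast hm
  unfold T
  simp only [if_true]
  rw [mul_div_cancel₀ _ hm'.ne']
  rw [Nat.floor_eq_iff (by positivity)]
  constructor <;> linarith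

lemma floor_T1 {m i j : ℕ} (hm : 0 < m) {z : Fin (k + 2) → ℝ} (h0 : 0 ≤ z 1) (h1 : z 1 < 1) :
    ⌊(m : ℝ) * T k m i j z 1⌋₊ = j := by
  have hm' : (0 : ℝ) < m := by exact_mod_cast hm
  unfold T
  have h10 : (1 : Fin (k + 2)) ≠ 0 := by
    intro h
    have := Fin.ext_iff.mp h
    simp at this
  simp only [if_true, if_neg h10]
  rw [mul_div_cancel₀ _ hm'.ne']
  rw [Nat.floor_eq_iff (by positivity)]
  constructor <;> linarith

end E2aux

open E2aux

theorem t_E2 : S_E2 := by
  intro k m hm C F hF hL h hh K hK hdiv i j hi hj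
  have hC := C_nonneg hL
  set Q : Set (Fin (k + 2) → ℝ) := Set.Icc 0 1 with hQ
  have hQc : IsCompact Q := isCompact_Icc
  have hQm : MeasurableSet Q := measurableSet_Icc
  have hvQ : volume Q = 1 := by
    rw [hQ, Real.volume_Icc_pi]
    simp
  set A : ℝ := (k + 2) * C + 1 with hA
  have hA0 : 0 ≤ A := by positivity
  have hTc : Continuous (T k m i j) := T_cont m i j
  have hDc : Continuous fun z => divF F (T k m i j z) := (div_cont hF).comp hTc
  have hDi : IntegrableOn (fun z => divF F (T k m i j z)) Q := hDc.continuousOn.integrableOn_compact hQc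
  have hhi : IntegrableOn (fun _ : Fin (k + 2) → ℝ => h i j) Q :=
    continuous_const.continuousOn.integrableOn_compact hQc
  have e1 : (∫ z in Q, divF F (T k m i j z)) - h i j = ∫ z in Q, (divF F (T k m i j z) - h i j) := by
    rw [integral_sub hDi hhi, setIntegral_const]
    simp [Measure.real, hvQ]
  rw [e1]
  set B : Set (Fin (k + 2) → ℝ) := Q ∩ T k m i j ⁻¹' Kᶜ with hB
  have hBm : MeasurableSet B :=
    hQm.inter (hTc.measurable hK.measurableSet.compl)
  have hn0 : ∀ᵐ z ∂(volume : Measure (Fin (k + 2) → ℝ)), z 0 ≠ 1 := by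
    rw [ae_iff]
    simp only [not_not]
    exact Measure.pi_hyperplane (fun _ => volume) 0 1
  have hn1 : ∀ᵐ z ∂(volume : Measure (Fin (k + 2) → ℝ)), z 1 ≠ 1 := by
    rw [ae_iff]
    simp only [not_not]
    exact Measure.pi_hyperplane (fun _ => volume) 1 1
  have hpt : ∀ᵐ z ∂(volume.restrict Q), |divF F (T k m i j z) - h i j| ≤
      B.indicator (fun _ => A) z := by
    filter_upwards [ae_restrict_mem hQm, ae_restrict_of_ae hn0, ae_restrict_of_ae hn1]
      with z hz h0 h1
    by_cases hzB : z ∈ B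
    · rw [Set.indicator_of_mem hzB]
      have b1 := div_bound hF hL (T k m i j z)
      have b2 := hh i j
      calc |divF F (T k m i j z) - h i j| ≤ |divF F (T k m i j z)| + |h i j| := abs_sub _ _
        _ ≤ A := by rw [hA]; linarith
    · rw [Set.indicator_of_notMem hzB]
      have hK' : T k m i j z ∈ K := by
        by_contra hc
        exact hzB ⟨hz, hc⟩
      have h00 : 0 ≤ z 0 := hz.1 0
      have h01 : z 0 < 1 := lt_of_le_of_ne (hz.2 0) h0
      have h10 : 0 ≤ z 1 := hz.1 1
      have h11 : z 1 < 1 := lt_of_le_of_ne (hz.2 1) h1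
      rw [hdiv _ hK' (T_mem hm hi hj hz), floor_T0 hm h00 h01, floor_T1 hm h10 h11, sub_self,
        abs_zero]
  have hBQ : B ⊆ Q := Set.inter_subset_left
  have hvB : volume B ≤ ENNReal.ofReal ((m : ℝ) ^ 2) * volume (Q \ K) := by
    rw [← vol_preimage hm i j]
    apply measure_mono
    intro z hz
    exact ⟨T_mem hm hi hj hz.1, hz.2⟩
  have hfin : volume (Q \ K) ≠ ⊤ := by
    have : volume (Q \ K) ≤ volume Q := measure_mono Set.sdiff_subset
    rw [hvQ] at this
    exact ne_top_of_le_ne_top ENNReal.one_ne_top this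
  calc |∫ z in Q, (divF F (T k m i j z) - h i j)|
      ≤ ∫ z in Q, |divF F (T k m i j z) - h i j| := abs_integral_le_integral_abs
    _ ≤ ∫ z in Q, B.indicator (fun _ => A) z := by
        apply integral_mono_ae (hDi.sub hhi).abs _ hpt
        apply Integrable.indicator _ hBm
        exact continuous_const.continuousOn.integrableOn_compact hQc
    _ = (volume B).toReal * A := by
        rw [integral_indicator_const A hBm, Measure.real, Measure.restrict_apply hBm,
          Set.inter_eq_self_of_subset_left hBQ, smul_eq_mul]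
    _ ≤ (m : ℝ) ^ 2 * (volume (Q \ K)).toReal * A := by
        apply mul_le_mul_of_nonneg_right _ hA0
        have := ENNReal.toReal_mono (ENNReal.mul_ne_top ENNReal.ofReal_ne_top hfin) hvB
        rw [ENNReal.toReal_mul, ENNReal.toReal_ofReal (by positivity)] at this
        exact this
    _ = A * (m : ℝ) ^ 2 * (volume (Q \ K)).toReal := by ring

end Pool.Agent.R363.LF
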