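import Mathlib

/-!
# Lusin approximation of top degree forms: definitions and statements of the pieces

`n = k + 2` everywhere in the analytic part.
-/

namespace Pool.Agent.R363.LF

open MeasureTheory Finset

/-- Euclidean `n`-space. -/
abbrev E (n : ℕ) := EuclideanSpace ℝ (Fin n)

/-- Alternating `k`-forms on Euclidean `n`-space; the operator norm is the comass norm. -/
abbrev Form (n k : ℕ) := (E n) [⋀^Fin k]→L[ℝ] ℝ

/-- Smooth compactly supported `k`-forms. -/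
def IsTest {n k : ℕ} (ω : E n → Form n k) : Prop :=
  ContDiff ℝ (⊤ : ℕ∞) ω ∧ HasCompactSupport ω

/-- A `(k+1)`-current of finite mass without boundary (linear functional on test forms). -/
structure IsClosedNormal {n k : ℕ} (N : (E n → Form n (k + 1)) → ℝ) : Prop where
  add : ∀ ω η, IsTest ω → IsTest η → N (ω + η) = N ω + N η
  smul : ∀ (c : ℝ) (ω), IsTest ω → N (c • ω) = c * N ω
  mass : ∃ B : ℝ, ∀ ω, IsTest ω → (∀ x, ‖ω x‖ ≤ 1) → |N ω| ≤ B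
  closed : ∀ η : E n → Form n k, IsTest η → N (fun x => extDeriv η x) = 0

/-- The condition defining the `(k+1)`-dimensional decomposability bundle of `μ` at `x`.
`(k+1)`-vectors are the linear functionals on `(k+1)`-forms. -/
def InV {n k : ℕ} (μ : Measure (E n)) (x : E n) (v : Form n (k + 1) →L[ℝ] ℝ) : Prop :=
  ∃ N : (E n → Form n (k + 1)) → ℝ, IsClosedNormal N ∧
    ∀ ε : ℝ, 0 < ε → ∃ r₀ : ℝ, 0 < r₀ ∧ ∀ r : ℝ, 0 < r → r < r₀ →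
      ∀ ω : E n → Form n (k + 1), IsTest ω → (∀ y, ‖ω y‖ ≤ 1) →
        tsupport ω ⊆ Metric.ball x r →
        |N ω - ∫ y, v (ω y) ∂μ| ≤ ε * (μ (Metric.ball x r)).toReal

/-- The question for `(k+1)`-forms in `n`-space with the constant `C`. -/
def LusinQ (n k : ℕ) (C : ℝ) : Prop :=
  ∀ (μ : Measure (E n)), IsLocallyFiniteMeasure μ → ∀ Ω : Set (E n), IsOpen Ω → μ Ω < ⊤ →
    ∀ ω : E n → Form n (k + 1), StronglyMeasurable ω →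
    (∀ᵐ x ∂(μ.restrict Ω), ∀ τ : Form n (k + 1) →L[ℝ] ℝ, InV μ x τ → τ (ω x) = 0) →
    ∀ W : ℝ, (∀ᵐ x ∂(μ.restrict Ω), ‖ω x‖ ≤ W) →
    ∀ ε : ℝ, 0 < ε → ∃ (φ : E n → Form n k) (K : Set (E n)),
      ContDiffOn ℝ 1 φ Ω ∧ IsCompact K ∧ K ⊆ Ω ∧ μ (Ω \ K) < ENNReal.ofReal ε ∧
      (∀ x ∈ K, extDeriv φ x = ω x) ∧
      ∀ I : Fin k → Fin n, StrictMono I → ∀ x ∈ Ω, ∀ y ∈ Ω,
        |φ x (fun a => EuclideanSpace.single (I a) (1 : ℝ))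
          - φ y (fun a => EuclideanSpace.single (I a) (1 : ℝ))| ≤ C * W * ‖x - y‖

/-! ## The discrete part -/

/-- The test function. -/
noncomputable def U (L : ℕ) : ℕ → ℕ → ℕ → ℝ
  | 0, _, _ => 0
  | N + 1, i, j =>
      if (i / L ^ N) % 2 = 0 then 1 - 2 * U L N (j % L ^ N) (i % L ^ N) else -1

/-- The comparison function. -/
noncomputable def V (L : ℕ) : ℕ → ℕ → ℕ → ℝ
  | 0, _, _ => 0
  | N + 1, i, j =>
      if (i / L ^ N) % 2 = 0 then 1 + 2 * V L N (j % L ^ N) (i % L ^ N) else -1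

/-- Both forward differences of `p` are at most `C`. -/
def Lip (C : ℝ) (p : ℕ → ℕ → ℝ) : Prop :=
  ∀ i j, |p (i + 1) j - p i j| ≤ C ∧ |p i (j + 1) - p i j| ≤ C

def S_D0 : Prop := ∀ (f : ℕ → ℕ → ℝ) (A L : ℕ),
  ∑ i ∈ range (L * A), ∑ j ∈ range (L * A), f i j
    = ∑ a ∈ range L, ∑ b ∈ range L, ∑ i ∈ range A, ∑ j ∈ range A, f (a * A + i) (b * A + j)

def S_D1 : Prop := ∀ L N : ℕ, 2 ≤ L → L % 2 = 0 → ∀ α : ℝ, -1 ≤ α → α ≤ 0 →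
  ((N : ℝ) / 2) * (L : ℝ) ^ (2 * N)
    ≤ ∑ i ∈ range (L ^ N), ∑ j ∈ range (L ^ N), |α + U L N i j|

def S_D2 : Prop := ∀ L N : ℕ, 2 ≤ L → L % 2 = 0 → ∀ (C : ℝ) (p q : ℕ → ℕ → ℝ), 0 ≤ C →
  Lip C p → Lip C q →
  |∑ i ∈ range (L ^ N), ∑ j ∈ range (L ^ N),
    (U L N i j * ((p (i + 1) j - p i j) + (q i (j + 1) - q i j))
      - V L N i j * ((p (i + 1) j - p i j) - (q i (j + 1) - q i j)))| * (L : ℝ)
    ≤ 2 * C * (N : ℝ) * (L : ℝ) ^ (2 * N)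

def S_D3 : Prop := ∀ L N : ℕ, 2 ≤ L → L % 2 = 0 →
  ∑ i ∈ range (L ^ N), ∑ j ∈ range (L ^ N), |V L N i j| ≤ 2 * (L : ℝ) ^ (2 * N)

def S_D4 : Prop := ∀ L N : ℕ, 2 ≤ L → L % 2 = 0 → ∀ (κ : ℝ) (g : ℕ → ℕ → ℝ), 0 ≤ κ →
  Lip κ g →
  |∑ i ∈ range (L ^ N), ∑ j ∈ range (L ^ N), U L N i j * g i j| * (2 * (L : ℝ))
    ≤ (N : ℝ) * κ * (L : ℝ) ^ (3 * N)

/-- The discrete theorem. -/
def S_Disc : Prop := ∀ C : ℝ, 0 ≤ C → ∃ (m : ℕ) (h : ℕ → ℕ → ℝ) (c : ℝ), 0 < m ∧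
  (∀ i j, |h i j| ≤ 1) ∧ 0 < c ∧ ∀ p q g : ℕ → ℕ → ℝ, Lip C p → Lip C q → Lip (C / m) g →
  ∃ i j, i < m ∧ j < m ∧
    c ≤ |(p (i + 1) j - p i j) + (q i (j + 1) - q i j) + g i j - h i j|

/-! ## The fields -/

/-- The affine map of the unit cube onto the cell with indices `i, j`. -/
noncomputable def T (k m i j : ℕ) (z : Fin (k + 2) → ℝ) : Fin (k + 2) → ℝ :=
  fun l => if l = 0 then ((i : ℝ) + z 0) / m else if l = 1 then ((j : ℝ) + z 1) / m else z l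

/-- Divergence. -/
noncomputable def divF {k : ℕ} (F : (Fin (k + 2) → ℝ) → (Fin (k + 2) → ℝ))
    (x : Fin (k + 2) → ℝ) : ℝ :=
  ∑ l, fderiv ℝ F x (Pi.single l 1) l

/-- The components of `F` are `C`-Lipschitz along the coordinate directions. -/
def LipF {k : ℕ} (C : ℝ) (F : (Fin (k + 2) → ℝ) → (Fin (k + 2) → ℝ)) : Prop :=
  ∀ (i l : Fin (k + 2)) (x : Fin (k + 2) → ℝ) (t : ℝ), |F (x + Pi.single l t) i - F x i| ≤ C * |t|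

def S_E1 : Prop := ∀ (k m : ℕ), 0 < m → ∀ (C : ℝ) (F : (Fin (k + 2) → ℝ) → (Fin (k + 2) → ℝ)),
  ContDiff ℝ 1 F → LipF C F →
  ∃ p q g : ℕ → ℕ → ℝ, Lip C p ∧ Lip C q ∧ Lip (2 * k * C / m) g ∧
    ∀ i j : ℕ, (p (i + 1) j - p i j) + (q i (j + 1) - q i j) + g i j
      = ∫ z in Set.Icc (0 : Fin (k + 2) → ℝ) 1, divF F (T k m i j z)

def S_E2 : Prop := ∀ (k m : ℕ), 0 < m → ∀ (C : ℝ) (F : (Fin (k + 2) → ℝ) → (Fin (k + 2) → ℝ)),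
  ContDiff ℝ 1 F → LipF C F → ∀ h : ℕ → ℕ → ℝ, (∀ i j, |h i j| ≤ 1) →
  ∀ K : Set (Fin (k + 2) → ℝ), IsCompact K →
  (∀ x ∈ K, x ∈ Set.Icc (0 : Fin (k + 2) → ℝ) 1 → divF F x = h ⌊(m : ℝ) * x 0⌋₊ ⌊(m : ℝ) * x 1⌋₊) →
  ∀ i j : ℕ, i < m → j < m →
    |(∫ z in Set.Icc (0 : Fin (k + 2) → ℝ) 1, divF F (T k m i j z)) - h i j|
      ≤ ((k + 2) * C + 1) * (m : ℝ) ^ 2
        * (volume (Set.Icc (0 : Fin (k + 2) → ℝ) 1 \ K)).toReal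

def S_T : Prop := ∀ (k : ℕ) (φ : E (k + 2) → Form (k + 2) (k + 1)) (C : ℝ), ContDiff ℝ 1 φ →
  (∀ I : Fin (k + 1) → Fin (k + 2), StrictMono I → ∀ x y,
    |φ x (fun a => EuclideanSpace.single (I a) (1 : ℝ))
      - φ y (fun a => EuclideanSpace.single (I a) (1 : ℝ))| ≤ C * ‖x - y‖) →
  ∃ F : (Fin (k + 2) → ℝ) → (Fin (k + 2) → ℝ), ContDiff ℝ 1 F ∧ LipF C F ∧
    ∀ x, divF F x = extDeriv φ (WithLp.toLp 2 x) (fun a => EuclideanSpace.single a (1 : ℝ))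

/-! ## Currents of top degree -/

def S_V1a : Prop := ∀ (k : ℕ) (ω : E (k + 2) → Form (k + 2) (k + 2)) (a : E (k + 2)), IsTest ω →
  ∃ η : E (k + 2) → Form (k + 2) (k + 1), IsTest η ∧ ∀ x, extDeriv η x = fderiv ℝ ω x a

def S_V1b : Prop := ∀ (k : ℕ) (N : (E (k + 2) → Form (k + 2) (k + 2)) → ℝ),
  IsClosedNormal N → (∀ ω a, IsTest ω → N (fun x => fderiv ℝ ω x a) = 0) →
  ∀ (ω) (a : E (k + 2)), IsTest ω → N (fun x => ω (x - a)) = N ω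

def S_V1c : Prop := ∀ (k : ℕ) (N : (E (k + 2) → Form (k + 2) (k + 2)) → ℝ),
  IsClosedNormal N → (∀ (ω) (a : E (k + 2)), IsTest ω → N (fun x => ω (x - a)) = N ω) →
  ∀ ω, IsTest ω → N ω = 0

/-- The standard volume form, with norm at most one. -/
def S_Vol : Prop := ∀ n : ℕ, ∃ v : Form n n, ‖v‖ ≤ 1 ∧
  v (fun a => EuclideanSpace.single a (1 : ℝ)) = 1 ∧
  ∀ w : Form n n, w = w (fun a => EuclideanSpace.single a (1 : ℝ)) • v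

/-- The closed unit cube. -/
def cubeE (n : ℕ) : Set (E n) := {x | ∀ l, 0 ≤ x l ∧ x l ≤ 1}

/-- The open unit cube. -/
def cubeO (n : ℕ) : Set (E n) := {x | ∀ l, 0 < x l ∧ x l < 1}

def S_V2 : Prop := ∀ (k : ℕ), (∀ N : (E (k + 2) → Form (k + 2) (k + 2)) → ℝ, IsClosedNormal N →
    ∀ ω, IsTest ω → N ω = 0) →
  ∀ x ∈ cubeO (k + 2), ∀ τ : Form (k + 2) (k + 2) →L[ℝ] ℝ,
    InV ((volume : Measure (E (k + 2))).restrict (cubeE (k + 2))) x τ → τ = 0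

/-- The cube: the closed cube is, up to a null set, the open cube. -/
def S_Cube : Prop := ∀ n : ℕ, (volume : Measure (E n)) (cubeE n) = 1 ∧
  (∀ᵐ x ∂((volume : Measure (E n)).restrict (cubeE n)), x ∈ cubeO n) ∧
  ∀ K : Set (E n), IsCompact K →
    IsCompact {x : Fin n → ℝ | WithLp.toLp 2 x ∈ K} ∧
    volume (Set.Icc (0 : Fin n → ℝ) 1 \ {x : Fin n → ℝ | WithLp.toLp 2 x ∈ K})
      = (volume : Measure (E n)) (cubeE n \ K)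

end Pool.Agent.R363.LF
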