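import Pool.Agent.R363.LF.Stm

namespace Pool.Agent.R363.LF

theorem t_T : S_T := by
  intro k φ C hφ hL
  obtain ⟨e, he⟩ : ∃ e : (Fin (k + 2) → ℝ) →L[ℝ] E (k + 2), ∀ x, e x = WithLp.toLp 2 x :=
    ⟨((EuclideanSpace.equiv (Fin (k + 2)) ℝ).symm : (Fin (k + 2) → ℝ) →L[ℝ] E (k + 2)),
      fun x => rfl⟩
  have hes : ∀ (l : Fin (k + 2)) (t : ℝ), e (Pi.single l t) = EuclideanSpace.single l t := by
    intro l t
    rw [he]
    rfl
  have happ : ∀ i : Fin (k + 2), ContDiff ℝ 1
      (fun y => φ y (fun a => EuclideanSpace.single (i.succAbove a) (1 : ℝ))) := by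
    intro i
    exact (ContinuousAlternatingMap.apply ℝ (E (k + 2)) ℝ
      (fun a => EuclideanSpace.single (i.succAbove a) (1 : ℝ))).contDiff.comp hφ
  obtain ⟨G, hG⟩ : ∃ G : Fin (k + 2) → E (k + 2) → ℝ, G = fun i y =>
    (-1 : ℝ) ^ i.val • φ y (fun a => EuclideanSpace.single (i.succAbove a) (1 : ℝ)) := ⟨_, rfl⟩
  have hGc : ∀ i, ContDiff ℝ 1 (G i) := by
    intro i
    rw [hG]
    exact (happ i).const_smul _
  have hGe : ∀ i, ContDiff ℝ 1 (fun x => G i (e x)) := fun i => (hGc i).comp e.contDiff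
  refine ⟨fun x i => G i (e x), contDiff_pi.2 hGe, ?_, ?_⟩
  · intro i l x t
    have h := hL (fun a => i.succAbove a) (Fin.strictMono_succAbove i) (e (x + Pi.single l t)) (e x)
    have h2 : ‖e (x + Pi.single l t) - e x‖ = |t| := by
      rw [map_add, add_sub_cancel_left, hes, EuclideanSpace.norm_single, Real.norm_eq_abs]
    rw [h2] at h
    have h3 : G i (e (x + Pi.single l t)) - G i (e x) = (-1 : ℝ) ^ i.val *
      (φ (e (x + Pi.single l t)) (fun a => EuclideanSpace.single (i.succAbove a) (1 : ℝ))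
        - φ (e x) (fun a => EuclideanSpace.single (i.succAbove a) (1 : ℝ))) := by
      rw [hG]
      simp only [smul_eq_mul]
      ring
    show |G i (e (x + Pi.single l t)) - G i (e x)| ≤ C * |t|
    rw [h3, abs_mul, abs_pow, abs_neg, abs_one, one_pow, one_mul]
    exact h
  · intro x
    have hd : DifferentiableAt ℝ φ (WithLp.toLp 2 x) := (hφ.differentiable (by norm_num)) _
    rw [extDeriv_apply hd]
    unfold divF
    refine Finset.sum_congr rfl (fun l _ => ?_)
    have hdi : ∀ i, DifferentiableAt ℝ (fun x => G i (e x)) x := fun i =>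
      ((hGe i).differentiable (by norm_num)) x
    have h1 : fderiv ℝ (fun x i => G i (e x)) x (Pi.single l 1) l
        = fderiv ℝ (fun x => G l (e x)) x (Pi.single l 1) := by
      rw [fderiv_pi hdi]
      rfl
    have h2 : fderiv ℝ (fun x => G l (e x)) x = (fderiv ℝ (G l) (e x)).comp e := by
      have := fderiv_comp x (((hGc l).differentiable (by norm_num)) (e x)) e.differentiableAt
      rw [e.fderiv] at this
      exact this
    have h3 : fderiv ℝ (G l) (e x) = (-1 : ℝ) ^ l.val • fderiv ℝ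
        (fun y => φ y (fun a => EuclideanSpace.single (l.succAbove a) (1 : ℝ))) (e x) := by
      have hGl : G l = fun y => (-1 : ℝ) ^ l.val •
          φ y (fun a => EuclideanSpace.single (l.succAbove a) (1 : ℝ)) := by rw [hG]
      rw [hGl]
      have hfd := (((happ l).differentiable (by norm_num)) (e x)).hasFDerivAt
      exact (hfd.const_smul ((-1 : ℝ) ^ l.val)).fderiv
    rw [h1, h2, ContinuousLinearMap.comp_apply, hes, h3, he]
    rw [ContinuousLinearMap.smul_apply, smul_eq_mul, zsmul_eq_mul]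
    push_cast
    rfl

end Pool.Agent.R363.LF
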