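import Pool.Agent.R363.LF.Stm

/-!
Piece V1a: the interior product in top degree.
-/

set_option autoImplicit false

namespace Pool.Agent.R363.LF

open MeasureTheory Finset

namespace V1a

/-- Interior product with `a`, as a linear map. -/
noncomputable def ctrL {n k : ℕ} (a : E n) : Form n (k + 1) →ₗ[ℝ] Form n k where
  toFun f :=
    { toContinuousMultilinearMap := f.toContinuousMultilinearMap.curryLeft a
      map_eq_zero_of_eq' := fun v i j h hij =>
        f.map_eq_zero_of_eq (Fin.cons a v) (i := i.succ) (j := j.succ) (by simpa using h)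
          (by simpa using hij) }
  map_add' f g := by ext v; rfl
  map_smul' c f := by ext v; rfl

theorem ctrL_apply {n k : ℕ} (a : E n) (f : Form n (k + 1)) (v : Fin k → E n) :
    ctrL a f v = f (Fin.cons a v) := rfl

/-- Interior product with `a`, as a continuous linear map. -/
noncomputable def ctr {n k : ℕ} (a : E n) : Form n (k + 1) →L[ℝ] Form n k :=
  (ctrL a).mkContinuous ‖a‖ (fun f => by
    apply ContinuousAlternatingMap.opNorm_le_bound _ (by positivity)
    intro v
    rw [ctrL_apply]
    refine (f.le_opNorm _).trans (le_of_eq ?_)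
    rw [Fin.prod_univ_succ]
    simp only [Fin.cons_zero, Fin.cons_succ]
    ring)

theorem ctr_apply {n k : ℕ} (a : E n) (f : Form n (k + 1)) (v : Fin k → E n) :
    ctr a f v = f (Fin.cons a v) := rfl

theorem top_zero {n : ℕ} (f : Form n (n + 1)) (v : Fin (n + 1) → E n) : f v = 0 := by
  have h : ¬ LinearIndependent ℝ v := by
    intro h
    have := h.fintype_card_le_finrank
    simp at this
  exact f.toAlternatingMap.map_linearDependent v h

end V1a

open V1a

theorem t_V1a : S_V1a := by
  intro k ω a hω
  have hd : Differentiable ℝ ω := hω.1.differentiable (by simp)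
  refine ⟨fun x => ctr a (ω x), ⟨?_, ?_⟩, ?_⟩
  · exact (ctr a).contDiff.comp hω.1
  · exact hω.2.comp_left (g := fun f => ctr a f) (map_zero _)
  · intro x
    have hf : fderiv ℝ (fun x => ctr a (ω x)) x = (ctr a).comp (fderiv ℝ ω x) :=
      ((ctr a).hasFDerivAt.comp x (hd x).hasFDerivAt).fderiv
    ext v
    have h0 := top_zero (ContinuousAlternatingMap.alternatizeUncurryFin (fderiv ℝ ω x))
      (Fin.cons a v)
    rw [ContinuousAlternatingMap.alternatizeUncurryFin_apply, Fin.sum_univ_succ] at h0
    simp only [Fin.val_zero, pow_zero, one_smul, Fin.cons_zero, Fin.cons_succ, Fin.val_succ] at h0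
    unfold extDeriv
    rw [ContinuousAlternatingMap.alternatizeUncurryFin_apply, hf]
    have h1 : Fin.removeNth (α := fun _ => E (k + 2)) 0 (Fin.cons a v) = v := by
      funext i; simp [Fin.removeNth]
    rw [h1] at h0
    have h2 : ∀ i : Fin (k + 2), (fderiv ℝ ω x (v i))
        (Fin.removeNth (α := fun _ => E (k + 2)) i.succ (Fin.cons a v)) =
        (ctr a (fderiv ℝ ω x (v i))) (Fin.removeNth i v) := by
      intro i
      rw [ctr_apply]
      congr 1
      funext j
      refine Fin.cases ?_ (fun j => ?_) j
      · simp [Fin.removeNth]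
      · simp [Fin.removeNth]
    simp only [h2] at h0
    simp only [ContinuousLinearMap.comp_apply]
    have h3 : ∀ i : Fin (k + 2), ((-1 : ℤ)) ^ ((i : ℕ) + 1) •
        (ctr a (fderiv ℝ ω x (v i))) (Fin.removeNth i v) = - (((-1 : ℤ)) ^ (i : ℕ) •
        (ctr a (fderiv ℝ ω x (v i))) (Fin.removeNth i v)) := by
      intro i
      rw [pow_succ]
      simp
    simp only [h3, Finset.sum_neg_distrib] at h0
    linarith

end Pool.Agent.R363.LF
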