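import Pool.Agent.R363.LF.Stm

/-!
# Closed currents of top degree are translation invariant
-/

namespace Pool.Agent.R363.LF

open MeasureTheory Finset

namespace V1bP

variable {n k : ℕ}

lemma test_add {f g : E n → Form n k} (hf : IsTest f) (hg : IsTest g) : IsTest (f + g) :=
  ⟨hf.1.add hg.1, hf.2.add hg.2⟩

lemma test_smul (c : ℝ) {f : E n → Form n k} (hf : IsTest f) : IsTest (c • f) :=
  ⟨hf.1.const_smul c, hf.2.smul_left (f := fun _ => c)⟩

lemma test_shift {f : E n → Form n k} (hf : IsTest f) (b : E n) :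
    IsTest (fun x => f (x - b)) :=
  ⟨hf.1.comp (contDiff_id.sub contDiff_const), hf.2.comp_homeomorph (Homeomorph.subRight b)⟩

lemma test_fderiv {f : E n → Form n k} (hf : IsTest f) (a : E n) :
    IsTest (fun x => fderiv ℝ f x a) := by
  refine ⟨?_, hf.2.fderiv_apply (𝕜 := ℝ) a⟩
  exact (hf.1.fderiv_right (m := ((⊤ : ℕ∞) : WithTop ℕ∞)) (by simp)).clm_apply contDiff_const

lemma bound {N : (E n → Form n (k + 1)) → ℝ} (hN : IsClosedNormal N) {B : ℝ}
    (hB : ∀ ω, IsTest ω → (∀ x, ‖ω x‖ ≤ 1) → |N ω| ≤ B) {f : E n → Form n (k + 1)}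
    (hf : IsTest f) {c : ℝ} (hc : 0 < c) (h : ∀ x, ‖f x‖ ≤ c) : |N f| ≤ c * B := by
  have h1 := hB (c⁻¹ • f) (test_smul _ hf) (fun x => by
    rw [Pi.smul_apply, norm_smul, Real.norm_eq_abs, abs_of_pos (inv_pos.2 hc)]
    rw [inv_mul_le_iff₀ hc]
    simpa using h x)
  have h2 : N f = c * N (c⁻¹ • f) := by
    rw [← hN.smul c _ (test_smul _ hf), smul_smul, mul_inv_cancel₀ hc.ne', one_smul]
  rw [h2, abs_mul, abs_of_pos hc]
  exact mul_le_mul_of_nonneg_left h1 hc.le

lemma neg1 (w : Form n k) : (-1 : ℝ) • w = -w := by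
  ext v
  simp

/-- second order estimate -/
lemma second {f : E n → Form n k} (hf : IsTest f) (a : E n) :
    ∃ M : ℝ, 0 < M ∧ ∀ (y : E n) (h : ℝ), 0 ≤ h →
      ‖f (y - h • a) - f y + h • fderiv ℝ f y a‖ ≤ M * h ^ 2 := by
  have ht := test_fderiv hf a
  obtain ⟨L, hL⟩ := ContDiff.lipschitzWith_of_hasCompactSupport ht.2 ht.1 (by simp)
  refine ⟨L * ‖a‖ + 1, by positivity, fun y h hh => ?_⟩
  have hd : ∀ s : ℝ, HasDerivAt (fun s : ℝ => f (y - s • a) + s • fderiv ℝ f y a)
      (-(fderiv ℝ f (y - s • a) a) + fderiv ℝ f y a) s := by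
    intro s
    have h1 : HasFDerivAt f (fderiv ℝ f (y - s • a)) (y - s • a) :=
      ((hf.1.differentiable (by simp)) _).hasFDerivAt
    have h2 : HasDerivAt (fun s : ℝ => y - s • a) (-a) s := by
      simpa using ((hasDerivAt_id s).smul_const a).const_sub y
    have h3 := h1.comp_hasDerivAt s h2
    have h4 : HasDerivAt (fun s : ℝ => s • fderiv ℝ f y a) (fderiv ℝ f y a) s := by
      simpa using (hasDerivAt_id s).smul_const (fderiv ℝ f y a)
    have h5 := h3.add h4
    rw [map_neg] at h5
    exact h5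
  have h6 := norm_image_sub_le_of_norm_deriv_le_segment' (a := 0) (b := h)
    (f := fun s : ℝ => f (y - s • a) + s • fderiv ℝ f y a)
    (f' := fun s => -(fderiv ℝ f (y - s • a) a) + fderiv ℝ f y a) (C := L * ‖a‖ * h)
    (fun s _ => (hd s).hasDerivWithinAt) (fun s hs => by
      have h7 := hL.dist_le_mul y (y - s • a)
      rw [dist_eq_norm, dist_eq_norm] at h7
      have h8 : -(fderiv ℝ f (y - s • a) a) + fderiv ℝ f y a =
        fderiv ℝ f y a - fderiv ℝ f (y - s • a) a := by abel
      rw [h8]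
      refine h7.trans ?_
      have h9 : y - (y - s • a) = s • a := by abel
      rw [h9, norm_smul, Real.norm_eq_abs, abs_of_nonneg hs.1]
      have h10 : s * ‖a‖ ≤ h * ‖a‖ := mul_le_mul_of_nonneg_right hs.2.le (norm_nonneg a)
      calc (L : ℝ) * (s * ‖a‖) ≤ L * (h * ‖a‖) := mul_le_mul_of_nonneg_left h10 L.2
        _ = L * ‖a‖ * h := by ring) h ⟨hh, le_refl h⟩
  have h11 : f (y - h • a) - f y + h • fderiv ℝ f y a =
      (f (y - h • a) + h • fderiv ℝ f y a) - (f (y - (0 : ℝ) • a) + (0 : ℝ) • fderiv ℝ f y a) := by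
    rw [zero_smul, zero_smul, sub_zero, add_zero]
    abel
  rw [h11]
  refine h6.trans ?_
  nlinarith [sq_nonneg h]

end V1bP

open V1bP in
theorem t_V1b : S_V1b := by
  intro k N hN hz ω a hω
  obtain ⟨B, hB⟩ := hN.mass
  obtain ⟨M, hM, hM2⟩ := second hω a
  -- one step
  have hstep : ∀ (t h : ℝ), 0 < h →
      |N (fun x => ω (x - (t + h) • a)) - N (fun x => ω (x - t • a))| ≤ M * h ^ 2 * B := by
    intro t h hh
    have t1 := test_shift hω ((t + h) • a)
    have t2 := test_shift hω (t • a)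
    have t3 := test_shift (test_fderiv hω a) (t • a)
    have e1 : N (fun x => fderiv ℝ ω (x - t • a) a) = 0 := by
      have h1 := hz (fun x => ω (x - t • a)) a t2
      have h2 : (fun x => fderiv ℝ (fun x => ω (x - t • a)) x a) =
          fun x => fderiv ℝ ω (x - t • a) a := by
        funext x
        rw [fderiv_comp_sub]
      rw [h2] at h1
      exact h1
    have e2 := hN.add _ _ (test_add t1 (test_smul (-1) t2)) (test_smul h t3)
    rw [hN.add _ _ t1 (test_smul (-1) t2), hN.smul _ _ t2, hN.smul _ _ t3, e1] at e2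
    have e3 := bound hN hB (test_add (test_add t1 (test_smul (-1) t2)) (test_smul h t3))
      (c := M * h ^ 2) (by positivity) (fun x => by
        have h3 := hM2 (x - t • a) h hh.le
        have h4 : x - (t + h) • a = x - t • a - h • a := by
          rw [add_smul]
          abel
        have h6 : (-1 : ℝ) • ω (x - t • a) = -ω (x - t • a) := neg1 _
        have h7 : ω (x - t • a - h • a) + (-1 : ℝ) • ω (x - t • a) +
            h • (fderiv ℝ ω (x - t • a)) a = ω (x - t • a - h • a) - ω (x - t • a) +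
            h • (fderiv ℝ ω (x - t • a)) a := by
          rw [h6, ← sub_eq_add_neg]
        rw [← h7, ← h4] at h3
        exact h3)
    rw [e2] at e3
    have h5 : N (fun x => ω (x - (t + h) • a)) + -1 * N (fun x => ω (x - t • a)) + h * 0 =
      N (fun x => ω (x - (t + h) • a)) - N (fun x => ω (x - t • a)) := by ring
    rw [h5] at e3
    exact e3
  -- many steps
  have hmany : ∀ (h : ℝ), 0 < h → ∀ m : ℕ,
      |N (fun x => ω (x - ((m : ℝ) * h) • a)) - N ω| ≤ m * (M * h ^ 2 * B) := by
    intro h hh m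
    induction m with
    | zero =>
      have h1 : (fun x => ω (x - (((0 : ℕ) : ℝ) * h) • a)) = ω := by
        funext x
        rw [Nat.cast_zero, zero_mul, zero_smul, sub_zero]
      rw [h1]
      simp
    | succ m ih =>
      have h1 := hstep ((m : ℝ) * h) h hh
      have h2 : (m : ℝ) * h + h = ((m + 1 : ℕ) : ℝ) * h := by push_cast; ring
      rw [h2] at h1
      have h3 : N (fun x => ω (x - (((m + 1 : ℕ) : ℝ) * h) • a)) - N ω =
          (N (fun x => ω (x - (((m + 1 : ℕ) : ℝ) * h) • a)) -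
            N (fun x => ω (x - ((m : ℝ) * h) • a))) +
          (N (fun x => ω (x - ((m : ℝ) * h) • a)) - N ω) := by ring
      rw [h3]
      refine (abs_add_le _ _).trans ?_
      push_cast at h1 ih ⊢
      linarith
  -- the limit
  have hlim : ∀ m : ℕ, 0 < m → |N (fun x => ω (x - a)) - N ω| ≤ M * B / m := by
    intro m hm
    have hm' : (0 : ℝ) < m := by exact_mod_cast hm
    have h1 := hmany (1 / m) (by positivity) m
    have h2 : (m : ℝ) * (1 / m) = 1 := by field_simp
    rw [h2] at h1
    simp only [one_smul] at h1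
    refine h1.trans (le_of_eq ?_)
    field_simp
  have hB0 : 0 ≤ M * B := by
    have := hlim 1 one_pos
    have h2 := abs_nonneg (N (fun x => ω (x - a)) - N ω)
    simp only [Nat.cast_one, div_one] at this
    linarith
  by_contra hne
  have hpos : 0 < |N (fun x => ω (x - a)) - N ω| := abs_pos.2 (sub_ne_zero.2 hne)
  obtain ⟨m, hm⟩ := exists_nat_gt (M * B / |N (fun x => ω (x - a)) - N ω|)
  have hm0 : 0 < m := by
    rcases Nat.eq_zero_or_pos m with h | h
    · exfalso
      rw [h, Nat.cast_zero] at hm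
      have := div_nonneg hB0 hpos.le
      linarith
    · exact h
  have hm' : (0 : ℝ) < m := by exact_mod_cast hm0
  have h1 := hlim m hm0
  rw [le_div_iff₀ hm'] at h1
  rw [div_lt_iff₀ hpos] at hm
  linarith

end Pool.Agent.R363.LF
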