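import Pool.Agent.R363.LF.Stm

namespace Pool.Agent.R363.LF

open MeasureTheory Finset

theorem isTest_translate {n k : ℕ} {ω : E n → Form n k} (hω : IsTest ω) (b : E n) :
    IsTest (fun x => ω (x - b)) := by
  refine ⟨hω.1.comp (contDiff_id.sub contDiff_const), ?_⟩
  exact hω.2.comp_homeomorph (Homeomorph.subRight b)

theorem isTest_add {n k : ℕ} {ω η : E n → Form n k} (hω : IsTest ω) (hη : IsTest η) :
    IsTest (ω + η) := ⟨hω.1.add hη.1, hω.2.add hη.2⟩

theorem isTest_zero {n k : ℕ} : IsTest (0 : E n → Form n k) :=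
  ⟨contDiff_const, HasCompactSupport.zero⟩

theorem isTest_smul {n k : ℕ} {ω : E n → Form n k} (hω : IsTest ω) (c : ℝ) :
    IsTest (c • ω) := by
  refine ⟨hω.1.const_smul c, ?_⟩
  exact hω.2.smul_left (f := fun _ => c)

theorem t_V1c : S_V1c := by
  intro k N hN htr ω hω
  obtain ⟨B, hB⟩ := hN.mass
  obtain ⟨S, hS⟩ := hω.2.exists_bound_of_continuous hω.1.continuous
  obtain ⟨R, hRpos, hR⟩ := hω.2.exists_pos_le_norm
  have hS0 : 0 ≤ S := (norm_nonneg _).trans (hS 0)
  set a : E (k + 2) := EuclideanSpace.single 0 (2 * R) with ha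
  have hna : ‖a‖ = 2 * R := by
    rw [ha, EuclideanSpace.norm_single, Real.norm_of_nonneg (by linarith)]
  let f : ℕ → E (k + 2) → Form (k + 2) (k + 2) := fun M x => ∑ j ∈ range M, ω (x - (j : ℝ) • a)
  have hf0 : f 0 = 0 := by
    funext x; simp [f]
  have hfs : ∀ M, f (M + 1) = f M + fun x => ω (x - (M : ℝ) • a) := by
    intro M; funext x; simp [f, Finset.sum_range_succ]
  have hft : ∀ M, IsTest (f M) := by
    intro M
    induction M with
    | zero => rw [hf0]; exact isTest_zero
    | succ M ih => rw [hfs]; exact isTest_add ih (isTest_translate hω _)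
  have hNf : ∀ M : ℕ, N (f M) = M * N ω := by
    intro M
    induction M with
    | zero =>
      rw [hf0]
      have := hN.smul 0 ω hω
      rw [zero_smul, zero_mul] at this
      rw [this]; simp
    | succ M ih =>
      rw [hfs, hN.add _ _ (hft M) (isTest_translate hω _), ih, htr ω _ hω]
      push_cast; ring
  have hbd : ∀ M x, ‖f M x‖ ≤ S := by
    intro M x
    by_cases h : ∃ j ∈ range M, ω (x - (j : ℝ) • a) ≠ 0
    · obtain ⟨j0, hj0, hne⟩ := h
      have hlt : ‖x - (j0 : ℝ) • a‖ < R := by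
        by_contra hcon
        exact hne (hR _ (not_lt.mp hcon))
      have hsum : f M x = ω (x - (j0 : ℝ) • a) := by
        refine Finset.sum_eq_single_of_mem j0 hj0 (fun j _ hj => ?_)
        apply hR
        have h1 : ‖((j0 : ℝ) - j) • a‖ ≤ ‖x - (j : ℝ) • a‖ + ‖x - (j0 : ℝ) • a‖ := by
          have : ((j0 : ℝ) - j) • a = (x - (j : ℝ) • a) - (x - (j0 : ℝ) • a) := by
            rw [sub_smul]; abel
          rw [this]; exact norm_sub_le _ _
        have h2 : (1 : ℝ) ≤ ‖(j0 : ℝ) - j‖ := by
          have h3 : (1 : ℤ) ≤ |(j0 : ℤ) - j| := by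
            apply Int.one_le_abs
            intro h0
            apply hj
            omega
          have h4 : ((1 : ℤ) : ℝ) ≤ ((|(j0 : ℤ) - j| : ℤ) : ℝ) := by exact_mod_cast h3
          rw [Real.norm_eq_abs]
          push_cast at h4
          exact h4
        rw [norm_smul, hna] at h1
        nlinarith
      rw [hsum]; exact hS _
    · push Not at h
      have : f M x = 0 := Finset.sum_eq_zero h
      rw [this, norm_zero]; exact hS0
  -- conclusion
  have hkey : ∀ M : ℕ, (M : ℝ) * |N ω| ≤ B * (S + 1) := by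
    intro M
    have h1 := hB ((S + 1)⁻¹ • f M) (isTest_smul (hft M) _) (fun x => by
      rw [Pi.smul_apply, norm_smul, norm_inv, Real.norm_of_nonneg (by linarith)]
      rw [inv_mul_le_iff₀ (by linarith)]
      linarith [hbd M x])
    rw [hN.smul _ _ (hft M), hNf, abs_mul, abs_mul, abs_inv, abs_of_nonneg (by linarith : 0 ≤ S + 1),
      Nat.abs_cast, inv_mul_le_iff₀ (by linarith)] at h1
    linarith
  by_contra hne
  have hpos : 0 < |N ω| := abs_pos.mpr hne
  obtain ⟨M, hM⟩ := exists_nat_gt (B * (S + 1) / |N ω|)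
  rw [div_lt_iff₀ hpos] at hM
  linarith [hkey M]

end Pool.Agent.R363.LF
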