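import Pool.Agent.R363.LF.Stm

/-!
Piece V1c: disjoint translates (helper106).
-/

set_option autoImplicit false

namespace Pool.Agent.R363.LF

open MeasureTheory Finset

namespace V1cb

theorem test_zero {n k : ℕ} : IsTest (fun _ => 0 : E n → Form n k) := by
  refine ⟨contDiff_const, ?_⟩
  exact HasCompactSupport.zero

theorem test_add {n k : ℕ} {ω η : E n → Form n k} (h : IsTest ω) (h' : IsTest η) :
    IsTest (ω + η) := ⟨h.1.add h'.1, h.2.add h'.2⟩

theorem test_smul {n k : ℕ} {ω : E n → Form n k} (c : ℝ) (h : IsTest ω) : IsTest (c • ω) := by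
  refine ⟨h.1.const_smul c, ?_⟩
  have h1 := h.2.comp_left (g := fun w : Form n k => c • w) (smul_zero c)
  exact h1

theorem test_trans {n k : ℕ} {ω : E n → Form n k} (a : E n) (h : IsTest ω) :
    IsTest (fun x => ω (x - a)) := by
  refine ⟨h.1.comp (contDiff_id.sub contDiff_const), ?_⟩
  exact h.2.comp_homeomorph (Homeomorph.subRight a)

end V1cb

open V1cb in
theorem t_V1c : S_V1c := by
  intro k N hN htr ω hω
  obtain ⟨B, hB⟩ := hN.mass
  obtain ⟨C, hC⟩ := hω.2.exists_bound_of_continuous hω.1.continuous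
  obtain ⟨S, hS0, hS⟩ : ∃ S : ℝ, 0 < S ∧ ∀ x, ‖ω x‖ ≤ S :=
    ⟨|C| + 1, by positivity, fun x => (hC x).trans ((le_abs_self C).trans (by linarith))⟩
  obtain ⟨R, hR0, hR⟩ := (hω.2.isCompact.isBounded).subset_closedBall_lt 0 0
  obtain ⟨η, hη⟩ : ∃ η : E (k + 2) → Form (k + 2) (k + 2), η = S⁻¹ • ω := ⟨_, rfl⟩
  have hηt : IsTest η := by
    rw [hη]
    exact test_smul _ hω
  have hη1 : ∀ x, ‖η x‖ ≤ 1 := by
    intro x
    rw [hη, Pi.smul_apply, norm_smul, norm_inv, Real.norm_eq_abs, abs_of_pos hS0,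
      inv_mul_le_iff₀ hS0, mul_one]
    exact hS x
  have hηs : ∀ x, η x ≠ 0 → ‖x‖ ≤ R := by
    intro x hx
    have h1 : ω x ≠ 0 := by
      intro h
      apply hx
      rw [hη, Pi.smul_apply, h, smul_zero]
    have h2 := hR (subset_tsupport ω (Function.mem_support.2 h1))
    rwa [mem_closedBall_zero_iff] at h2
  obtain ⟨a, ha⟩ : ∃ a : E (k + 2), ‖a‖ = 2 * R + 1 := by
    refine ⟨EuclideanSpace.single 0 (2 * R + 1), ?_⟩
    rw [EuclideanSpace.norm_single, Real.norm_eq_abs, abs_of_pos (by linarith)]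
  have hdis : ∀ (x : E (k + 2)) (i j : ℕ), η (x - (i : ℝ) • a) ≠ 0 → η (x - (j : ℝ) • a) ≠ 0 →
      i = j := by
    intro x i j hi hj
    by_contra hne
    have h1 := hηs _ hi
    have h2 := hηs _ hj
    have h3 : ((i : ℝ) - j) • a = (x - (j : ℝ) • a) - (x - (i : ℝ) • a) := by
      rw [sub_smul]
      abel
    have h4 : ‖((i : ℝ) - j) • a‖ ≤ R + R := by
      rw [h3]
      exact (norm_sub_le _ _).trans (add_le_add h2 h1)
    rw [norm_smul, ha] at h4
    have h5 : (1 : ℝ) ≤ ‖(i : ℝ) - j‖ := by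
      have h6 : ((i : ℤ) - j) ≠ 0 := by
        intro h
        apply hne
        omega
      have h7 := Int.one_le_abs h6
      rw [Real.norm_eq_abs]
      exact_mod_cast h7
    nlinarith
  have hsum : ∀ M : ℕ, IsTest (fun x => ∑ j ∈ range M, η (x - (j : ℝ) • a)) ∧
      N (fun x => ∑ j ∈ range M, η (x - (j : ℝ) • a)) = M * N η := by
    intro M
    induction M with
    | zero =>
      simp only [range_zero, sum_empty]
      refine ⟨test_zero, ?_⟩
      have h1 := hN.smul 0 _ (test_zero (n := k + 2) (k := k + 2))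
      rw [zero_mul] at h1
      have h2 : (0 : ℝ) • (fun _ => 0 : E (k + 2) → Form (k + 2) (k + 2)) = fun _ => 0 := by
        funext x
        simp
      rw [h2] at h1
      rw [h1]
      simp
    | succ M ih =>
      have e : (fun x => ∑ j ∈ range (M + 1), η (x - (j : ℝ) • a)) =
          (fun x => ∑ j ∈ range M, η (x - (j : ℝ) • a)) + fun x => η (x - (M : ℝ) • a) := by
        funext x
        rw [sum_range_succ]
        rfl
      have h1 := test_trans ((M : ℝ) • a) hηt
      rw [e]
      refine ⟨test_add ih.1 h1, ?_⟩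
      rw [hN.add _ _ ih.1 h1, ih.2, htr η _ hηt]
      push_cast
      ring
  have hbound : ∀ M : ℕ, (M : ℝ) * |N η| ≤ B := by
    intro M
    obtain ⟨h1, h2⟩ := hsum M
    have h3 := hB _ h1 (fun x => ?_)
    · rw [h2, abs_mul, Nat.abs_cast] at h3
      exact h3
    · by_cases h : ∃ j ∈ range M, η (x - (j : ℝ) • a) ≠ 0
      · obtain ⟨j, hj, hj0⟩ := h
        rw [Finset.sum_eq_single_of_mem j hj]
        · exact hη1 _
        · intro i _ hij
          by_contra hi
          exact hij (hdis x i j hi hj0)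
      · push Not at h
        rw [Finset.sum_eq_zero h, norm_zero]
        exact zero_le_one
  have h0 : N η = 0 := by
    by_contra h
    have hpos : 0 < |N η| := abs_pos.2 h
    obtain ⟨M, hM⟩ := exists_nat_gt (B / |N η|)
    rw [div_lt_iff₀ hpos] at hM
    exact absurd (hbound M) (not_le.2 hM)
  have h1 := hN.smul S⁻¹ ω hω
  rw [← hη, h0] at h1
  rcases mul_eq_zero.1 h1.symm with h | h
  · exact absurd h (inv_ne_zero hS0.ne')
  · exact h

end Pool.Agent.R363.LF
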