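import Pool.Agent.R363.LF.Stm

/-! Piece V2 (helper159). -/

namespace Pool.Agent.R363.LF

open MeasureTheory Finset

lemma isOpen_cubeO (n : ℕ) : IsOpen (cubeO n) := by
  have h : cubeO n = ⋂ l : Fin n, ({x : E n | 0 < x l} ∩ {x : E n | x l < 1}) := by
    ext x
    simp [cubeO]
  rw [h]
  refine isOpen_iInter_of_finite fun l => IsOpen.inter ?_ ?_
  · exact isOpen_lt continuous_const (by fun_prop)
  · exact isOpen_lt (by fun_prop) continuous_const

theorem t_V2 (hv : S_Vol) : S_V2 := by
  intro k hN0 x hx τ hτ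
  obtain ⟨v, hv1, hve, hvw⟩ := hv (k + 2)
  have hc0 : τ v = 0 := by
    by_contra hc
    obtain ⟨N, hN, hlim⟩ := hτ
    have hcpos : 0 < |τ v| := abs_pos.2 hc
    obtain ⟨r₀, hr₀, hr⟩ := hlim (|τ v| * (1 / 2) ^ (k + 2) / 2) (by positivity)
    obtain ⟨δ, hδ, hball⟩ := Metric.isOpen_iff.1 (isOpen_cubeO (k + 2)) x hx
    have hcube : cubeO (k + 2) ⊆ cubeE (k + 2) := fun y hy l => ⟨(hy l).1.le, (hy l).2.le⟩
    set r : ℝ := min (r₀ / 2) δ with hrdef
    have hrpos : 0 < r := lt_min (by linarith) hδ
    have hrr₀ : r < r₀ := lt_of_le_of_lt (min_le_left _ _) (by linarith)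
    have hrδ : r ≤ δ := min_le_right _ _
    have hsub : Metric.ball x r ⊆ cubeE (k + 2) :=
      ((Metric.ball_subset_ball hrδ).trans hball).trans hcube
    let f : ContDiffBump x := ⟨r / 2, 3 * r / 4, by linarith, by linarith⟩
    have hfin : f.rIn = r / 2 := rfl
    have hfout : f.rOut = 3 * r / 4 := rfl
    let ω : E (k + 2) → Form (k + 2) (k + 2) := fun y => f y • v
    have hω : IsTest ω := by
      refine ⟨f.contDiff.smul contDiff_const, ?_⟩
      exact f.hasCompactSupport.smul_right
    have hω1 : ∀ y, ‖ω y‖ ≤ 1 := by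
      intro y
      show ‖f y • v‖ ≤ 1
      rw [norm_smul, Real.norm_eq_abs, abs_of_nonneg f.nonneg]
      calc f y * ‖v‖ ≤ 1 * 1 := by
            gcongr
            exact f.le_one
        _ = 1 := one_mul 1
    have hωs : tsupport ω ⊆ Metric.ball x r := by
      refine (tsupport_smul_subset_left (f : E (k + 2) → ℝ) (fun _ => v)).trans ?_
      rw [f.tsupport_eq, hfout]
      exact Metric.closedBall_subset_ball (by linarith)
    have h1 := hr r hrpos hrr₀ ω hω hω1 hωs
    rw [hN0 N hN ω hω, zero_sub, abs_neg] at h1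
    set μ := (volume : Measure (E (k + 2))).restrict (cubeE (k + 2)) with hμ
    have h2 : ∫ y, τ (ω y) ∂μ = (∫ y, f y ∂μ) * τ v := by
      rw [← integral_mul_const]
      refine integral_congr_ae (Filter.Eventually.of_forall fun y => ?_)
      show τ (f y • v) = f y * τ v
      rw [map_smul, smul_eq_mul]
    rw [h2, abs_mul] at h1
    -- volumes of balls
    have hfr : Module.finrank ℝ (E (k + 2)) = k + 2 := by simp
    have hV := Measure.addHaar_ball (volume : Measure (E (k + 2))) x hrpos.le
    have hV2 := Measure.addHaar_ball (volume : Measure (E (k + 2))) x (by linarith : (0 : ℝ) ≤ r / 2)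
    rw [hfr] at hV hV2
    set V1 : ℝ := ((volume : Measure (E (k + 2))) (Metric.ball 0 1)).toReal with hV1
    have hV1pos : 0 < V1 := ENNReal.toReal_pos (Metric.measure_ball_pos _ _ one_pos).ne'
      measure_ball_lt_top.ne
    have hμr : (μ (Metric.ball x r)).toReal = r ^ (k + 2) * V1 := by
      rw [hμ, Measure.restrict_apply measurableSet_ball, Set.inter_eq_left.2 hsub, hV,
        ENNReal.toReal_mul, ENNReal.toReal_ofReal (by positivity)]
    have hsub2 : Metric.ball x (r / 2) ⊆ cubeE (k + 2) :=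
      (Metric.ball_subset_ball (by linarith)).trans hsub
    have hμr2 : (μ (Metric.ball x (r / 2))).toReal = (r / 2) ^ (k + 2) * V1 := by
      rw [hμ, Measure.restrict_apply measurableSet_ball, Set.inter_eq_left.2 hsub2, hV2,
        ENNReal.toReal_mul, ENNReal.toReal_ofReal (by positivity)]
    have hint : Integrable (fun y => f y) μ :=
      (f.continuous.integrable_of_hasCompactSupport f.hasCompactSupport).mono_measure
        Measure.restrict_le_self
    have hlow : (r / 2) ^ (k + 2) * V1 ≤ ∫ y, f y ∂μ := by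
      rw [← hμr2]
      have e1 : ∫ y in Metric.ball x (r / 2), (1 : ℝ) ∂μ ≤ ∫ y, f y ∂μ := by
        have e2 : ∫ y in Metric.ball x (r / 2), (1 : ℝ) ∂μ = ∫ y in Metric.ball x (r / 2), f y ∂μ := by
          refine setIntegral_congr_fun measurableSet_ball fun y hy => ?_
          have : f y = 1 := f.one_of_mem_closedBall (by
            rw [hfin]; exact Metric.ball_subset_closedBall hy)
          exact this.symm
        rw [e2]
        exact setIntegral_le_integral hint (Filter.Eventually.of_forall fun y => f.nonneg)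
      have e3 : ∫ y in Metric.ball x (r / 2), (1 : ℝ) ∂μ = (μ (Metric.ball x (r / 2))).toReal := by
        rw [setIntegral_const, smul_eq_mul, mul_one]
        rfl
      rw [← e3]
      exact e1
    rw [hμr] at h1
    have h3 : (r / 2) ^ (k + 2) * V1 * |τ v| ≤ |τ v| * (1 / 2) ^ (k + 2) / 2 * (r ^ (k + 2) * V1) := by
      refine le_trans ?_ h1
      have : (r / 2) ^ (k + 2) * V1 ≤ |∫ y, f y ∂μ| := hlow.trans (le_abs_self _)
      gcongr
    have h4 : |τ v| * (1 / 2) ^ (k + 2) / 2 * (r ^ (k + 2) * V1)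
        = (r / 2) ^ (k + 2) * V1 * |τ v| / 2 := by
      rw [div_pow, div_pow, one_pow]; ring
    rw [h4] at h3
    have h5 : 0 < (r / 2) ^ (k + 2) * V1 * |τ v| := by positivity
    linarith
  ext w
  rw [hvw w, map_smul, hc0, smul_zero]
  rfl

end Pool.Agent.R363.LF
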