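import Pool.Agent.R363.LF.Stm

namespace Pool.Agent.R363.LF

open MeasureTheory Finset

namespace V2bAux

lemma isOpen_cubeO (n : ℕ) : IsOpen (cubeO n) := by
  have h : cubeO n = ⋂ l : Fin n, {x : E n | 0 < x l ∧ x l < 1} := by
    ext x
    simp [cubeO]
  rw [h]
  refine isOpen_iInter_of_finite fun l => ?_
  have hc : Continuous (fun x : E n => x l) := by fun_prop
  exact (isOpen_lt continuous_const hc).inter (isOpen_lt hc continuous_const)

end V2bAux

open V2bAux in
theorem t_V2 (hv : S_Vol) : S_V2 := by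
  intro k hN x hx τ hτ
  obtain ⟨v, hv1, hv2, hv3⟩ := hv (k + 2)
  obtain ⟨N, hNc, hε⟩ := hτ
  by_contra hne
  have hc : τ v ≠ 0 := by
    intro h0
    apply hne
    refine ContinuousLinearMap.ext fun w => ?_
    rw [hv3 w, map_smul, h0]
    simp
  have hcpos : 0 < |τ v| := abs_pos.2 hc
  have hsub : cubeO (k + 2) ⊆ cubeE (k + 2) := fun y hy l => ⟨(hy l).1.le, (hy l).2.le⟩
  obtain ⟨r₀, hr₀, h⟩ := hε (|τ v| / 2 ^ (k + 3)) (by positivity)
  obtain ⟨δ, hδ, hball⟩ := Metric.isOpen_iff.1 (isOpen_cubeO (k + 2)) x hx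
  obtain ⟨r, hrpos, hr0, hrδ⟩ : ∃ r : ℝ, 0 < r ∧ r < r₀ ∧ r ≤ δ :=
    ⟨min (r₀ / 2) δ, by positivity, lt_of_le_of_lt (min_le_left _ _) (by linarith),
      min_le_right _ _⟩
  have hbE : Metric.ball x r ⊆ cubeE (k + 2) :=
    (Metric.ball_subset_ball hrδ).trans (hball.trans hsub)
  have hbE2 : Metric.ball x (r / 2) ⊆ cubeE (k + 2) :=
    (Metric.ball_subset_ball (by linarith)).trans hbE
  let χ : ContDiffBump x := ⟨r / 2, 3 * r / 4, by positivity, by linarith⟩
  have htest : IsTest (fun y => χ y • v) := by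
    refine ⟨?_, ?_⟩
    · exact χ.contDiff.smul contDiff_const
    · exact χ.hasCompactSupport.smul_right
  have hnorm : ∀ y, ‖χ y • v‖ ≤ 1 := by
    intro y
    rw [norm_smul, Real.norm_eq_abs, abs_of_nonneg χ.nonneg]
    exact mul_le_one₀ χ.le_one (norm_nonneg _) hv1
  have hsupp : tsupport (fun y => χ y • v) ⊆ Metric.ball x r := by
    refine (tsupport_smul_subset_left (fun y => χ y) (fun _ => v)).trans ?_
    have : tsupport (fun y => χ y) = Metric.closedBall x (3 * r / 4) := χ.tsupport_eq
    rw [this]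
    exact Metric.closedBall_subset_ball (by linarith)
  have h1 := h r hrpos hr0 (fun y => χ y • v) htest hnorm hsupp
  rw [hN N hNc _ htest, zero_sub, abs_neg] at h1
  have e1 : ∫ y, τ (χ y • v) ∂((volume : Measure (E (k + 2))).restrict (cubeE (k + 2))) =
      (∫ y, χ y ∂((volume : Measure (E (k + 2))).restrict (cubeE (k + 2)))) * τ v := by
    simp only [map_smul, smul_eq_mul]
    exact integral_mul_const _ _
  rw [e1, abs_mul] at h1
  have hint : Integrable (fun y => χ y) ((volume : Measure (E (k + 2))).restrict (cubeE (k + 2))) :=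
    (χ.integrable (μ := (volume : Measure (E (k + 2))))).restrict
  have e2 : ((volume : Measure (E (k + 2))) (Metric.ball x (r / 2))).toReal ≤
      ∫ y, χ y ∂((volume : Measure (E (k + 2))).restrict (cubeE (k + 2))) := by
    have a1 : ∫ y, (Metric.ball x (r / 2)).indicator (1 : E (k + 2) → ℝ) y
        ∂((volume : Measure (E (k + 2))).restrict (cubeE (k + 2))) =
        ((volume : Measure (E (k + 2))) (Metric.ball x (r / 2))).toReal := by
      rw [integral_indicator_one Metric.isOpen_ball.measurableSet, Measure.real,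
        Measure.restrict_apply Metric.isOpen_ball.measurableSet,
        Set.inter_eq_left.2 hbE2]
    rw [← a1]
    refine integral_mono_of_nonneg ?_ hint ?_
    · exact Filter.Eventually.of_forall fun y =>
        Set.indicator_nonneg (fun _ _ => zero_le_one) y
    · refine Filter.Eventually.of_forall fun y => ?_
      by_cases hy : y ∈ Metric.ball x (r / 2)
      · have : χ y = 1 := χ.one_of_mem_closedBall (Metric.ball_subset_closedBall hy)
        simp only [Set.indicator_of_mem hy, Pi.one_apply]
        exact this.ge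
      · simp only [Set.indicator_of_notMem hy]
        exact χ.nonneg
  have e3 : (((volume : Measure (E (k + 2))).restrict (cubeE (k + 2))) (Metric.ball x r)).toReal =
      ((volume : Measure (E (k + 2))) (Metric.ball x r)).toReal := by
    rw [Measure.restrict_apply Metric.isOpen_ball.measurableSet, Set.inter_eq_left.2 hbE]
  rw [e3] at h1
  have hfin : Module.finrank ℝ (E (k + 2)) = k + 2 := by simp
  have v1 : ∀ s : ℝ, 0 ≤ s → ((volume : Measure (E (k + 2))) (Metric.ball x s)).toReal =
      s ^ (k + 2) * ((volume : Measure (E (k + 2))) (Metric.ball 0 1)).toReal := by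
    intro s hs
    rw [Measure.addHaar_ball volume x hs, ENNReal.toReal_mul, hfin,
      ENNReal.toReal_ofReal (by positivity)]
  have hB : 0 < ((volume : Measure (E (k + 2))) (Metric.ball 0 1)).toReal :=
    ENNReal.toReal_pos (Metric.measure_ball_pos _ _ one_pos).ne' measure_ball_lt_top.ne
  rw [v1 _ (by positivity)] at e2
  rw [v1 _ hrpos.le] at h1
  have e4 : ∫ y, χ y ∂((volume : Measure (E (k + 2))).restrict (cubeE (k + 2))) ≤
      |∫ y, χ y ∂((volume : Measure (E (k + 2))).restrict (cubeE (k + 2)))| := le_abs_self _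
  have e5 : (r / 2) ^ (k + 2) * ((volume : Measure (E (k + 2))) (Metric.ball 0 1)).toReal * |τ v| ≤
      |τ v| / 2 ^ (k + 3) * (r ^ (k + 2) * ((volume : Measure (E (k + 2))) (Metric.ball 0 1)).toReal) :=
    (mul_le_mul_of_nonneg_right (e2.trans e4) hcpos.le).trans h1
  have e6 : (r / 2) ^ (k + 2) * ((volume : Measure (E (k + 2))) (Metric.ball 0 1)).toReal * |τ v| =
      2 * (|τ v| / 2 ^ (k + 3) * (r ^ (k + 2) * ((volume : Measure (E (k + 2))) (Metric.ball 0 1)).toReal)) := by
    rw [div_pow, pow_succ (2 : ℝ) (k + 2)]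
    field_simp
  have e7 : 0 < |τ v| / 2 ^ (k + 3) * (r ^ (k + 2) * ((volume : Measure (E (k + 2))) (Metric.ball 0 1)).toReal) := by
    positivity
  linarith

end Pool.Agent.R363.LF
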