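import Pool.Agent.R363.LF.Stm

/-! # The volume form -/

namespace Pool.Agent.R363.LF

open MeasureTheory Finset

theorem t_Vol : S_Vol := by
  intro n
  haveI : Fact (Module.finrank ℝ (E n) = n) := ⟨by simp⟩
  have hvol : (EuclideanSpace.basisFun (Fin n) ℝ).toBasis.orientation.volumeForm =
      (EuclideanSpace.basisFun (Fin n) ℝ).toBasis.det :=
    Orientation.volumeForm_robust _ (EuclideanSpace.basisFun (Fin n) ℝ) rfl
  have hb : ∀ m : Fin n → E n, ‖(EuclideanSpace.basisFun (Fin n) ℝ).toBasis.det m‖ ≤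
      1 * ∏ i, ‖m i‖ := by
    intro m
    rw [← hvol, one_mul, Real.norm_eq_abs]
    exact Orientation.abs_volumeForm_apply_le _ m
  have hs : (fun a => EuclideanSpace.single a (1 : ℝ)) =
      ((EuclideanSpace.basisFun (Fin n) ℝ).toBasis : Fin n → E n) := by
    funext a
    simp
  refine ⟨AlternatingMap.mkContinuous (EuclideanSpace.basisFun (Fin n) ℝ).toBasis.det 1 hb,
    AlternatingMap.mkContinuous_norm_le _ zero_le_one _, ?_, ?_⟩
  · change (EuclideanSpace.basisFun (Fin n) ℝ).toBasis.det _ = 1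
    rw [hs]
    exact Module.Basis.det_self _
  · intro w
    have h1 := AlternatingMap.eq_smul_basis_det (EuclideanSpace.basisFun (Fin n) ℝ).toBasis
      w.toAlternatingMap
    ext m
    have h2 := congrArg (fun f : (E n) [⋀^Fin n]→ₗ[ℝ] ℝ => f m) h1
    rw [hs]
    exact h2

end Pool.Agent.R363.LF
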